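import Pool.Agent.H45.GapCases

/-!
# Rotation of closed pairs and the total bound
-/

namespace H45.Gap

open Finset Module

set_option linter.unusedSectionVars false
set_option linter.unusedVariables false

section Rot

variable {K E : Type*} [Field K] [Fintype K] [AddCommGroup E] [Module K E] [Fintype E]
variable (A : E ≃ₗ[K] E) (l : ℕ → ℤ) (n : ℕ) (L : ℕ)

open Classical in
/-- closed pairs of rank `d` -/
noncomputable def ClD (d : ℕ) : Finset ((E ≃ₗ[K] E) × E) :=
  (Cl A l n).filter fun p => finrank K (sp K (pth A l p) n) = d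

lemma mem_ClD (d : ℕ) (p : (E ≃ₗ[K] E) × E) :
    p ∈ ClD A l n d ↔ (p.2 ≠ 0 ∧ pth A l p n = p.2) ∧ finrank K (sp K (pth A l p) n) = d := by
  simp [ClD, mem_Cl]

lemma ClF_range_le (hl : ∀ j, l j ≠ 0) (hL : ∀ j, |l j| ≤ L) (hLL : ∀ i j, |l i + l j| ≤ L)
    (hn : Even n) (d : ℕ) (hd : 0 < d) (hdn : d < n) (hne : l 0 ≠ l d) :
    (ClF A l n (Finset.range d)).card * frames K E d ≤
      2 * ((Fintype.card E ^ (d - 1) * Fintype.card K ^ (2 * n) * (relSet A L).card ^ 2) *
        Fintype.card (E ≃ₗ[K] E)) := by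
  classical
  obtain ⟨e, rfl⟩ : ∃ e, d = e + 1 := ⟨d - 1, by omega⟩
  have hS := caseS A l n L hl hL hn e hdn
  by_cases hev : Even e
  · have hsub : ClF A l n (Finset.range (e+1)) ⊆ ClS A l n e := by
      intro p hp
      rw [ClS, Finset.mem_filter]
      exact ⟨hp, Or.inl hev⟩
    have h1 := Finset.card_le_card hsub
    have h2 := Nat.mul_le_mul_right (frames K E (e+1)) h1
    rw [show e + 1 - 1 = e by omega]
    omega
  · obtain ⟨f, rfl⟩ : ∃ f, e = f + 1 := by
      rcases Nat.eq_zero_or_pos e with h | h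
      · rw [h] at hev; simp at hev
      · exact ⟨e - 1, by omega⟩
    have hf : Even f := by
      rw [Nat.even_add_one, not_not] at hev; exact hev
    have hP := caseP A l n L hl hL hLL hn f hf hdn hne
    have hsub : ClF A l n (Finset.range (f+1+1)) ⊆ ClS A l n (f+1) ∪ ClP A l n (f+1) := by
      intro p hp
      rw [Finset.mem_union, ClS, ClP, Finset.mem_filter, Finset.mem_filter]
      by_cases h : cf K (pth A l p) (f+1+1) (f+1+1) 0 = 0
      · exact Or.inl ⟨hp, Or.inr h⟩
      · exact Or.inr ⟨hp, h⟩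
    have h1 := le_trans (Finset.card_le_card hsub) (Finset.card_union_le _ _)
    have h2 := Nat.mul_le_mul_right (frames K E (f+1+1)) h1
    rw [Nat.add_mul] at h2
    rw [show f + 1 + 1 - 1 = f + 1 by omega]
    have h3 : f + 1 + 1 = f + 2 := rfl
    rw [h3] at h2 hS ⊢
    omega

lemma exists_ab (F : Finset ℕ) (d : ℕ) (hF : F.card = d) (h0 : 0 ∈ F) (hne : F ≠ Finset.range d) :
    ∃ a b, a ∈ F ∧ b ∈ F ∧ a < b ∧ a + 1 ∉ F ∧ b + 1 ∉ F := by
  classical
  have hex : ∃ i, i ∉ F := by
    by_contra hcon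
    push Not at hcon
    have h1 : Finset.range (F.card + 1) ⊆ F := fun i _ => hcon i
    have h2 := Finset.card_le_card h1
    rw [Finset.card_range] at h2
    omega
  set m := Nat.find hex with hm
  have hm1 : m ∉ F := Nat.find_spec hex
  have hm2 : ∀ i < m, i ∈ F := by
    intro i hi
    by_contra h
    exact Nat.find_min hex hi h
  have hm0 : m ≠ 0 := by
    intro h; rw [h] at hm1; exact hm1 h0
  have hFne : F.Nonempty := ⟨0, h0⟩
  set b := F.max' hFne with hb
  have hbF : b ∈ F := Finset.max'_mem F hFne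
  have hbmax : ∀ i ∈ F, i ≤ b := fun i hi => Finset.le_max' F i hi
  have hmb : m < b := by
    by_contra hcon
    push Not at hcon
    apply hne
    have hFr : F = Finset.range m := by
      ext i
      rw [Finset.mem_range]
      constructor
      · intro hi
        have h1 := hbmax i hi
        have h2 : i ≠ m := fun h => hm1 (h ▸ hi)
        omega
      · exact hm2 i
    have h3 : m = d := by
      rw [← hF, hFr, Finset.card_range]
    rw [← h3]; exact hFr
  refine ⟨m - 1, b, hm2 _ (by omega), hbF, by omega, ?_, ?_⟩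
  · rw [show m - 1 + 1 = m by omega]; exact hm1
  · intro h
    have := hbmax _ h
    omega

lemma ClF_empty (hn0 : 0 < n) (F : Finset ℕ) (h0 : 0 ∉ F) : ClF A l n F = ∅ := by
  rw [Finset.eq_empty_iff_forall_notMem]
  intro p hp
  have h := ClF_span A l n F p hp 0 hn0 h0
  rw [sp_zero, Submodule.mem_bot, pth_zero] at h
  rw [mem_ClF] at hp
  exact hp.1.1 h

lemma ClF_le (hl : ∀ j, l j ≠ 0) (hL : ∀ j, |l j| ≤ L) (hLL : ∀ i j, |l i + l j| ≤ L)
    (hn : Even n) (d : ℕ) (hd : 0 < d) (hdn : d < n) (hne : l 0 ≠ l d) (F : Finset ℕ)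
    (hF : F ⊆ Finset.range n) (hFd : F.card = d) :
    (ClF A l n F).card * frames K E d ≤
      2 * ((Fintype.card E ^ (d - 1) * Fintype.card K ^ (2 * n) * (relSet A L).card ^ 2) *
        Fintype.card (E ≃ₗ[K] E)) := by
  by_cases h0 : 0 ∈ F
  · by_cases hr : F = Finset.range d
    · rw [hr]
      exact ClF_range_le A l n L hl hL hLL hn d hd hdn hne
    · obtain ⟨a, b, ha, hb, hab, ha1, hb1⟩ := exists_ab F d hFd h0 hr
      have hbn : b < n := Finset.mem_range.mp (hF hb)
      have := caseN A l n L hl hL F a b ha hb hab ha1 hb1 hbn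
      rw [hFd] at this
      omega
  · rw [ClF_empty A l n (by omega) F h0]
    simp

lemma ClD_le (hl : ∀ j, l j ≠ 0) (hL : ∀ j, |l j| ≤ L) (hLL : ∀ i j, |l i + l j| ≤ L)
    (hn : Even n) (d : ℕ) (hd : 0 < d) (hdn : d < n) (hne : l 0 ≠ l d) :
    (ClD A l n d).card * frames K E d ≤
      2 ^ n * (2 * ((Fintype.card E ^ (d - 1) * Fintype.card K ^ (2 * n) *
        (relSet A L).card ^ 2) * Fintype.card (E ≃ₗ[K] E))) := by
  classical
  have hsub : ClD A l n d ⊆
      ((Finset.range n).powerset.filter fun F => F.card = d).biUnion (fun F => ClF A l n F) := by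
    intro p hp
    rw [mem_ClD] at hp
    rw [Finset.mem_biUnion]
    refine ⟨pat K (pth A l p) n, ?_, ?_⟩
    · rw [Finset.mem_filter, Finset.mem_powerset]
      refine ⟨?_, ?_⟩
      · intro i hi
        rw [mem_pat] at hi
        rw [Finset.mem_range]; exact hi.1
      · rw [← pat_card, hp.2]
    · rw [mem_ClF]; exact ⟨hp.1, rfl⟩
  have h1 := le_trans (Finset.card_le_card hsub) Finset.card_biUnion_le
  refine le_trans (Nat.mul_le_mul_right _ h1) ?_
  rw [Finset.sum_mul]
  refine le_trans (Finset.sum_le_card_nsmul _ _ (2 * ((Fintype.card E ^ (d - 1) *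
    Fintype.card K ^ (2 * n) * (relSet A L).card ^ 2) * Fintype.card (E ≃ₗ[K] E))) ?_) ?_
  · intro F hF
    rw [Finset.mem_filter, Finset.mem_powerset] at hF
    exact ClF_le A l n L hl hL hLL hn d hd hdn hne F hF.1 hF.2
  · rw [smul_eq_mul]
    apply Nat.mul_le_mul_right
    refine le_trans (Finset.card_filter_le _ _) ?_
    rw [Finset.card_powerset, Finset.card_range]

/-- path of the rotated pair -/
lemma pth_rot (p : (E ≃ₗ[K] E) × E) (j : ℕ) :
    pth A (fun j => l (j+1)) (p.1⁻¹, p.1 (pth A l p 1)) j = p.1 (pth A l p (j+1)) := by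
  induction j with
  | zero => rfl
  | succ j ih =>
    by_cases hev : Even j
    · have h1 := pth_even A (fun j => l (j+1)) (p.1⁻¹, p.1 (pth A l p 1)) j hev
      rw [ih] at h1
      simp only at h1
      have h2 : p.1⁻¹ (p.1 (pth A l p (j+1))) = pth A l p (j+1) := by
        rw [← LinearEquiv.mul_apply, inv_mul_cancel]; rfl
      have hodd : ¬ Even (j + 1) := by rw [Nat.even_add_one, not_not]; exact hev
      rw [h2, ← pth_odd A l p (j+1) hodd] at h1
      rw [← h1, ← LinearEquiv.mul_apply, mul_inv_cancel]; rfl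
    · have h1 := pth_odd A (fun j => l (j+1)) (p.1⁻¹, p.1 (pth A l p 1)) j hev
      have hev' : Even (j + 1) := by rw [Nat.even_add_one]; exact hev
      rw [h1, ih, pth_even A l p (j+1) hev']

lemma ClD_rot (hn : Even n) (hn0 : 0 < n) (hper : ∀ j, l (j + n) = l j) (d : ℕ) :
    (ClD A l n d).card ≤ (ClD A (fun j => l (j+1)) n d).card := by
  classical
  refine Finset.card_le_card_of_injOn (fun p => (p.1⁻¹, p.1 (pth A l p 1))) ?_ ?_
  · intro p hp
    rw [Finset.mem_coe, mem_ClD] at hp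
    rw [Finset.mem_coe, mem_ClD]
    obtain ⟨⟨h1, h2⟩, h3⟩ := hp
    have h4 : pth A l p (n + 1) = pth A l p 1 := by
      rw [pth, pth, h2, pth_zero]
      have e1 : stp A p.1 l n = stp A p.1 l 0 := by
        unfold stp
        have := hper 0
        rw [zero_add] at this
        rw [if_pos hn, if_pos (by simp), this]
      rw [e1]
    refine ⟨⟨?_, ?_⟩, ?_⟩
    · show p.1 (pth A l p 1) ≠ 0
      rw [pth_even A l p 0 (by simp), pth_zero]
      simpa using h1
    · rw [pth_rot]
      show p.1 (pth A l p (n+1)) = p.1 (pth A l p 1)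
      rw [h4]
    · have e1 : sp K (pth A (fun j => l (j+1)) (p.1⁻¹, p.1 (pth A l p 1))) n =
          (sp K (pth A l p) n).map (p.1 : E →ₗ[K] E) := by
        unfold sp
        rw [Submodule.map_span]
        congr 1
        ext x
        simp only [Set.mem_image, Finset.mem_coe, Finset.mem_range]
        constructor
        · rintro ⟨j, hj, rfl⟩
          rw [pth_rot]
          rcases Nat.lt_or_ge (j+1) n with h | h
          · exact ⟨pth A l p (j+1), ⟨j+1, h, rfl⟩, rfl⟩
          · have : j + 1 = n := by omega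
            refine ⟨pth A l p 0, ⟨0, hn0, rfl⟩, ?_⟩
            rw [this, h2]; rfl
        · rintro ⟨y, ⟨j, hj, rfl⟩, rfl⟩
          rcases Nat.eq_zero_or_pos j with h | h
          · refine ⟨n - 1, by omega, ?_⟩
            rw [pth_rot, show n - 1 + 1 = n by omega, h2, h]; rfl
          · refine ⟨j - 1, by omega, ?_⟩
            rw [pth_rot, show j - 1 + 1 = j by omega]; rfl
      rw [e1, ← h3]
      exact LinearEquiv.finrank_map_eq p.1 _
  · intro p hp p' hp' h
    simp only [Prod.mk.injEq, inv_inj] at h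
    obtain ⟨h1, h2⟩ := h
    rw [pth_even A l p 0 (by simp), pth_even A l p' 0 (by simp), pth_zero, pth_zero, h1] at h2
    exact Prod.ext h1 (p'.1.injective ((A ^ l 0).injective h2))

lemma ClD_rot_iter (hn : Even n) (hn0 : 0 < n) (hper : ∀ j, l (j + n) = l j) (d t : ℕ) :
    (ClD A l n d).card ≤ (ClD A (fun j => l (j+t)) n d).card := by
  induction t with
  | zero => exact le_refl _
  | succ t ih =>
    refine le_trans ih ?_
    have h := ClD_rot A (fun j => l (j+t)) n hn hn0 (by
      intro j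
      show l (j + n + t) = l (j + t)
      rw [show j + n + t = (j + t) + n by omega, hper]) d
    refine le_trans h (le_of_eq ?_)
    congr 2
    funext j
    congr 1
    omega

lemma ClD_le' (hl : ∀ j, l j ≠ 0) (hL : ∀ j, |l j| ≤ L) (hLL : ∀ i j, |l i + l j| ≤ L)
    (hn : Even n) (hper : ∀ j, l (j + n) = l j) (d : ℕ) (hd : 0 < d) (hdn : d < n) (t : ℕ)
    (hne : l t ≠ l (d + t)) :
    (ClD A l n d).card * frames K E d ≤
      2 ^ n * (2 * ((Fintype.card E ^ (d - 1) * Fintype.card K ^ (2 * n) *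
        (relSet A L).card ^ 2) * Fintype.card (E ≃ₗ[K] E))) := by
  refine le_trans (Nat.mul_le_mul_right _ (ClD_rot_iter A l n hn (by omega) hper d t)) ?_
  refine ClD_le A (fun j => l (j+t)) n L (fun j => hl _) (fun j => hL _) (fun i j => hLL _ _)
    hn d hd hdn ?_
  show l (0 + t) ≠ l (d + t)
  rw [zero_add]; exact hne

lemma ClD_real (hN : n < finrank K E) (hl : ∀ j, l j ≠ 0) (hL : ∀ j, |l j| ≤ L)
    (hLL : ∀ i j, |l i + l j| ≤ L)
    (hn : Even n) (hper : ∀ j, l (j + n) = l j) (d : ℕ) (hd : 0 < d) (hdn : d < n) (t : ℕ)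
    (hne : l t ≠ l (d + t)) :
    ((ClD A l n d).card : ℝ) ≤ (4 * 2 ^ n * (Fintype.card K : ℝ) ^ (2 * n) *
      ((relSet A L).card : ℝ) ^ 2 / (Fintype.card K : ℝ) ^ (finrank K E)) *
        Fintype.card (E ≃ₗ[K] E) := by
  have h1 := ClD_le' A l n L hl hL hLL hn hper d hd hdn t hne
  rw [Module.card_eq_pow_finrank (K := K) (V := E)] at h1
  have h2 : ((ClD A l n d).card : ℝ) * frames K E d ≤
      2 ^ n * (2 * ((((Fintype.card K : ℝ) ^ finrank K E) ^ (d - 1) * (Fintype.card K : ℝ) ^ (2 * n) *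
        ((relSet A L).card : ℝ) ^ 2) * Fintype.card (E ≃ₗ[K] E))) := by
    exact_mod_cast h1
  have h3 := frames_ge_half (K := K) (E := E) d (by omega)
  have hq : (0 : ℝ) < Fintype.card K := by exact_mod_cast Fintype.card_pos
  set Q : ℝ := (Fintype.card K : ℝ) ^ finrank K E with hQ
  have hQ0 : 0 < Q := by positivity
  obtain ⟨e, rfl⟩ : ∃ e, d = e + 1 := ⟨d - 1, by omega⟩
  rw [show e + 1 - 1 = e by omega] at h2
  have h4 : Q ^ (e + 1) * ((ClD A l n (e+1)).card : ℝ) ≤
      Q ^ (e + 1) * ((4 * 2 ^ n * (Fintype.card K : ℝ) ^ (2 * n) *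
      ((relSet A L).card : ℝ) ^ 2 / Q) * Fintype.card (E ≃ₗ[K] E)) := by
    calc Q ^ (e + 1) * ((ClD A l n (e+1)).card : ℝ)
        ≤ (2 * frames K E (e+1)) * ((ClD A l n (e+1)).card : ℝ) :=
          mul_le_mul_of_nonneg_right h3 (by positivity)
      _ = 2 * (((ClD A l n (e+1)).card : ℝ) * frames K E (e+1)) := by ring
      _ ≤ 2 * (2 ^ n * (2 * ((Q ^ e * (Fintype.card K : ℝ) ^ (2 * n) *
        ((relSet A L).card : ℝ) ^ 2) * Fintype.card (E ≃ₗ[K] E)))) := by linarith
      _ = _ := by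
        rw [pow_succ]
        field_simp
        ring
  exact le_of_mul_le_mul_left h4 (by positivity)

lemma two_pow_period (k : ℕ) (hper : ∀ j, l (j + 2 ^ (k+1)) = l j) (d : ℕ) (hd : 0 < d)
    (hdn : d < 2 ^ (k+1)) (h : ∀ t, l t = l (d + t)) : ∀ t, l t = l (t + 2 ^ k) := by
  obtain ⟨a, o, ho, rfl⟩ := Nat.exists_eq_two_pow_mul_odd (by omega : d ≠ 0)
  obtain ⟨o', ho'⟩ := ho
  have ha : a ≤ k := by
    by_contra hcon
    push Not at hcon
    have h1 : 2 ^ (k+1) ≤ 2 ^ a := Nat.pow_le_pow_right (by norm_num) hcon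
    have h2 : 2 ^ a ≤ 2 ^ a * o := Nat.le_mul_of_pos_right _ (by omega)
    omega
  have hmul : ∀ s t, l t = l (t + s * (2 ^ a * o)) := by
    intro s
    induction s with
    | zero => intro t; simp
    | succ s ih =>
      intro t
      rw [ih t, h (t + s * (2 ^ a * o))]
      congr 1
      ring
  have hmul2 : ∀ s t, l t = l (t + s * 2 ^ (k+1)) := by
    intro s
    induction s with
    | zero => intro t; simp
    | succ s ih =>
      intro t
      rw [ih t, ← hper (t + s * 2 ^ (k+1))]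
      congr 1
      ring
  intro t
  have h1 := hmul (2 ^ (k - a)) t
  have h2 := hmul2 o' (t + 2 ^ k)
  have h3 : t + 2 ^ (k - a) * (2 ^ a * o) = t + 2 ^ k + o' * 2 ^ (k+1) := by
    rw [← mul_assoc, ← pow_add, show k - a + a = k by omega, ho']
    ring
  rw [h1, h3, ← h2]

theorem Cl_bound (k : ℕ) (hN : 2 ^ (k+1) < finrank K E) (hl : ∀ j, l j ≠ 0) (hL : ∀ j, |l j| ≤ L)
    (hLL : ∀ i j, |l i + l j| ≤ L) (hper : ∀ j, l (j + 2 ^ (k+1)) = l j)
    (hnp : ∃ t, l t ≠ l (t + 2 ^ k)) :
    ((Cl A l (2 ^ (k+1))).card : ℝ) ≤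
      (1 + 2 * ((Fintype.card K : ℝ) ^ (2 ^ (k+1)) / (Fintype.card K : ℝ) ^ (finrank K E)) +
        2 ^ (k+1) * (4 * 2 ^ (2 ^ (k+1)) * (Fintype.card K : ℝ) ^ (2 * 2 ^ (k+1)) *
      ((relSet A L).card : ℝ) ^ 2 / (Fintype.card K : ℝ) ^ (finrank K E))) *
        Fintype.card (E ≃ₗ[K] E) := by
  classical
  set n := 2 ^ (k+1) with hn
  have hn0 : 0 < n := by rw [hn]; positivity
  have hev : Even n := by rw [hn, pow_succ]; exact even_two.mul_left _
  have hsub : Cl A l n ⊆ ClF A l n (Finset.range n) ∪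
      (Finset.Ico 1 n).biUnion (fun d => ClD A l n d) := by
    intro p hp
    rw [mem_Cl] at hp
    have h1 : finrank K (sp K (pth A l p) n) = (pat K (pth A l p) n).card := pat_card _ _
    have h2 : pat K (pth A l p) n ⊆ Finset.range n := by
      intro i hi
      rw [mem_pat] at hi
      rw [Finset.mem_range]; exact hi.1
    have h3 := Finset.card_le_card h2
    rw [Finset.card_range] at h3
    have h4 : 0 ∈ pat K (pth A l p) n := by
      rw [mem_pat, sp_zero, Submodule.mem_bot, pth_zero]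
      exact ⟨hn0, hp.1⟩
    have h5 : 0 < (pat K (pth A l p) n).card := Finset.card_pos.mpr ⟨0, h4⟩
    rw [Finset.mem_union]
    rcases Nat.lt_or_ge (pat K (pth A l p) n).card n with h | h
    · right
      rw [Finset.mem_biUnion]
      refine ⟨(pat K (pth A l p) n).card, ?_, ?_⟩
      · rw [Finset.mem_Ico]; omega
      · rw [mem_ClD]; exact ⟨hp, h1⟩
    · left
      rw [mem_ClF]
      refine ⟨hp, ?_⟩
      exact Finset.eq_of_subset_of_card_le h2 (by rw [Finset.card_range]; exact h)
  have h1 := le_trans (Finset.card_le_card hsub) (Finset.card_union_le _ _)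
  have h2 : ((Finset.Ico 1 n).biUnion (fun d => ClD A l n d)).card ≤
      ∑ d ∈ Finset.Ico 1 n, (ClD A l n d).card := Finset.card_biUnion_le
  have h3 : ((Cl A l n).card : ℝ) ≤ (ClF A l n (Finset.range n)).card +
      ∑ d ∈ Finset.Ico 1 n, ((ClD A l n d).card : ℝ) := by
    have : (Cl A l n).card ≤ (ClF A l n (Finset.range n)).card +
      ∑ d ∈ Finset.Ico 1 n, (ClD A l n d).card := by omega
    exact_mod_cast this
  have hq1 : (1 : ℝ) < Fintype.card K := by exact_mod_cast Fintype.one_lt_card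
  have hq2 : (2 : ℝ) ≤ Fintype.card K := by exact_mod_cast Fintype.one_lt_card
  set Q : ℝ := (Fintype.card K : ℝ) ^ finrank K E with hQ
  have hQ0 : 0 < Q := by positivity
  set D : ℝ := 4 * 2 ^ n * (Fintype.card K : ℝ) ^ (2 * n) * ((relSet A L).card : ℝ) ^ 2 / Q with hD
  have hD0 : 0 ≤ D := by positivity
  set G : ℝ := (Fintype.card (E ≃ₗ[K] E) : ℝ) with hG
  have hG0 : 0 ≤ G := by positivity
  have h4 : ∑ d ∈ Finset.Ico 1 n, ((ClD A l n d).card : ℝ) ≤ n * (D * G) := by
    have h5 : ∀ d ∈ Finset.Ico 1 n, ((ClD A l n d).card : ℝ) ≤ D * G := by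
      intro d hd
      rw [Finset.mem_Ico] at hd
      have hex : ∃ t, l t ≠ l (d + t) := by
        by_contra hcon
        push Not at hcon
        obtain ⟨t, ht⟩ := hnp
        exact ht (two_pow_period l k hper d (by omega) (by omega) hcon t)
      obtain ⟨t, ht⟩ := hex
      exact ClD_real A l n L hN hl hL hLL hev hper d (by omega) (by omega) t ht
    refine le_trans (Finset.sum_le_card_nsmul _ _ _ h5) ?_
    rw [nsmul_eq_mul, Nat.card_Ico]
    apply mul_le_mul_of_nonneg_right _ (by positivity)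
    exact_mod_cast (by omega : n - 1 ≤ n)
  have h6 : ((ClF A l n (Finset.range n)).card : ℝ) ≤
      (1 + 2 * ((Fintype.card K : ℝ) ^ n / Q)) * G := by
    have h7 := caseFull A l n hev hn0
    rw [Module.card_eq_pow_finrank (K := K) (V := E)] at h7
    have h8 : ((ClF A l n (Finset.range n)).card : ℝ) * frames K E n ≤ Q ^ n * G := by
      rw [hQ, hG]
      exact_mod_cast h7
    have h9 := frames_ge (K := K) (E := E) n hN.le
    rw [← hQ] at h9
    set x : ℝ := (Fintype.card K : ℝ) ^ n / Q with hx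
    have hx0 : 0 ≤ x := by positivity
    have hx1 : x ≤ 1 / 2 := by
      rw [hx, div_le_div_iff₀ hQ0 (by norm_num), one_mul]
      calc (Fintype.card K : ℝ) ^ n * 2 ≤ (Fintype.card K : ℝ) ^ n * Fintype.card K := by
            apply mul_le_mul_of_nonneg_left hq2 (by positivity)
        _ = (Fintype.card K : ℝ) ^ (n + 1) := by rw [pow_succ]
        _ ≤ Q := by
            apply pow_le_pow_right₀ (by linarith) (by omega)
    set C : ℝ := ((ClF A l n (Finset.range n)).card : ℝ) with hC
    have hC0 : 0 ≤ C := by positivity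
    have hQn : 0 < Q ^ n := by positivity
    have h10 : Q ^ n * (C * (1 - x)) ≤ Q ^ n * G := by
      calc Q ^ n * (C * (1 - x)) = C * (Q ^ n * (1 - x)) := by ring
        _ ≤ C * frames K E n := mul_le_mul_of_nonneg_left h9 hC0
        _ ≤ Q ^ n * G := h8
    have h11 : C * (1 - x) ≤ G := le_of_mul_le_mul_left h10 hQn
    have h12 : 1 ≤ (1 - x) * (1 + 2 * x) := by nlinarith
    calc C = C * 1 := by ring
      _ ≤ C * ((1 - x) * (1 + 2 * x)) := mul_le_mul_of_nonneg_left h12 hC0
      _ = (C * (1 - x)) * (1 + 2 * x) := by ring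
      _ ≤ G * (1 + 2 * x) := mul_le_mul_of_nonneg_right h11 (by linarith)
      _ = (1 + 2 * x) * G := by ring
  have hnn : (n : ℝ) = 2 ^ (k+1) := by rw [hn]; push_cast; ring
  rw [← hnn]
  calc ((Cl A l n).card : ℝ) ≤ _ := h3
    _ ≤ (1 + 2 * ((Fintype.card K : ℝ) ^ n / Q)) * G + n * (D * G) := add_le_add h6 h4
    _ = _ := by ring

end Rot

end H45.Gap
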