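import Pool.Agent.H45.GapNear
import Pool.Agent.H45.GapRot

/-!
# Averaging the counting quantity over the second generator
-/

namespace H45.Gap

open Finset Module

set_option linter.unusedSectionVars false
set_option linter.unusedVariables false

section PermV

variable {K E : Type*} [Field K] [AddCommGroup E] [Module K E]

/-- permutation of the nonzero vectors induced by a linear automorphism -/
noncomputable def permV : (E ≃ₗ[K] E) →* Equiv.Perm {v : E // v ≠ 0} where
  toFun g := (g.toEquiv).subtypeEquiv (fun v => by simp)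
  map_one' := by ext v; rfl
  map_mul' g h := by ext v; rfl

lemma permV_coe (g : E ≃ₗ[K] E) (v : {v : E // v ≠ 0}) : ((permV g v : {v : E // v ≠ 0}) : E) = g v :=
  rfl

end PermV

section Seq

/-- integer labels attached to a cyclic sequence -/
def sN {n I : ℕ} [NeZero n] (s : Fin n → Fin I) (j : ℕ) : ℤ := ((s (Fin.ofNat n j) : ℕ) : ℤ)

/-- exponents attached to a cyclic sequence -/
def lam {n I : ℕ} [NeZero n] (s : Fin n → Fin I) (j : ℕ) : ℤ := 2 * (sN s (j+1) - sN s j)

variable {n I : ℕ} [NeZero n]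

lemma sN_per (s : Fin n → Fin I) (j : ℕ) : sN s (j + n) = sN s j := by
  unfold sN
  congr 3
  ext
  simp [Fin.ofNat]

lemma lam_per (s : Fin n → Fin I) (j : ℕ) : lam s (j + n) = lam s j := by
  unfold lam
  rw [show j + n + 1 = (j + 1) + n by omega, sN_per, sN_per]

lemma sN_nonneg (s : Fin n → Fin I) (j : ℕ) : 0 ≤ sN s j := by unfold sN; positivity

lemma sN_lt (s : Fin n → Fin I) (j : ℕ) : sN s j < I := by
  unfold sN
  exact_mod_cast (s (Fin.ofNat n j)).2

lemma lam_abs (s : Fin n → Fin I) (j : ℕ) : |lam s j| ≤ 2 * I := by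
  unfold lam
  have h1 := sN_nonneg s j
  have h2 := sN_nonneg s (j+1)
  have h3 := sN_lt s j
  have h4 := sN_lt s (j+1)
  rw [abs_le]; constructor <;> omega

lemma lam_abs4 (s : Fin n → Fin I) (j : ℕ) : |lam s j| ≤ ((4 * I : ℕ) : ℤ) := by
  have := lam_abs s j
  push_cast
  omega

lemma lam_abs_add (s : Fin n → Fin I) (i j : ℕ) : |lam s i + lam s j| ≤ ((4 * I : ℕ) : ℤ) := by
  have h1 := lam_abs s j
  have h2 := lam_abs s i
  have h3 := abs_add_le (lam s i) (lam s j)
  push_cast
  omega

lemma ofNat_succ (j : ℕ) : Fin.ofNat n (j+1) = Fin.ofNat n j + 1 := by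
  ext
  rw [Fin.val_add]
  simp [Fin.ofNat]

lemma sN_inj (s s' : Fin n → Fin I) (h : ∀ j < n, sN s j = sN s' j) : s = s' := by
  funext i
  have := h i i.2
  unfold sN at this
  have hi : Fin.ofNat n (i : ℕ) = i := by
    ext; simp [Fin.ofNat, Nat.mod_eq_of_lt i.2]
  rw [hi] at this
  ext
  exact_mod_cast this

open Classical in
/-- label sequences with half period -/
noncomputable def perSeq (n I m : ℕ) [NeZero n] : Finset (Fin n → Fin I) :=
  Finset.univ.filter fun s => ∀ t, lam s t = lam s (t + m)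

lemma mem_perSeq (m : ℕ) (s : Fin n → Fin I) :
    s ∈ perSeq n I m ↔ ∀ t, lam s t = lam s (t + m) := by
  simp [perSeq]

lemma card_perSeq (m : ℕ) (hm : 0 < m) : (perSeq n I m).card ≤ I ^ (m + 1) := by
  classical
  have h : (perSeq n I m).card ≤ (Finset.univ : Finset (Fin (m+1) → Fin I)).card := by
    refine Finset.card_le_card_of_injOn (fun s i => s (Fin.ofNat n (i : ℕ))) (by intro s _; simp) ?_
    intro s hs s' hs' hss
    rw [Finset.mem_coe, mem_perSeq] at hs hs'
    have h0 : ∀ j ≤ m, sN s j = sN s' j := by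
      intro j hj
      have := congrFun hss ⟨j, by omega⟩
      simp only at this
      unfold sN
      rw [this]
    have h1 : ∀ j, sN s j = sN s' j := by
      intro j
      induction j using Nat.strong_induction_on with
      | _ j ih =>
        rcases Nat.lt_or_ge m j with h | h
        · obtain ⟨i, rfl⟩ : ∃ i, j = i + 1 := ⟨j - 1, by omega⟩
          have e1 := hs (i - m)
          have e2 := hs' (i - m)
          rw [show i - m + m = i by omega] at e1 e2
          unfold lam at e1 e2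
          have e3 := ih i (by omega)
          have e4 := ih (i - m) (by omega)
          have e5 := ih (i - m + 1) (by omega)
          omega
        · exact h0 j h
    exact sN_inj s s' (fun j _ => h1 j)
  rw [Finset.card_univ, Fintype.card_fun, Fintype.card_fin, Fintype.card_fin] at h
  exact h

end Seq

section Avg

variable {K E : Type*} [Field K] [Fintype K] [AddCommGroup E] [Module K E] [Fintype E]
  [DecidableEq E]

/-- closed vertex sequences follow the path -/
lemma vSeq_path (A B : E ≃ₗ[K] E) (I k : ℕ) (hk : Even (k+1)) (s : Fin (k+1) → Fin I)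
    (v : Fin (k+1) → {v : E // v ≠ 0})
    (hv : v ∈ vSeq (fx (permV A) (permV B) I) (fy (permV A) I) k s) (j : ℕ) :
    pth A (lam s) (B, (v 0 : E)) j = v (Fin.ofNat (k+1) j) := by
  rw [mem_vSeq] at hv
  induction j with
  | zero => rw [pth_zero]; rfl
  | succ j ih =>
    have hpar : Even ((Fin.ofNat (k+1) j : Fin (k+1)) : ℕ) ↔ Even j := by
      have h1 : ((Fin.ofNat (k+1) j : Fin (k+1)) : ℕ) = j % (k+1) := rfl
      rw [h1]
      obtain ⟨c, hc⟩ := hk
      have h2 := Nat.div_add_mod j (k+1)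
      have h3 : j % (k+1) % 2 = j % 2 := by
        apply Nat.mod_mod_of_dvd
        exact ⟨c, by omega⟩
      rw [Nat.even_iff, Nat.even_iff, h3]
    have h := hv (Fin.ofNat (k+1) j)
    rw [← ofNat_succ] at h
    have key : ∀ (X Y : Equiv.Perm {v : E // v ≠ 0}) (a b : {v : E // v ≠ 0}),
        X.symm a = Y.symm b → b = (Y * X⁻¹) a := by
      intro X Y a b hab
      rw [Equiv.Perm.mul_apply]
      have : X⁻¹ a = X.symm a := rfl
      rw [this, hab]; simp
    by_cases hev : Even j
    · rw [if_pos (hpar.mpr hev)] at h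
      have h2 := congrArg Subtype.val (key _ _ _ _ h)
      have e1 := pth_even A (lam s) (B, (v 0 : E)) j hev
      simp only at e1
      rw [ih] at e1
      have e2 : fx (permV A) (permV B) I (s (Fin.ofNat (k+1) (j+1))) *
          (fx (permV A) (permV B) I (s (Fin.ofNat (k+1) j)))⁻¹ =
          permV (B⁻¹ * (A ^ (lam s j) * B)) := by
        unfold fx
        rw [← map_pow, ← map_pow, ← map_inv, ← map_mul, ← map_mul, ← map_inv, ← map_mul]
        congr 1
        have e3 : A ^ (lam s j) = A ^ (2 * ((s (Fin.ofNat (k+1) (j+1)) : ℕ))) *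
            (A ^ (2 * ((s (Fin.ofNat (k+1) j) : ℕ))))⁻¹ := by
          rw [← zpow_natCast, ← zpow_natCast, ← zpow_neg, ← zpow_add]
          congr 1
          unfold lam sN
          push_cast
          ring
        rw [e3]
        group
      rw [e2, permV_coe] at h2
      apply B.injective
      rw [e1, h2, LinearEquiv.mul_apply, LinearEquiv.mul_apply, ← LinearEquiv.mul_apply B B⁻¹,
        mul_inv_cancel]
      rfl
    · rw [if_neg (fun h => hev (hpar.mp h))] at h
      have h2 := congrArg Subtype.val (key _ _ _ _ h)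
      have e1 := pth_odd A (lam s) (B, (v 0 : E)) j hev
      rw [ih] at e1
      have e2 : fy (permV A) I (s (Fin.ofNat (k+1) (j+1))) *
          (fy (permV A) I (s (Fin.ofNat (k+1) j)))⁻¹ = permV (A ^ (lam s j)) := by
        unfold fy
        rw [← map_pow, ← map_pow, ← map_inv, ← map_mul]
        congr 1
        have e3 : A ^ (lam s j) = A ^ (2 * ((s (Fin.ofNat (k+1) (j+1)) : ℕ))) *
            (A ^ (2 * ((s (Fin.ofNat (k+1) j) : ℕ))))⁻¹ := by
          rw [← zpow_natCast, ← zpow_natCast, ← zpow_neg, ← zpow_add]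
          congr 1
          unfold lam sN
          push_cast
          ring
        rw [e3]
      rw [e2, permV_coe] at h2
      rw [e1, h2]

lemma sum_vSeq_le (A : E ≃ₗ[K] E) (I k : ℕ) (hk : Even (k+1)) (s : Fin (k+1) → Fin I) :
    ∑ B : E ≃ₗ[K] E, (vSeq (fx (permV A) (permV B) I) (fy (permV A) I) k s).card ≤
      (Cl A (lam s) (k+1)).card := by
  classical
  rw [← Finset.card_sigma]
  refine Finset.card_le_card_of_injOn (fun p => (p.1, ((p.2 0 : {v : E // v ≠ 0}) : E))) ?_ ?_
  · intro p hp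
    rw [Finset.mem_coe, Finset.mem_sigma] at hp
    rw [Finset.mem_coe, mem_Cl]
    refine ⟨(p.2 0).2, ?_⟩
    rw [vSeq_path A p.1 I k hk s p.2 hp.2 (k+1)]
    have : Fin.ofNat (k+1) (k+1) = 0 := by ext; simp [Fin.ofNat]
    rw [this]
  · intro p hp p' hp' h
    rw [Finset.mem_coe, Finset.mem_sigma] at hp hp'
    cases p with
    | mk B v =>
      cases p' with
      | mk B' v' =>
        simp only [Prod.mk.injEq] at h
        obtain ⟨h1, h2⟩ := h
        subst h1
        have h3 : v = v' := by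
          funext i
          have e1 := vSeq_path A B I k hk s v hp.2 i
          have e2 := vSeq_path A B I k hk s v' hp'.2 i
          rw [h2] at e1
          rw [e1] at e2
          have hi : Fin.ofNat (k+1) (i : ℕ) = i := by
            ext; simp [Fin.ofNat, Nat.mod_eq_of_lt i.2]
          rw [hi] at e2
          exact Subtype.ext e2
        rw [h3]

lemma vSeq_card_le (A B : E ≃ₗ[K] E) (I k : ℕ) (hk : Even (k+1)) (s : Fin (k+1) → Fin I) :
    (vSeq (fx (permV A) (permV B) I) (fy (permV A) I) k s).card ≤ Fintype.card E := by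
  classical
  rw [← Finset.card_univ]
  refine Finset.card_le_card_of_injOn (fun v => ((v 0 : {v : E // v ≠ 0}) : E)) (by intro v _; simp) ?_
  intro v hv v' hv' h
  simp only at h
  funext i
  have e1 := vSeq_path A B I k hk s v hv i
  have e2 := vSeq_path A B I k hk s v' hv' i
  rw [h] at e1
  rw [e1] at e2
  have hi : Fin.ofNat (k+1) (i : ℕ) = i := by
    ext; simp [Fin.ofNat, Nat.mod_eq_of_lt i.2]
  rw [hi] at e2
  exact Subtype.ext e2

/-- the error term -/
noncomputable def zeta (q N I k κ : ℕ) : ℝ :=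
  2 * ((q : ℝ) ^ (2 ^ (k+2)) / (q : ℝ) ^ N) +
    2 ^ (k+2) * (4 * 2 ^ (2 ^ (k+2)) * (q : ℝ) ^ (2 * 2 ^ (k+2)) * (κ : ℝ) ^ 2 / (q : ℝ) ^ N) +
    (I + 2) * ((I : ℝ)⁻¹) ^ (2 ^ (k+1)) * (q : ℝ) ^ N

theorem avg_qty (A : E ≃ₗ[K] E) (I k : ℕ) (hI : 2 ≤ I) (hN : 2 ^ (k+2) < finrank K E) :
    ∑ B : E ≃ₗ[K] E, qty (fx (permV A) (permV B) I) (fy (permV A) I) (2 ^ (k+1) - 1) ≤
      zeta (Fintype.card K) (finrank K E) I k (relSet A (4 * I)).card *
        Fintype.card (E ≃ₗ[K] E) := by
  classical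
  set M := 2 ^ (k+1) with hM
  have hM0 : 0 < M := by rw [hM]; positivity
  have hn : 2 * (M - 1) + 1 + 1 = 2 ^ (k+2) := by
    rw [show 2 * (M - 1) + 1 + 1 = M * 2 by omega, hM, ← pow_succ]
  have hev : Even (2 * (M - 1) + 1 + 1) := by
    rw [hn, pow_succ]; exact even_two.mul_left _
  set G : ℝ := (Fintype.card (E ≃ₗ[K] E) : ℝ) with hG
  have hG0 : 0 ≤ G := by positivity
  set Q : ℝ := (Fintype.card K : ℝ) ^ finrank K E with hQ
  have hq0 : (0 : ℝ) < Fintype.card K := by exact_mod_cast Fintype.card_pos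
  have hQ0 : 0 < Q := by positivity
  have hEQ : (Fintype.card E : ℝ) = Q := by
    rw [Module.card_eq_pow_finrank (K := K) (V := E)]
    push_cast; rfl
  set c : ℝ := (I : ℝ)⁻¹ with hc
  have hI0 : (0 : ℝ) < I := by exact_mod_cast (by omega : 0 < I)
  have hc0 : 0 < c := by positivity
  have hc1 : c ≤ 1 := by
    rw [hc]
    apply inv_le_one_of_one_le₀
    exact_mod_cast (by omega : 1 ≤ I)
  have hcI : c * I = 1 := inv_mul_cancel₀ (ne_of_gt hI0)
  set x : ℝ := (Fintype.card K : ℝ) ^ (2 ^ (k+2)) / Q with hx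
  set D : ℝ := 4 * 2 ^ (2 ^ (k+2)) * (Fintype.card K : ℝ) ^ (2 * 2 ^ (k+2)) *
      ((relSet A (4 * I)).card : ℝ) ^ 2 / Q with hD
  have hx0 : 0 ≤ x := by positivity
  have hD0 : 0 ≤ D := by positivity
  -- bound for each label sequence
  have hs1 : ∀ s ∈ goodSeq (Fin I) (2 * (M - 1) + 1), s ∉ perSeq _ I M →
      ∑ B : E ≃ₗ[K] E, (((vSeq (fx (permV A) (permV B) I) (fy (permV A) I) (2 * (M-1) + 1) s).card : ℝ)
        - 1) ≤ (2 * x + 2 ^ (k+2) * D) * G := by
    intro s hs hper
    rw [mem_goodSeq] at hs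
    have h1 : ∑ B : E ≃ₗ[K] E,
        (vSeq (fx (permV A) (permV B) I) (fy (permV A) I) (2 * (M - 1) + 1) s).card ≤
        (Cl A (lam s) (2 ^ (k+2))).card := by
      refine le_trans (sum_vSeq_le A I _ hev s) (le_of_eq ?_)
      rw [← hn]
    have hl : ∀ j, lam s j ≠ 0 := by
      intro j hj
      apply hs (Fin.ofNat _ j)
      rw [← ofNat_succ]
      unfold lam sN at hj
      ext
      omega
    have hnp : ∃ t, lam s t ≠ lam s (t + 2 ^ (k+1)) := by
      rw [mem_perSeq] at hper
      push Not at hper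
      exact hper
    have hpr : ∀ j, lam s (j + 2 ^ (k+1+1)) = lam s j := by
      intro j
      have := lam_per s j
      have e : j + 2 ^ (k+1+1) = j + (2 * (M - 1) + 1 + 1) := by rw [hn]
      rw [e]
      exact this
    have h2 := Cl_bound A (lam s) (4 * I) (k+1) hN hl (lam_abs4 s) (lam_abs_add s) hpr hnp
    rw [show k + 1 + 1 = k + 2 by ring] at h2
    rw [Finset.sum_sub_distrib, Finset.sum_const, Finset.card_univ, nsmul_eq_mul, mul_one]
    have h3 : ∑ B : E ≃ₗ[K] E, ((vSeq (fx (permV A) (permV B) I) (fy (permV A) I)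
        (2 * (M-1) + 1) s).card : ℝ) ≤ ((Cl A (lam s) (2 ^ (k+2))).card : ℝ) := by
      exact_mod_cast h1
    have h4 : (1 + 2 * x + 2 ^ (k+2) * D) * G = (2 * x + 2 ^ (k+2) * D) * G + G := by ring
    have h5 : ((Cl A (lam s) (2 ^ (k+2))).card : ℝ) ≤ (1 + 2 * x + 2 ^ (k+2) * D) * G := h2
    linarith
  have hs2 : ∀ s ∈ goodSeq (Fin I) (2 * (M - 1) + 1),
      ∑ B : E ≃ₗ[K] E, (((vSeq (fx (permV A) (permV B) I) (fy (permV A) I) (2 * (M-1) + 1) s).card : ℝ)
        - 1) ≤ Q * G := by
    intro s hs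
    have h1 : ∀ B ∈ (Finset.univ : Finset (E ≃ₗ[K] E)),
        (((vSeq (fx (permV A) (permV B) I) (fy (permV A) I) (2 * (M-1) + 1) s).card : ℝ)
        - 1) ≤ Q := by
      intro B _
      have h2 := vSeq_card_le A B I _ hev s
      have h3 : ((vSeq (fx (permV A) (permV B) I) (fy (permV A) I) (2 * (M-1) + 1) s).card : ℝ) ≤
          Fintype.card E := by exact_mod_cast h2
      rw [hEQ] at h3
      linarith
    refine le_trans (Finset.sum_le_card_nsmul _ _ _ h1) ?_
    rw [Finset.card_univ, nsmul_eq_mul, mul_comm]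
  -- sum over label sequences
  have hS : ∑ s ∈ goodSeq (Fin I) (2 * (M - 1) + 1), ∑ B : E ≃ₗ[K] E,
      (((vSeq (fx (permV A) (permV B) I) (fy (permV A) I) (2 * (M-1) + 1) s).card : ℝ) - 1) ≤
      (I : ℝ) ^ (2 * M) * ((2 * x + 2 ^ (k+2) * D) * G) + (I : ℝ) ^ (M + 1) * (Q * G) := by
    rw [← Finset.sum_filter_add_sum_filter_not (goodSeq (Fin I) (2 * (M - 1) + 1))
      (fun s => s ∉ perSeq _ I M)]
    apply add_le_add
    · refine le_trans (Finset.sum_le_card_nsmul _ _ ((2 * x + 2 ^ (k+2) * D) * G) ?_) ?_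
      · intro s hs
        rw [Finset.mem_filter] at hs
        exact hs1 s hs.1 hs.2
      · rw [nsmul_eq_mul]
        apply mul_le_mul_of_nonneg_right _ (by positivity)
        have h1 : ((goodSeq (Fin I) (2 * (M - 1) + 1)).filter
            (fun s => s ∉ perSeq _ I M)).card ≤ I ^ (2 * M) := by
          refine le_trans (Finset.card_le_univ _) ?_
          rw [Fintype.card_fun, Fintype.card_fin, Fintype.card_fin]
          apply le_of_eq
          congr 1; omega
        exact_mod_cast h1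
    · refine le_trans (Finset.sum_le_card_nsmul _ _ (Q * G) ?_) ?_
      · intro s hs
        rw [Finset.mem_filter] at hs
        exact hs2 s hs.1
      · rw [nsmul_eq_mul]
        apply mul_le_mul_of_nonneg_right _ (by positivity)
        have h1 : ((goodSeq (Fin I) (2 * (M - 1) + 1)).filter
            (fun s => ¬ s ∉ perSeq _ I M)).card ≤ I ^ (M + 1) := by
          refine le_trans (Finset.card_le_card ?_) (card_perSeq (n := 2 * (M-1) + 1 + 1) M hM0)
          intro s hs
          rw [Finset.mem_filter, not_not] at hs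
          exact hs.2
        exact_mod_cast h1
  -- assemble
  have e0 : ∀ B : E ≃ₗ[K] E, qty (fx (permV A) (permV B) I) (fy (permV A) I) (M - 1) =
      c ^ (2 * M) * (∑ s ∈ goodSeq (Fin I) (2 * (M - 1) + 1),
        (((vSeq (fx (permV A) (permV B) I) (fy (permV A) I) (2 * (M-1) + 1) s).card : ℝ) - 1))
      + 2 * (c * (1 - c)) ^ M * Fintype.card {v : E // v ≠ 0} := by
    intro B
    unfold qty
    rw [Fintype.card_fin, show M - 1 + 1 = M by omega]
  simp only [e0]
  rw [Finset.sum_add_distrib, ← Finset.mul_sum, Finset.sum_comm, Finset.sum_const,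
    Finset.card_univ, nsmul_eq_mul]
  have hV : (Fintype.card {v : E // v ≠ 0} : ℝ) ≤ Q := by
    rw [← hEQ]
    exact_mod_cast Fintype.card_subtype_le _
  have h1 : c ^ (2 * M) * ∑ s ∈ goodSeq (Fin I) (2 * (M - 1) + 1), ∑ B : E ≃ₗ[K] E,
      (((vSeq (fx (permV A) (permV B) I) (fy (permV A) I) (2 * (M-1) + 1) s).card : ℝ) - 1) ≤
      (2 * x + 2 ^ (k+2) * D) * G + I * c ^ M * Q * G := by
    refine le_trans (mul_le_mul_of_nonneg_left hS (by positivity)) (le_of_eq ?_)
    have e1 : c ^ (2 * M) * (I : ℝ) ^ (2 * M) = 1 := by rw [← mul_pow, hcI, one_pow]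
    have e2 : c ^ (2 * M) * (I : ℝ) ^ (M + 1) = I * c ^ M := by
      have : c ^ (2 * M) * (I : ℝ) ^ (M + 1) = c ^ M * (c * I) ^ M * I := by
        rw [mul_pow, pow_succ, two_mul, pow_add]; ring
      rw [this, hcI, one_pow]; ring
    calc c ^ (2 * M) * ((I : ℝ) ^ (2 * M) * ((2 * x + 2 ^ (k+2) * D) * G)
          + (I : ℝ) ^ (M + 1) * (Q * G))
        = (c ^ (2 * M) * (I : ℝ) ^ (2 * M)) * ((2 * x + 2 ^ (k+2) * D) * G)
          + (c ^ (2 * M) * (I : ℝ) ^ (M + 1)) * (Q * G) := by ring
      _ = _ := by rw [e1, e2]; ring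
  have h2 : G * (2 * (c * (1 - c)) ^ M * (Fintype.card {v : E // v ≠ 0} : ℝ)) ≤
      2 * c ^ M * Q * G := by
    have h3 : (c * (1 - c)) ^ M ≤ c ^ M := by
      apply pow_le_pow_left₀
      · apply mul_nonneg hc0.le; linarith
      · nlinarith
    have h4 : 0 ≤ (c * (1 - c)) ^ M := by
      apply pow_nonneg; apply mul_nonneg hc0.le; linarith
    have h5 : (c * (1 - c)) ^ M * (Fintype.card {v : E // v ≠ 0} : ℝ) ≤ c ^ M * Q :=
      mul_le_mul h3 hV (by positivity) (by positivity)
    nlinarith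
  have h6 : zeta (Fintype.card K) (finrank K E) I k (relSet A (4 * I)).card * G =
      (2 * x + 2 ^ (k+2) * D) * G + I * c ^ M * Q * G + 2 * c ^ M * Q * G := by
    unfold zeta
    rw [← hM, ← hc, ← hQ]
    ring
  rw [h6]
  linarith

end Avg

end H45.Gap
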