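import Pool.Agent.H45.GapPath

/-!
# Counting closed pairs with a given pattern
-/

namespace H45.Gap

open Finset Module

set_option linter.unusedSectionVars false
set_option linter.unusedVariables false

section Coef

variable {K E : Type*} [Field K] [AddCommGroup E] [Module K E]

lemma exists_cf (u : ℕ → E) (m j : ℕ) : ∃ c : ℕ → K, u m ∈ sp K u j →
    ∑ i ∈ Finset.range j, c i • u i = u m := by
  by_cases h : u m ∈ sp K u j
  · obtain ⟨c, hc⟩ := (mem_sp _ _ _).mp h
    exact ⟨c, fun _ => hc⟩
  · exact ⟨0, fun h' => absurd h' h⟩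

/-- coefficients -/
noncomputable def cf (K : Type*) {E : Type*} [Field K] [AddCommGroup E] [Module K E]
    (u : ℕ → E) (m j : ℕ) : ℕ → K := (exists_cf u m j).choose

lemma cf_spec (u : ℕ → E) (m j : ℕ) (h : u m ∈ sp K u j) :
    ∑ i ∈ Finset.range j, cf K u m j i • u i = u m := (exists_cf u m j).choose_spec h

end Coef

section Cases

variable {K E : Type*} [Field K] [Fintype K] [AddCommGroup E] [Module K E] [Fintype E]
variable (A : E ≃ₗ[K] E) (l : ℕ → ℤ) (n : ℕ) (L : ℕ)

open Classical in
/-- closed pairs -/
noncomputable def Cl : Finset ((E ≃ₗ[K] E) × E) :=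
  Finset.univ.filter fun p => p.2 ≠ 0 ∧ pth A l p n = p.2

lemma mem_Cl (p : (E ≃ₗ[K] E) × E) : p ∈ Cl A l n ↔ p.2 ≠ 0 ∧ pth A l p n = p.2 := by
  simp [Cl]

open Classical in
/-- closed pairs with a given pattern -/
noncomputable def ClF (F : Finset ℕ) : Finset ((E ≃ₗ[K] E) × E) :=
  (Cl A l n).filter fun p => pat K (pth A l p) n = F

lemma mem_ClF (F : Finset ℕ) (p : (E ≃ₗ[K] E) × E) :
    p ∈ ClF A l n F ↔ (p.2 ≠ 0 ∧ pth A l p n = p.2) ∧ pat K (pth A l p) n = F := by
  simp [ClF, mem_Cl]

lemma ClF_span (F : Finset ℕ) (p : (E ≃ₗ[K] E) × E) (hp : p ∈ ClF A l n F) (j : ℕ) (hj : j < n)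
    (hjF : j ∉ F) : pth A l p j ∈ sp K (pth A l p) j := by
  rw [mem_ClF] at hp
  rw [← hp.2, mem_pat] at hjF
  by_contra h
  exact hjF ⟨hj, h⟩

lemma ClF_span_next (F : Finset ℕ) (p : (E ≃ₗ[K] E) × E) (hp : p ∈ ClF A l n F) (j : ℕ)
    (hj : j < n) (hjF : j + 1 ∉ F) : pth A l p (j + 1) ∈ sp K (pth A l p) (j + 1) := by
  rcases Nat.lt_or_ge (j + 1) n with h | h
  · exact ClF_span A l n F p hp (j + 1) h hjF
  · have h2 : j + 1 = n := by omega
    rw [mem_ClF] at hp
    have h3 : pth A l p (j + 1) = pth A l p 0 := by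
      rw [h2, hp.1.2, pth_zero]
    rw [h3]
    exact mem_sp_self _ (by omega)

lemma ClF_indep (F : Finset ℕ) (p : (E ≃ₗ[K] E) × E) (hp : p ∈ ClF A l n F) :
    LinearIndependent K (fun i : F => pth A l p i) := by
  rw [mem_ClF] at hp
  have := pat_indep (K := K) (pth A l p) n
  rwa [hp.2] at this

lemma coef_transfer (u : ℕ → E) (g g' : ℕ → K) (j n : ℕ) (hj : j ≤ n) (x : E)
    (h : ∀ i < n, g i = g' i) (hs : ∑ i ∈ Finset.range j, g' i • u i = x) :
    ∑ i ∈ Finset.range j, g i • u i = x := by
  rw [← hs]
  refine Finset.sum_congr rfl fun i hi => ?_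
  rw [Finset.mem_range] at hi
  rw [h i (by omega)]

theorem caseN (hl : ∀ j, l j ≠ 0) (hL : ∀ j, |l j| ≤ L) (F : Finset ℕ) (a b : ℕ)
    (ha : a ∈ F) (hb : b ∈ F) (hab : a < b) (ha1 : a + 1 ∉ F) (hb1 : b + 1 ∉ F) (hbn : b < n) :
    (ClF A l n F).card * frames K E F.card ≤
      (Fintype.card E ^ (F.card - 1) * Fintype.card K ^ (2 * n) * (relSet A L).card ^ 2) *
        Fintype.card (E ≃ₗ[K] E) := by
  classical
  have hcount := count_principle (K := K) (E := E)
    (Γ := E × (((F.erase a).erase b : Finset ℕ) → E) × (Fin n → K) × (Fin n → K) ×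
      relSet A L × relSet A L)
    (ClF A l n F)
    (fun p => (p.2, fun i => zz A l p i, fun i => cf K (pth A l p) (a+1) (a+1) i,
      fun i => cf K (pth A l p) (b+1) (b+1) i,
      toW A L (kc (opM A (l a) (cf K (pth A l p) (a+1) (a+1) a)) (zz A l p a)),
      toW A L (kc (opM A (l b) (cf K (pth A l p) (b+1) (b+1) b)) (zz A l p b))))
    (fun p => pth A l p) F (fun p hp => ClF_indep A l n F p hp) ?_
  · refine le_trans hcount (Nat.mul_le_mul_right _ (le_of_eq ?_))
    simp only [Fintype.card_prod, Fintype.card_fun, Fintype.card_fin, Fintype.card_coe]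
    have hcard : ((F.erase a).erase b).card = F.card - 2 := by
      rw [Finset.card_erase_of_mem, Finset.card_erase_of_mem ha]
      · omega
      · rw [Finset.mem_erase]; exact ⟨by omega, hb⟩
    have h2 : 2 ≤ F.card := by
      have : ({a, b} : Finset ℕ) ⊆ F := by
        intro x hx
        rw [Finset.mem_insert, Finset.mem_singleton] at hx
        rcases hx with h | h <;> rw [h] <;> assumption
      calc 2 = ({a, b} : Finset ℕ).card := by rw [Finset.card_pair (by omega)]
        _ ≤ F.card := Finset.card_le_card this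
    rw [hcard]
    obtain ⟨m, hm⟩ : ∃ m, F.card = m + 2 := ⟨F.card - 2, by omega⟩
    rw [hm, show m + 2 - 1 = m + 1 by omega, show m + 2 - 2 = m by omega, two_mul]
    ring
  · intro p hp p' hp' hcode
    simp only [Prod.mk.injEq] at hcode
    obtain ⟨h1, h2, h3, h4, h5, h6⟩ := hcode
    have hg : ∀ i < n, cf K (pth A l p) (a+1) (a+1) i = cf K (pth A l p') (a+1) (a+1) i :=
      fun i hi => congrFun h3 ⟨i, hi⟩
    have hg2 : ∀ i < n, cf K (pth A l p) (b+1) (b+1) i = cf K (pth A l p') (b+1) (b+1) i :=
      fun i hi => congrFun h4 ⟨i, hi⟩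
    have sa := cf_spec (K := K) (pth A l p) (a+1) (a+1)
      (ClF_span_next A l n F p hp a (by omega) ha1)
    have sa' := coef_transfer (pth A l p') _ _ (a+1) n (by omega) _ hg
      (cf_spec (K := K) (pth A l p') (a+1) (a+1)
      (ClF_span_next A l n F p' hp' a (by omega) ha1))
    have sb := cf_spec (K := K) (pth A l p) (b+1) (b+1)
      (ClF_span_next A l n F p hp b (by omega) hb1)
    have sb' := coef_transfer (pth A l p') _ _ (b+1) n (by omega) _ hg2
      (cf_spec (K := K) (pth A l p') (b+1) (b+1)
      (ClF_span_next A l n F p' hp' b (by omega) hb1))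
    have Hz : ∀ j < n, j ≠ a → j ≠ b → (zz A l p j = zz A l p' j ∨
        (pth A l p j ∈ sp K (pth A l p) j ∧ pth A l p' j ∈ sp K (pth A l p') j)) := by
      intro j hj hja hjb
      by_cases hjF : j ∈ F
      · left
        have hmem : j ∈ (F.erase a).erase b := by
          rw [Finset.mem_erase, Finset.mem_erase]; exact ⟨hjb, hja, hjF⟩
        exact congrFun h2 ⟨j, hmem⟩
      · right
        exact ⟨ClF_span A l n F p hp j hj hjF, ClF_span A l n F p' hp' j hj hjF⟩
    have s1 := agr_det A l p p' 0 a h1 (by intro i hi; omega)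
      (fun j _ hj => Hz j (by omega) (by omega) (by omega))
    have za : zz A l p a = zz A l p' a := by
      have e := zz_rel_agr A l p p' a _ s1 sa sa'
      rw [← hg a (by omega)] at h5
      exact eq_of_code A L _ (fun v hv => relSet_of_opM A L _ _ (hl a) (hL a) v hv) _ _ e h5
    have s2 := agr_det A l p p' 0 b h1 (by intro i hi; omega)
      (fun j _ hj => by
        by_cases hja : j = a
        · left; rw [hja]; exact za
        · exact Hz j (by omega) hja (by omega))
    have zb : zz A l p b = zz A l p' b := by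
      have e := zz_rel_agr A l p p' b _ s2 sb sb'
      rw [← hg2 b (by omega)] at h6
      exact eq_of_code A L _ (fun v hv => relSet_of_opM A L _ _ (hl b) (hL b) v hv) _ _ e h6
    have s3 := agr_det A l p p' 0 n h1 (by intro i hi; omega)
      (fun j _ hj => by
        by_cases hja : j = a
        · left; rw [hja]; exact za
        · by_cases hjb : j = b
          · left; rw [hjb]; exact zb
          · exact Hz j hj hja hjb)
    refine ⟨h1, fun i hi => ?_⟩
    have hin : i < n := by
      rw [mem_ClF] at hp
      rw [← hp.2, mem_pat] at hi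
      exact hi.1
    exact s3 i hin

lemma w_agree (p p' : (E ≃ₗ[K] E) × E) (s e : ℕ) (hs : Even s)
    (h : ∀ i, s ≤ i → i < e → Even i → zz A l p i = zz A l p' i) :
    ∀ i, s ≤ i → i < e + 1 → (Even i → i < e) →
      p.1 (pth A l p i) = p'.1 (pth A l p' i) := by
  intro i hsi hi hlast
  by_cases hev : Even i
  · have := h i hsi (hlast hev) hev
    rwa [zz_even A l p i hev, zz_even A l p' i hev] at this
  · cases i with
    | zero => simp at hev
    | succ i =>
      have hi' : Even i := by
        rw [Nat.even_add_one, not_not] at hev; exact hev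
      have hsi' : s ≤ i := by
        rcases Nat.lt_or_ge i s with h1 | h1
        · have : s = i + 1 := by omega
          rw [this] at hs; exact absurd hs hev
        · exact h1
      rw [pth_even A l p i hi', pth_even A l p' i hi']
      have := h i hsi' (by omega) hi'
      rw [zz_even A l p i hi', zz_even A l p' i hi'] at this
      rw [this]

lemma u_agree (p p' : (E ≃ₗ[K] E) × E) (e : ℕ)
    (h : ∀ i < e, zz A l p i = zz A l p' i) :
    ∀ i, 1 ≤ i → i < e + 1 → (¬ Even i → i < e) → pth A l p i = pth A l p' i := by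
  intro i hsi hi hlast
  by_cases hev : Even i
  · cases i with
    | zero => omega
    | succ i =>
      have hi' : ¬ Even i := by
        rw [Nat.even_add_one] at hev; exact hev
      rw [pth_odd A l p i hi', pth_odd A l p' i hi']
      have := h i (by omega)
      rw [zz_odd A l p i hi', zz_odd A l p' i hi'] at this
      rw [this]
  · have := h i (hlast hev)
    rwa [zz_odd A l p i hev, zz_odd A l p' i hev] at this

open Classical in
/-- first special class -/
noncomputable def ClS (e : ℕ) : Finset ((E ≃ₗ[K] E) × E) :=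
  (ClF A l n (Finset.range (e+1))).filter fun p =>
    Even e ∨ cf K (pth A l p) (e+1) (e+1) 0 = 0

open Classical in
/-- second special class -/
noncomputable def ClP (e : ℕ) : Finset ((E ≃ₗ[K] E) × E) :=
  (ClF A l n (Finset.range (e+1))).filter fun p =>
    cf K (pth A l p) (e+1) (e+1) 0 ≠ 0

theorem caseS (hl : ∀ j, l j ≠ 0) (hL : ∀ j, |l j| ≤ L) (hn : Even n) (e : ℕ) (he : e + 1 < n) :
    (ClS A l n e).card * frames K E (e + 1) ≤
      (Fintype.card E ^ e * Fintype.card K ^ (2 * n) * (relSet A L).card ^ 2) *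
        Fintype.card (E ≃ₗ[K] E) := by
  classical
  have hsub : ∀ p ∈ ClS A l n e, p ∈ ClF A l n (Finset.range (e+1)) := by
    intro p hp
    rw [ClS, Finset.mem_filter] at hp
    exact hp.1
  have hcount := count_principle (K := K) (E := E)
    (Γ := (Fin e → E) × (Fin n → K) × (Fin n → K) × relSet A L × relSet A L)
    (ClS A l n e)
    (fun p => (fun i => zz A l p i, fun i => cf K (pth A l p) (e+1) (e+1) i,
      fun i => cf K (pth A l p) (n-1) (e+1) i,
      toW A L (kc (opM A (l e) (cf K (pth A l p) (e+1) (e+1) e)) (zz A l p e)),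
      toW A L (kc (opP A (l (n-1)) (cf K (pth A l p) (n-1) (e+1) 0)) p.2)))
    (fun p => pth A l p) (Finset.range (e+1))
    (fun p hp => ClF_indep A l n _ p (hsub p hp)) ?_
  · rw [Finset.card_range] at hcount
    refine le_trans hcount (Nat.mul_le_mul_right _ (le_of_eq ?_))
    simp only [Fintype.card_prod, Fintype.card_fun, Fintype.card_fin, Fintype.card_coe]
    rw [two_mul]
    ring
  · intro p hp p' hp' hcode
    simp only [Prod.mk.injEq] at hcode
    obtain ⟨h1, h2, h3, h4, h5⟩ := hcode
    have hpF := hsub p hp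
    have hpF' := hsub p' hp'
    have hz : ∀ i < e, zz A l p i = zz A l p' i := fun i hi => congrFun h1 ⟨i, hi⟩
    have hg : ∀ i < n, cf K (pth A l p) (e+1) (e+1) i = cf K (pth A l p') (e+1) (e+1) i :=
      fun i hi => congrFun h2 ⟨i, hi⟩
    have hc : ∀ i < n, cf K (pth A l p) (n-1) (e+1) i = cf K (pth A l p') (n-1) (e+1) i :=
      fun i hi => congrFun h3 ⟨i, hi⟩
    have sa := cf_spec (K := K) (pth A l p) (e+1) (e+1)
      (ClF_span_next A l n _ p hpF e (by omega) (by simp))
    have sa' := coef_transfer (pth A l p') _ _ (e+1) n (by omega) _ hg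
      (cf_spec (K := K) (pth A l p') (e+1) (e+1)
      (ClF_span_next A l n _ p' hpF' e (by omega) (by simp)))
    have hlast : ∀ p ∈ ClF A l n (Finset.range (e+1)),
        pth A l p (n-1) ∈ sp K (pth A l p) (e+1) := by
      intro p hpF
      have h6 : sp K (pth A l p) n = sp K (pth A l p) (e+1) :=
        sp_eq_of_span _ _ _ (by omega) (fun j hj hj' =>
          ClF_span A l n _ p hpF j hj' (by rw [Finset.mem_range]; omega))
      rw [← h6]
      exact mem_sp_self _ (by omega)
    have sc := cf_spec (K := K) (pth A l p) (n-1) (e+1) (hlast p hpF)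
    have sc' := coef_transfer (pth A l p') _ _ (e+1) n (by omega) _ hc
      (cf_spec (K := K) (pth A l p') (n-1) (e+1) (hlast p' hpF'))
    -- the last free coordinate
    have ze : zz A l p e = zz A l p' e := by
      have e1 : opM A (l e) (cf K (pth A l p) (e+1) (e+1) e) (zz A l p e) =
          opM A (l e) (cf K (pth A l p) (e+1) (e+1) e) (zz A l p' e) := by
        rw [zz_rel A l p e _ sa, zz_rel A l p' e _ sa']
        refine Finset.sum_congr rfl fun i hi => ?_
        rw [Finset.mem_range] at hi
        by_cases hev : Even e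
        · simp only [if_pos hev]
          rw [w_agree A l p p' 0 e (by simp) (fun i _ hi _ => hz i hi) i (by omega) (by omega)
            (fun _ => hi)]
        · simp only [if_neg hev]
          rcases Nat.eq_zero_or_pos i with h0 | h0
          · subst h0
            rw [ClS, Finset.mem_filter] at hp
            rcases hp.2 with h7 | h7
            · exact absurd h7 hev
            · rw [h7, zero_smul, zero_smul]
          · rw [u_agree A l p p' e hz i h0 (by omega) (fun _ => hi)]
      rw [← hg e (by omega)] at h4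
      exact eq_of_code A L _ (fun v hv => relSet_of_opM A L _ _ (hl e) (hL e) v hv) _ _ e1 h4
    have hz' : ∀ i < e + 1, zz A l p i = zz A l p' i := by
      intro i hi
      rcases Nat.lt_succ_iff_lt_or_eq.mp hi with h | h
      · exact hz i h
      · rw [h]; exact ze
    -- closing up
    have hodd : ¬ Even (n - 1) := by
      intro h
      have h2 : n = (n - 1) + 1 := by omega
      rw [h2, Nat.even_add_one] at hn
      exact hn h
    have close : ∀ q ∈ ClF A l n (Finset.range (e+1)),
        ∀ c : ℕ → K, ∑ i ∈ Finset.range (e+1), c i • pth A l q i = pth A l q (n-1) →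
        opP A (l (n-1)) (c 0) q.2 =
          - ∑ i ∈ Finset.range e, c (i+1) • (A ^ (l (n-1))) (pth A l q (i+1)) := by
      intro q hq c hc
      rw [mem_ClF] at hq
      have e2 : pth A l q n = (A ^ (l (n-1))) (pth A l q (n-1)) := by
        have h2 : n = (n - 1) + 1 := by omega
        conv_lhs => rw [h2]
        exact pth_odd A l q (n-1) hodd
      rw [hq.1.2, ← hc, Finset.sum_range_succ', map_add, map_sum, map_smul, pth_zero] at e2
      rw [opP_apply]
      simp only [map_smul] at e2
      have e3 : ∀ x y z : E, x = y + z → z - x = -y := by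
        intro x y z h
        rw [h]; abel
      exact e3 _ _ _ e2
    have hx : p.2 = p'.2 := by
      have e1 : opP A (l (n-1)) (cf K (pth A l p) (n-1) (e+1) 0) p.2 =
          opP A (l (n-1)) (cf K (pth A l p) (n-1) (e+1) 0) p'.2 := by
        rw [close p hpF _ sc, close p' hpF' _ sc']
        congr 1
        refine Finset.sum_congr rfl fun i hi => ?_
        rw [Finset.mem_range] at hi
        rw [u_agree A l p p' (e+1) hz' (i+1) (by omega) (by omega) (by omega)]
      rw [← hc 0 (by omega)] at h5
      exact eq_of_code A L _ (fun v hv => relSet_of_opP A L _ _ (hl (n-1)) (hL (n-1)) v hv)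
        _ _ e1 h5
    have s3 := agr_det A l p p' 0 n hx (by intro i hi; omega)
      (fun j _ hj => by
        rcases Nat.lt_or_ge j (e+1) with h | h
        · left; exact hz' j h
        · right
          exact ⟨ClF_span A l n _ p hpF j hj (by rw [Finset.mem_range]; omega),
            ClF_span A l n _ p' hpF' j hj (by rw [Finset.mem_range]; omega)⟩)
    refine ⟨hx, fun i hi => ?_⟩
    rw [Finset.mem_range] at hi
    exact s3 i (by omega)

theorem caseP (hl : ∀ j, l j ≠ 0) (hL : ∀ j, |l j| ≤ L) (hLL : ∀ i j, |l i + l j| ≤ L)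
    (hn : Even n) (e : ℕ) (hee : Even e) (he : e + 2 < n) (hne : l 0 ≠ l (e+2)) :
    (ClP A l n (e+1)).card * frames K E (e + 2) ≤
      (Fintype.card E ^ (e+1) * Fintype.card K ^ (2 * n) * (relSet A L).card ^ 2) *
        Fintype.card (E ≃ₗ[K] E) := by
  classical
  have hsub : ∀ p ∈ ClP A l n (e+1), p ∈ ClF A l n (Finset.range (e+2)) := by
    intro p hp
    rw [ClP, Finset.mem_filter] at hp
    exact hp.1
  have he3 : e + 3 < n := by
    rcases Nat.lt_or_ge (e+3) n with h | h
    · exact h
    · exfalso
      have : n = e + 3 := by omega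
      rw [this] at hn
      have h2 : Odd (e + 3) := by
        obtain ⟨k, hk⟩ := hee
        exact ⟨k + 1, by omega⟩
      exact (Nat.not_even_iff_odd.mpr h2) hn
  have hcount := count_principle (K := K) (E := E)
    (Γ := E × (Fin e → E) × (Fin n → K) × (Fin n → K) × relSet A L × relSet A L)
    (ClP A l n (e+1))
    (fun p => (p.2, fun i => zz A l p (i+1), fun i => cf K (pth A l p) (e+2) (e+2) i,
      fun i => cf K (pth A l p) (e+3) (e+2) i,
      toW A L (kc (opQ A (l (e+2)) (l 0) (cf K (pth A l p) (e+2) (e+2) 0)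
        (cf K (pth A l p) (e+2) (e+2) 1) (cf K (pth A l p) (e+3) (e+2) 0)
        (cf K (pth A l p) (e+3) (e+2) 1)) (zz A l p 0)),
      toW A L (kc (opM A (l (e+1)) (cf K (pth A l p) (e+2) (e+2) (e+1))) (zz A l p (e+1)))))
    (fun p => pth A l p) (Finset.range (e+2))
    (fun p hp => ClF_indep A l n _ p (hsub p hp)) ?_
  · rw [Finset.card_range] at hcount
    refine le_trans hcount (Nat.mul_le_mul_right _ (le_of_eq ?_))
    simp only [Fintype.card_prod, Fintype.card_fun, Fintype.card_fin, Fintype.card_coe]
    rw [two_mul]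
    ring
  · intro p hp p' hp' hcode
    simp only [Prod.mk.injEq] at hcode
    obtain ⟨h0, h1, h2, h3, h4, h5⟩ := hcode
    have hpF := hsub p hp
    have hpF' := hsub p' hp'
    have hz : ∀ i, 1 ≤ i → i < e + 1 → zz A l p i = zz A l p' i := by
      intro i hi1 hi2
      have := congrFun h1 ⟨i - 1, by omega⟩
      simp only at this
      rwa [show i - 1 + 1 = i by omega] at this
    have hg : ∀ i < n, cf K (pth A l p) (e+2) (e+2) i = cf K (pth A l p') (e+2) (e+2) i :=
      fun i hi => congrFun h2 ⟨i, hi⟩
    have hc : ∀ i < n, cf K (pth A l p) (e+3) (e+2) i = cf K (pth A l p') (e+3) (e+2) i :=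
      fun i hi => congrFun h3 ⟨i, hi⟩
    have sa := cf_spec (K := K) (pth A l p) (e+2) (e+2)
      (ClF_span_next A l n _ p hpF (e+1) (by omega) (by simp))
    have sa' := coef_transfer (pth A l p') _ _ (e+2) n (by omega) _ hg
      (cf_spec (K := K) (pth A l p') (e+2) (e+2)
      (ClF_span_next A l n _ p' hpF' (e+1) (by omega) (by simp)))
    have hlast : ∀ p ∈ ClF A l n (Finset.range (e+2)),
        pth A l p (e+3) ∈ sp K (pth A l p) (e+2) := by
      intro p hpF
      have h6 : sp K (pth A l p) n = sp K (pth A l p) (e+2) :=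
        sp_eq_of_span _ _ _ (by omega) (fun j hj hj' =>
          ClF_span A l n _ p hpF j hj' (by rw [Finset.mem_range]; omega))
      rw [← h6]
      exact mem_sp_self _ (by omega)
    have sc := cf_spec (K := K) (pth A l p) (e+3) (e+2) (hlast p hpF)
    have sc' := coef_transfer (pth A l p') _ _ (e+2) n (by omega) _ hc
      (cf_spec (K := K) (pth A l p') (e+3) (e+2) (hlast p' hpF'))
    have hev2 : Even (e + 2) := by
      obtain ⟨k, hk⟩ := hee
      exact ⟨k + 1, by omega⟩
    have hQ : ∀ q : (E ≃ₗ[K] E) × E, ∀ g c : ℕ → K,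
        ∑ i ∈ Finset.range (e+2), g i • pth A l q i = pth A l q (e+2) →
        ∑ i ∈ Finset.range (e+2), c i • pth A l q i = pth A l q (e+3) →
        opQ A (l (e+2)) (l 0) (g 0) (g 1) (c 0) (c 1) (zz A l q 0) =
          ∑ i ∈ Finset.range e, c (i+2) • q.1 (pth A l q (i+2))
          - (A ^ (l (e+2))) (∑ i ∈ Finset.range e, g (i+2) • q.1 (pth A l q (i+2))) := by
      intro q g c hg hc
      have r1 : q.1 (pth A l q (e+3)) = (A ^ (l (e+2))) (q.1 (pth A l q (e+2))) :=
        pth_even A l q (e+2) hev2
      have r2 : q.1 (pth A l q 1) = (A ^ (l 0)) (q.1 (pth A l q 0)) :=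
        pth_even A l q 0 (by simp)
      have w2 : ∀ f : ℕ → K, q.1 (∑ i ∈ Finset.range (e+2), f i • pth A l q i) =
          ∑ i ∈ Finset.range e, f (i+2) • q.1 (pth A l q (i+2)) +
          (f 0 • q.1 (pth A l q 0) + f 1 • (A ^ (l 0)) (q.1 (pth A l q 0))) := by
        intro f
        rw [Finset.sum_range_succ', Finset.sum_range_succ', map_add, map_add, map_sum, map_smul,
          map_smul, ← r2]
        simp only [map_smul]
        rw [add_assoc]
        congr 1
        rw [add_comm]
      rw [← hc, ← hg, w2, w2, map_add] at r1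
      rw [opQ_apply, zz_even A l q 0 (by simp)]
      rw [sub_eq_iff_eq_add]
      have r3 := r1
      rw [← sub_eq_iff_eq_add'] at r3
      rw [← r3]
      abel
    have z0 : zz A l p 0 = zz A l p' 0 := by
      have hw : ∀ i ∈ Finset.range e, p.1 (pth A l p (i+2)) = p'.1 (pth A l p' (i+2)) := by
        intro i hi
        rw [Finset.mem_range] at hi
        refine w_agree A l p p' 2 (e+1) (by norm_num) (fun i hi hi' _ => hz i (by omega) hi')
          (i+2) (by omega) (by omega) ?_
        intro hev
        rcases Nat.lt_or_ge (i+2) (e+1) with h | h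
        · exact h
        · exfalso
          have h7 : i + 2 = e + 1 := by omega
          rw [h7, Nat.even_add_one] at hev
          exact hev hee
      have e1 : opQ A (l (e+2)) (l 0) (cf K (pth A l p) (e+2) (e+2) 0)
          (cf K (pth A l p) (e+2) (e+2) 1) (cf K (pth A l p) (e+3) (e+2) 0)
          (cf K (pth A l p) (e+3) (e+2) 1) (zz A l p 0) =
          opQ A (l (e+2)) (l 0) (cf K (pth A l p) (e+2) (e+2) 0)
          (cf K (pth A l p) (e+2) (e+2) 1) (cf K (pth A l p) (e+3) (e+2) 0)
          (cf K (pth A l p) (e+3) (e+2) 1) (zz A l p' 0) := by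
        rw [hQ p _ _ sa sc, hQ p' _ _ sa' sc']
        congr 1
        · refine Finset.sum_congr rfl fun i hi => ?_
          rw [hw i hi]
        · congr 1
          refine Finset.sum_congr rfl fun i hi => ?_
          rw [hw i hi]
      rw [← hg 0 (by omega), ← hg 1 (by omega), ← hc 0 (by omega), ← hc 1 (by omega)] at h4
      refine eq_of_code A L _ (fun v hv => relSet_of_opQ A L _ _ _ _ _ _ (hl (e+2)) (hl 0)
        (fun h => hne h.symm) ?_ (hL _) (hL _) (hLL _ _) v hv) _ _ e1 h4
      rw [ClP, Finset.mem_filter] at hp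
      exact hp.2
    have hz' : ∀ i < e + 1, zz A l p i = zz A l p' i := by
      intro i hi
      rcases Nat.eq_zero_or_pos i with h | h
      · rw [h]; exact z0
      · exact hz i h hi
    have s1 := agr_det A l p p' 0 (e+1) h0 (by intro i hi; omega)
      (fun j _ hj => Or.inl (hz' j hj))
    have ze : zz A l p (e+1) = zz A l p' (e+1) := by
      have e1 := zz_rel_agr A l p p' (e+1) _ s1 sa sa'
      rw [← hg (e+1) (by omega)] at h5
      exact eq_of_code A L _ (fun v hv => relSet_of_opM A L _ _ (hl (e+1)) (hL (e+1)) v hv)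
        _ _ e1 h5
    have s3 := agr_det A l p p' 0 n h0 (by intro i hi; omega)
      (fun j _ hj => by
        rcases Nat.lt_or_ge j (e+1) with h | h
        · left; exact hz' j h
        · rcases Nat.lt_or_ge j (e+2) with h' | h'
          · left
            have : j = e + 1 := by omega
            rw [this]; exact ze
          · right
            exact ⟨ClF_span A l n _ p hpF j hj (by rw [Finset.mem_range]; omega),
              ClF_span A l n _ p' hpF' j hj (by rw [Finset.mem_range]; omega)⟩)
    refine ⟨h0, fun i hi => ?_⟩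
    rw [Finset.mem_range] at hi
    exact s3 i (by omega)

theorem caseFull (hn : Even n) (hn0 : 0 < n) :
    (ClF A l n (Finset.range n)).card * frames K E n ≤
      Fintype.card E ^ n * Fintype.card (E ≃ₗ[K] E) := by
  classical
  have hcount := count_principle (K := K) (E := E) (Γ := Fin n → E)
    (ClF A l n (Finset.range n)) (fun p i => zz A l p i)
    (fun p => pth A l p) (Finset.range n)
    (fun p hp => ClF_indep A l n _ p hp) ?_
  · rw [Finset.card_range] at hcount
    refine le_trans hcount (Nat.mul_le_mul_right _ (le_of_eq ?_))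
    rw [Fintype.card_fun, Fintype.card_fin]
  · intro p hp p' hp' hcode
    have hz : ∀ i < n, zz A l p i = zz A l p' i := fun i hi => congrFun hcode ⟨i, hi⟩
    have hodd : ¬ Even (n - 1) := by
      intro h
      have h2 : n = (n - 1) + 1 := by omega
      rw [h2, Nat.even_add_one] at hn
      exact hn h
    have hx : p.2 = p'.2 := by
      have close : ∀ q ∈ ClF A l n (Finset.range n), q.2 = (A ^ (l (n-1))) (zz A l q (n-1)) := by
        intro q hq
        rw [mem_ClF] at hq
        rw [zz_odd A l q _ hodd, ← pth_odd A l q _ hodd, show n - 1 + 1 = n by omega, hq.1.2]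
      rw [close p hp, close p' hp', hz (n-1) (by omega)]
    have s3 := agr_det A l p p' 0 n hx (by intro i hi; omega)
      (fun j _ hj => Or.inl (hz j hj))
    refine ⟨hx, fun i hi => ?_⟩
    rw [Finset.mem_range] at hi
    exact s3 i hi

end Cases

end H45.Gap
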