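import Mathlib

/-!
# The matrix part of the spectral gap argument

Chebyshev-like recursion, and an exact trace identity for alternating products.
-/

namespace H45.Gap

open Matrix Finset

section Cheb

variable {R : Type*} [Ring R] [Algebra ℝ R]

/-- Chebyshev-like sequence `T 0 = 2`, `T 1 = t`, `T (n+2) = t * T (n+1) - r • T n`. -/
noncomputable def chT (r : ℝ) (t : R) : ℕ → R
  | 0 => 2
  | 1 => t
  | (n+2) => t * chT r t (n+1) - r • chT r t n

lemma chT_zero (r : ℝ) (t : R) : chT r t 0 = 2 := rfl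
lemma chT_one (r : ℝ) (t : R) : chT r t 1 = t := rfl
lemma chT_add_two (r : ℝ) (t : R) (n : ℕ) :
    chT r t (n+2) = t * chT r t (n+1) - r • chT r t n := rfl

lemma chT_mul (r : ℝ) (t : R) (a : ℕ) :
    ∀ d, chT r t a * chT r t (a + d) = chT r t (2 * a + d) + (r ^ a) • chT r t d := by
  induction a using Nat.twoStepInduction with
  | zero =>
    intro d
    simp only [Nat.zero_add, Nat.mul_zero, pow_zero, one_smul, chT_zero]
    rw [two_mul]
  | one =>
    intro d
    rw [chT_one, show 1 + d = d + 1 by omega, show 2 * 1 + d = d + 2 by omega, chT_add_two,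
      pow_one]
    abel
  | more a ih1 ih2 =>
    intro d
    have h1 := ih2 (d + 1)
    have h2 := ih1 (d + 2)
    have e1 : a + 1 + (d + 1) = a + 2 + d := by omega
    have e2 : a + (d + 2) = a + 2 + d := by omega
    have e3 : 2 * (a + 1) + (d + 1) = 2 * a + d + 2 + 1 := by omega
    have e4 : 2 * a + (d + 2) = 2 * a + d + 2 := by omega
    have e5 : 2 * (a + 2) + d = 2 * a + d + 2 + 2 := by omega
    rw [e1, e3] at h1
    rw [e2, e4] at h2
    rw [e5, chT_add_two r t a, sub_mul, mul_assoc, smul_mul_assoc, h1, h2,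
      chT_add_two r t (2 * a + d + 2), mul_add, chT_add_two r t d]
    simp only [mul_smul_comm, smul_add, smul_sub, smul_smul]
    have : r ^ (a + 2) = r ^ (a + 1) * r := by ring
    rw [this, show r * (r ^ a) = r ^ (a + 1) by ring]
    module

lemma chT_double (r : ℝ) (t : R) (a : ℕ) :
    chT r t (2 * a) = chT r t a * chT r t a - (2 * r ^ a) • (1 : R) := by
  have h := chT_mul r t a 0
  simp only [Nat.add_zero, chT_zero] at h
  rw [h, mul_smul, smul_comm]
  have : (2 : ℝ) • (1 : R) = 2 := by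
    rw [two_smul]; norm_num
  rw [this]; abel

lemma chT_commute (r : ℝ) (t : R) (n : ℕ) : Commute t (chT r t n) := by
  induction n using Nat.twoStepInduction with
  | zero => rw [chT_zero]; exact Commute.ofNat_right t 2
  | one => rw [chT_one]
  | more n ih1 ih2 =>
    rw [chT_add_two]
    exact ((Commute.refl t).mul_right ih2).sub_right (ih1.smul_right r)

end Cheb

section Trace

variable {X V : Type*} [Fintype X] [DecidableEq X] [Fintype V] [DecidableEq V]

variable (J L : Matrix X V ℝ) (c I : ℝ)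

set_option linter.unusedSectionVars false
set_option linter.unusedVariables false

/-- first block operator -/
noncomputable def mA (J : Matrix X V ℝ) (c : ℝ) : Matrix X X ℝ := c • (J * Jᵀ) - c • 1

lemma mA_sq (hJ : Jᵀ * J = I • (1 : Matrix V V ℝ)) (hc : c * I = 1) :
    mA J c * mA J c = (1 - 2 * c) • mA J c + (c * (1 - c)) • 1 := by
  unfold mA
  have h1 : (J * Jᵀ) * (J * Jᵀ) = I • (J * Jᵀ) := by
    rw [Matrix.mul_assoc, ← Matrix.mul_assoc Jᵀ J Jᵀ, hJ, Matrix.smul_mul, Matrix.one_mul,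
      Matrix.mul_smul]
  rw [sub_mul, mul_sub, mul_sub]
  simp only [Matrix.smul_mul, Matrix.mul_smul, h1, Matrix.mul_one, Matrix.one_mul, smul_smul,
    smul_sub]
  rw [show c * (c * I) = c by rw [hc, mul_one]]
  module

lemma mT_mul_mA (hJ : Jᵀ * J = I • (1 : Matrix V V ℝ)) (hc : c * I = 1) :
    Jᵀ * mA J c = (1 - c) • Jᵀ := by
  unfold mA
  rw [Matrix.mul_sub, Matrix.mul_smul, ← Matrix.mul_assoc, hJ, Matrix.smul_mul, Matrix.one_mul,
    smul_smul, hc, Matrix.mul_smul, Matrix.mul_one]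
  module

/-- The operator `S`. -/
noncomputable def mS (J L : Matrix X V ℝ) (c : ℝ) : Matrix V V ℝ :=
  (c ^ 2) • (Jᵀ * (L * Lᵀ) * J)

/-- `T_1`. -/
noncomputable def mT (J L : Matrix X V ℝ) (c : ℝ) : Matrix V V ℝ :=
  mS J L c - (2 * (c * (1 - c))) • 1

/-- `S_{k+1}`. -/
noncomputable def mSf (J L : Matrix X V ℝ) (c : ℝ) (k : ℕ) : Matrix V V ℝ :=
  c • (Jᵀ * (mA L c * (mA J c * mA L c) ^ k) * J)

lemma mSf_zero (hJ : Jᵀ * J = I • (1 : Matrix V V ℝ)) (hc : c * I = 1) :
    mSf J L c 0 = mS J L c - c • 1 := by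
  unfold mSf mS
  rw [pow_zero, mul_one]
  unfold mA
  rw [Matrix.mul_sub, Matrix.sub_mul, Matrix.mul_smul, Matrix.mul_smul, Matrix.mul_one,
    Matrix.smul_mul, Matrix.smul_mul, hJ, smul_sub, smul_smul, smul_smul, smul_smul]
  rw [show c * c * I = c by rw [mul_assoc, hc, mul_one], pow_two]

lemma mS_mul_mSf (k : ℕ) :
    mS J L c * mSf J L c k =
      c • (Jᵀ * ((mA L c + c • 1) * (mA J c + c • 1) * (mA L c * (mA J c * mA L c) ^ k)) * J) := by
  have h1 : mA L c + c • 1 = c • (L * Lᵀ) := by unfold mA; abel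
  have h2 : mA J c + c • 1 = c • (J * Jᵀ) := by unfold mA; abel
  rw [h1, h2]
  unfold mS mSf
  simp only [Matrix.smul_mul, Matrix.mul_smul, smul_smul, Matrix.mul_assoc]
  congr 1
  ring

lemma mSf_succ_zero (hJ : Jᵀ * J = I • (1 : Matrix V V ℝ))
    (hL : Lᵀ * L = I • (1 : Matrix V V ℝ)) (hc : c * I = 1) :
    mSf J L c 1 = mT J L c * mSf J L c 0 - (c * (c * (1 - c))) • 1 := by
  have key : (mA L c + c • 1) * (mA J c + c • 1) * (mA L c * (mA J c * mA L c) ^ 0) =
      mA L c * (mA J c * mA L c) ^ 1 + (c * (1 - 2 * c) + c ^ 2) • mA L c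
        + (c * (c * (1 - c))) • 1 + c • (mA J c * mA L c) := by
    rw [pow_zero, mul_one, pow_one]
    have h := mA_sq L c I hL hc
    have : (mA L c + c • (1 : Matrix X X ℝ)) * (mA J c + c • 1) * mA L c =
        mA L c * (mA J c * mA L c) + c • (mA L c * mA L c) + c • (mA J c * mA L c)
          + (c ^ 2) • mA L c := by
      simp only [add_mul, mul_add, Matrix.smul_mul, Matrix.mul_smul, Matrix.one_mul,
        Matrix.mul_one, smul_smul, Matrix.mul_assoc]
      rw [pow_two]
      abel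
    rw [this, h]
    module
  have e := mS_mul_mSf J L c 0
  rw [key] at e
  have t1 : c • (Jᵀ * (c • (mA J c * mA L c)) * J) = (c * (1 - c)) • mSf J L c 0 := by
    unfold mSf
    rw [pow_zero, mul_one, Matrix.mul_smul, ← Matrix.mul_assoc, mT_mul_mA J c I hJ hc]
    simp only [Matrix.smul_mul, smul_smul]
    congr 1
    ring
  rw [Matrix.mul_add, Matrix.add_mul, smul_add, t1, Matrix.mul_add, Matrix.add_mul, smul_add,
    Matrix.mul_add, Matrix.add_mul, smul_add] at e
  have t2 : c • (Jᵀ * ((c * (c * (1 - c))) • (1 : Matrix X X ℝ)) * J) =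
      (c * (c * (1 - c))) • 1 := by
    rw [Matrix.mul_smul, Matrix.mul_one, Matrix.smul_mul, hJ, smul_smul, smul_smul]
    congr 1
    calc c * (c * (c * (1 - c))) * I = (c * I) * (c * (c * (1 - c))) := by ring
      _ = c * (c * (1 - c)) := by rw [hc, one_mul]
  have t3 : c • (Jᵀ * ((c * (1 - 2 * c) + c ^ 2) • mA L c) * J) =
      (c * (1 - 2 * c) + c ^ 2) • mSf J L c 0 := by
    unfold mSf
    rw [pow_zero, mul_one, Matrix.mul_smul, Matrix.smul_mul, smul_comm]
  have t4 : c • (Jᵀ * (mA L c * (mA J c * mA L c) ^ 1) * J) = mSf J L c 1 := rfl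
  rw [t2, t3, t4] at e
  unfold mT
  rw [Matrix.sub_mul, e, Matrix.smul_mul, Matrix.one_mul]
  have : mSf J L c 1 + (c * (1 - 2 * c) + c ^ 2) • mSf J L c 0 + (c * (c * (1 - c))) • 1
      + (c * (1 - c)) • mSf J L c 0 - (2 * (c * (1 - c))) • mSf J L c 0
      - (c * (c * (1 - c))) • 1 = mSf J L c 1 := by
    module
  exact this.symm

lemma mSf_add_two (hJ : Jᵀ * J = I • (1 : Matrix V V ℝ))
    (hL : Lᵀ * L = I • (1 : Matrix V V ℝ)) (hc : c * I = 1) (k : ℕ) :
    mSf J L c (k + 2) = mT J L c * mSf J L c (k + 1) - ((c * (1 - c)) ^ 2) • mSf J L c k := by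
  set a := mA J c with ha
  set b := mA L c with hb
  have hbb : b * b = (1 - 2 * c) • b + (c * (1 - c)) • 1 := mA_sq L c I hL hc
  have key : (b + c • 1) * (a + c • 1) * (b * (a * b) ^ (k + 1)) =
      b * (a * b) ^ (k + 2) + (c * (1 - 2 * c) + c ^ 2) • (b * (a * b) ^ (k + 1))
        + (c * (c * (1 - c))) • (a * (b * (a * b) ^ k)) + c • (a * (b * (a * b) ^ (k + 1))) := by
    have h1 : (b + c • (1 : Matrix X X ℝ)) * (a + c • 1) * (b * (a * b) ^ (k + 1)) =
        b * (a * b) ^ (k + 2) + c • ((b * b) * (a * b) ^ (k + 1))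
          + c • (a * (b * (a * b) ^ (k + 1))) + (c ^ 2) • (b * (a * b) ^ (k + 1)) := by
      rw [pow_succ' (a * b) (k + 1)]
      simp only [add_mul, mul_add, Matrix.smul_mul, Matrix.mul_smul, Matrix.one_mul,
        Matrix.mul_one, smul_smul, Matrix.mul_assoc]
      rw [pow_two c]
      abel
    rw [h1, hbb, add_mul, Matrix.smul_mul, Matrix.smul_mul, Matrix.one_mul]
    have h2 : (a * b) ^ (k + 1) = a * (b * (a * b) ^ k) := by
      rw [pow_succ', Matrix.mul_assoc]
    conv_lhs =>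
      rw [smul_add]
    have h3 : c • (c * (1 - c)) • (a * b) ^ (k + 1) =
        (c * (c * (1 - c))) • (a * (b * (a * b) ^ k)) := by
      rw [h2, smul_smul]
    rw [h3]
    module
  have e := mS_mul_mSf J L c (k + 1)
  rw [← ha, ← hb, key] at e
  have t1 : ∀ j, c • (Jᵀ * (a * (b * (a * b) ^ j)) * J) = (1 - c) • mSf J L c j := by
    intro j
    unfold mSf
    rw [← Matrix.mul_assoc Jᵀ a, ha, mT_mul_mA J c I hJ hc]
    simp only [Matrix.smul_mul, smul_smul]
    congr 1
    ring
  have t1' : ∀ (x : ℝ) j, c • (Jᵀ * (x • (a * (b * (a * b) ^ j))) * J)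
      = (x * (1 - c)) • mSf J L c j := by
    intro x j
    rw [Matrix.mul_smul, Matrix.smul_mul, smul_comm, t1, smul_smul]
  rw [Matrix.mul_add, Matrix.add_mul, smul_add, t1', Matrix.mul_add, Matrix.add_mul, smul_add,
    t1', Matrix.mul_add, Matrix.add_mul, smul_add] at e
  have t3 : c • (Jᵀ * ((c * (1 - 2 * c) + c ^ 2) • (b * (a * b) ^ (k + 1))) * J) =
      (c * (1 - 2 * c) + c ^ 2) • mSf J L c (k + 1) := by
    unfold mSf
    rw [Matrix.mul_smul, Matrix.smul_mul, smul_comm]
  have t4 : c • (Jᵀ * (b * (a * b) ^ (k + 2)) * J) = mSf J L c (k + 2) := rfl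
  rw [t3, t4] at e
  unfold mT
  rw [Matrix.sub_mul, e, Matrix.smul_mul, Matrix.one_mul]
  module

lemma mSf_sub_chT (hJ : Jᵀ * J = I • (1 : Matrix V V ℝ))
    (hL : Lᵀ * L = I • (1 : Matrix V V ℝ)) (hc : c * I = 1) (k : ℕ) :
    mSf J L c (k + 1) = chT ((c * (1 - c)) ^ 2) (mT J L c) (k + 2)
      + ((c * (1 - 2 * c)) • chT ((c * (1 - c)) ^ 2) (mT J L c) (k + 1)
        + (c * (1 - c)) • (mSf J L c k - chT ((c * (1 - c)) ^ 2) (mT J L c) (k + 1))) := by
  have h0 : mSf J L c 0 = mT J L c + (c * (1 - 2 * c)) • 1 := by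
    rw [mSf_zero J L c I hJ hc]; unfold mT; module
  induction k using Nat.twoStepInduction with
  | zero =>
    rw [mSf_succ_zero J L c I hJ hL hc, chT_add_two, chT_one, chT_zero, h0]
    have : (2 : Matrix V V ℝ) = (2 : ℝ) • 1 := by
      rw [two_smul]; norm_num
    rw [this, mul_add, Matrix.mul_smul, mul_one, smul_smul]
    module
  | one =>
    rw [mSf_add_two J L c I hJ hL hc 0, mSf_succ_zero J L c I hJ hL hc, h0]
    rw [chT_add_two _ _ 1, chT_add_two _ _ 0, chT_one, chT_zero]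
    have : (2 : Matrix V V ℝ) = (2 : ℝ) • 1 := by
      rw [two_smul]; norm_num
    simp only [this, mul_add, mul_sub, Matrix.mul_smul, mul_one, smul_smul, smul_add, smul_sub]
    module
  | more k ih1 ih2 =>
    have e1 := mSf_add_two J L c I hJ hL hc (k + 1)
    rw [show k + 1 + 2 = k + 2 + 1 by omega, show k + 1 + 1 = k + 2 by omega] at e1
    have e2 := mSf_add_two J L c I hJ hL hc k
    rw [e1]
    set T := chT ((c * (1 - c)) ^ 2) (mT J L c) with hT
    have r1 : T (k + 2 + 2) = mT J L c * T (k + 3) - ((c * (1 - c)) ^ 2) • T (k + 2) :=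
      chT_add_two _ _ _
    have r2 : T (k + 3) = mT J L c * T (k + 2) - ((c * (1 - c)) ^ 2) • T (k + 1) :=
      chT_add_two _ _ _
    have i1 : mSf J L c (k + 2) = T (k + 3) + ((c * (1 - 2 * c)) • T (k + 2)
        + (c * (1 - c)) • (mSf J L c (k + 1) - T (k + 2))) := ih2
    have i0 : mSf J L c (k + 1) = T (k + 2) + ((c * (1 - 2 * c)) • T (k + 1)
        + (c * (1 - c)) • (mSf J L c k - T (k + 1))) := ih1
    rw [show k + 2 + 1 = k + 3 by omega, r1]
    have g1 : mT J L c * mSf J L c (k + 2) = mT J L c * T (k + 3)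
        + ((c * (1 - 2 * c)) • (mT J L c * T (k + 2))
        + (c * (1 - c)) • (mT J L c * mSf J L c (k + 1) - mT J L c * T (k + 2))) := by
      rw [i1]
      simp only [mul_add, mul_sub, Matrix.mul_smul]
    rw [g1]
    have g2 : mT J L c * mSf J L c (k + 1) =
        mSf J L c (k + 2) + ((c * (1 - c)) ^ 2) • mSf J L c k := by rw [e2]; abel
    have g3 : mT J L c * T (k + 2) = T (k + 3) + ((c * (1 - c)) ^ 2) • T (k + 1) := by
      rw [r2]; abel
    rw [g2, g3]
    rw [i0]
    module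

/-- even alternating trace -/
noncomputable def mD (J L : Matrix X V ℝ) (c : ℝ) (k : ℕ) : ℝ :=
  Matrix.trace ((mA J c * mA L c) ^ k)

/-- odd alternating trace -/
noncomputable def mO (J L : Matrix X V ℝ) (c : ℝ) (k : ℕ) : ℝ :=
  Matrix.trace (mA L c * (mA J c * mA L c) ^ k)

lemma mD_succ (k : ℕ) :
    mD J L c (k + 1) = Matrix.trace (mSf J L c k) - c * mO J L c k := by
  unfold mD mO mSf
  have h2 : mA J c = c • (J * Jᵀ) - c • 1 := rfl
  have h1 : (mA J c * mA L c) ^ (k + 1) =
      c • (J * (Jᵀ * (mA L c * (mA J c * mA L c) ^ k)))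
        - c • (mA L c * (mA J c * mA L c) ^ k) := by
    rw [pow_succ', Matrix.mul_assoc]
    conv_lhs =>
      rw [show mA J c * (mA L c * (mA J c * mA L c) ^ k)
        = (c • (J * Jᵀ) - c • 1) * (mA L c * (mA J c * mA L c) ^ k) from rfl]
    rw [Matrix.sub_mul, Matrix.smul_mul, Matrix.smul_mul, Matrix.one_mul, Matrix.mul_assoc J]
  rw [h1, Matrix.trace_sub, Matrix.trace_smul, Matrix.trace_smul, Matrix.trace_smul,
    Matrix.trace_mul_comm J]
  simp [smul_eq_mul]

lemma mO_zero (hL : Lᵀ * L = I • (1 : Matrix V V ℝ)) (hc : c * I = 1)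
    (hcard : (Fintype.card X : ℝ) = I * Fintype.card V) : mO J L c 0 = 0 := by
  unfold mO
  rw [pow_zero, mul_one]
  unfold mA
  rw [Matrix.trace_sub, Matrix.trace_smul, Matrix.trace_smul, Matrix.trace_mul_comm, hL,
    Matrix.trace_smul, Matrix.trace_one, Matrix.trace_one, hcard]
  simp

lemma mD_symm (k : ℕ) : mD J L c k = mD L J c k := by
  unfold mD
  cases k with
  | zero => simp
  | succ k =>
    rw [pow_succ, ← Matrix.mul_assoc, Matrix.trace_mul_comm]
    congr 1
    rw [pow_succ', Matrix.mul_assoc]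
    congr 1
    induction k with
    | zero => simp
    | succ k ih =>
      rw [pow_succ', Matrix.mul_assoc, Matrix.mul_assoc, ih, pow_succ', ]
      simp only [Matrix.mul_assoc]

lemma mO_succ (hL : Lᵀ * L = I • (1 : Matrix V V ℝ)) (hc : c * I = 1) (k : ℕ) :
    mO J L c (k + 1) = (1 - 2 * c) * mD J L c (k + 1) + (c * (1 - c)) * mO L J c k := by
  unfold mO
  set a := mA J c with ha
  set b := mA L c with hb
  have hbb : b * b = (1 - 2 * c) • b + (c * (1 - c)) • 1 := mA_sq L c I hL hc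
  have comm1 : ∀ j, b * (a * b) ^ j = (b * a) ^ j * b := by
    intro j
    induction j with
    | zero => simp
    | succ j ih =>
      rw [pow_succ, ← Matrix.mul_assoc, ih, pow_succ]
      simp only [Matrix.mul_assoc]
  have e1 : b * (a * b) ^ (k + 1) = (b * a) ^ k * b * a * b := by
    rw [comm1, pow_succ]
    simp only [Matrix.mul_assoc]
  rw [e1, Matrix.trace_mul_comm]
  have e2 : b * ((b * a) ^ k * b * a) = (b * b) * ((a * b) ^ k * a) := by
    rw [← comm1]
    simp only [Matrix.mul_assoc]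
  have comm2 : ∀ j, (a * b) ^ j * a = a * (b * a) ^ j := by
    intro j
    induction j with
    | zero => simp
    | succ j ih =>
      rw [pow_succ', Matrix.mul_assoc, ih, pow_succ']
      simp only [Matrix.mul_assoc]
  rw [e2, hbb, Matrix.add_mul, Matrix.smul_mul, Matrix.smul_mul, Matrix.one_mul,
    Matrix.trace_add, Matrix.trace_smul, Matrix.trace_smul, comm2]
  have e3 : Matrix.trace (b * (a * (b * a) ^ k)) = mD J L c (k + 1) := by
    rw [mD_symm, mD, ← Matrix.mul_assoc, ← pow_succ', ← ha, ← hb]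
  rw [e3]
  simp [smul_eq_mul]

lemma mO_symm (hJ : Jᵀ * J = I • (1 : Matrix V V ℝ))
    (hL : Lᵀ * L = I • (1 : Matrix V V ℝ)) (hc : c * I = 1)
    (hcard : (Fintype.card X : ℝ) = I * Fintype.card V) (k : ℕ) : mO J L c k = mO L J c k := by
  induction k with
  | zero => rw [mO_zero J L c I hL hc hcard, mO_zero L J c I hJ hc hcard]
  | succ k ih =>
    rw [mO_succ J L c I hL hc, mO_succ L J c I hJ hc, mD_symm, ih]

theorem mD_eq (hJ : Jᵀ * J = I • (1 : Matrix V V ℝ))
    (hL : Lᵀ * L = I • (1 : Matrix V V ℝ)) (hc : c * I = 1)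
    (hcard : (Fintype.card X : ℝ) = I * Fintype.card V) (k : ℕ) :
    mD J L c (k + 1) = Matrix.trace (chT ((c * (1 - c)) ^ 2) (mT J L c) (k + 1))
      + (I - 2) * Fintype.card V * c ^ (2 * (k + 1)) := by
  induction k with
  | zero =>
    rw [mD_succ, mO_zero J L c I hL hc hcard, mSf_zero J L c I hJ hc]
    rw [show 0 + 1 = 1 from rfl, chT_one]
    unfold mT
    rw [Matrix.trace_sub, Matrix.trace_sub, Matrix.trace_smul, Matrix.trace_smul,
      Matrix.trace_one]
    simp only [smul_eq_mul, mul_zero, sub_zero]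
    have : (I - 2) * (Fintype.card V : ℝ) * c ^ (2 * 1) =
        (c * I) * c * Fintype.card V - 2 * c ^ 2 * Fintype.card V := by ring
    rw [this, hc]
    ring
  | succ k ih =>
    rw [mD_succ, mSf_sub_chT J L c I hJ hL hc k, mO_succ J L c I hL hc,
      ← mO_symm J L c I hJ hL hc hcard]
    have h1 := mD_succ J L c k
    have h2 : Matrix.trace (mSf J L c k) = mD J L c (k + 1) + c * mO J L c k := by
      rw [h1]; ring
    simp only [Matrix.trace_add, Matrix.trace_smul, Matrix.trace_sub, smul_eq_mul]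
    rw [h2, ih]
    rw [show 2 * (k + 1 + 1) = 2 * (k + 1) + 2 by ring, pow_add]
    ring

end Trace

end H45.Gap
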