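import Pool.Agent.H45.GapTrace

/-!
# The counting form of the spectral estimate
-/

namespace H45.Gap

open Matrix Finset

set_option linter.unusedSectionVars false
set_option linter.unusedVariables false

section Perm

variable {V ι : Type*} [Fintype V] [DecidableEq V] [Fintype ι] [DecidableEq ι]

lemma mJ_mulVec_one (x : ι → Equiv.Perm V) : mJ x *ᵥ (fun _ => 1) = fun _ => 1 := by
  funext p
  simp only [Matrix.mulVec, dotProduct, mJ, mul_one]
  have : ∀ v : V, (if p.1 = x p.2 v then (1 : ℝ) else 0) = if (x p.2).symm p.1 = v then 1 else 0 := by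
    intro v
    congr 1
    rw [Equiv.symm_apply_eq]
  simp only [this, Finset.sum_ite_eq, Finset.mem_univ, if_true]

lemma mJT_mulVec_one (x : ι → Equiv.Perm V) :
    (mJ x)ᵀ *ᵥ (fun _ => 1) = fun _ => (Fintype.card ι : ℝ) := by
  funext v
  simp only [Matrix.mulVec, dotProduct, mJ, mul_one, Matrix.transpose_apply]
  rw [Fintype.sum_prod_type, Finset.sum_comm]
  simp only [Finset.sum_ite_eq', Finset.mem_univ, if_true, Finset.sum_const, Finset.card_univ,
    nsmul_eq_mul, mul_one]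

lemma mT_one (x y : ι → Equiv.Perm V) (c : ℝ) (hc : c * Fintype.card ι = 1) :
    mT (mJ x) (mJ y) c *ᵥ (fun _ => 1) = fun _ => 1 - 2 * (c * (1 - c)) := by
  unfold mT mS
  have h1 : ((2 * (c * (1 - c))) • (1 : Matrix V V ℝ)) *ᵥ (fun _ => (1:ℝ)) =
      fun _ => 2 * (c * (1 - c)) := by
    rw [Matrix.smul_mulVec, Matrix.one_mulVec]; funext v; simp
  have h2 : (fun _ : V => (Fintype.card ι : ℝ)) = (Fintype.card ι : ℝ) • (fun _ : V => (1 : ℝ)) := by
    funext v; simp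
  have h3 : (mJ x)ᵀ *ᵥ (fun _ => 1) = (Fintype.card ι : ℝ) • (fun _ : V => (1 : ℝ)) := by
    rw [mJT_mulVec_one, h2]
  have h4 : (mJ y)ᵀ *ᵥ (fun _ => 1) = (Fintype.card ι : ℝ) • (fun _ : V => (1 : ℝ)) := by
    rw [mJT_mulVec_one, h2]
  rw [Matrix.sub_mulVec, h1, Matrix.smul_mulVec, ← Matrix.mulVec_mulVec, ← Matrix.mulVec_mulVec,
    ← Matrix.mulVec_mulVec, mJ_mulVec_one, h4, Matrix.mulVec_smul, mJ_mulVec_one,
    Matrix.mulVec_smul, h3]
  funext v
  simp only [Pi.sub_apply, Pi.smul_apply, smul_eq_mul, mul_one]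
  have : c ^ 2 * ((Fintype.card ι : ℝ) * (Fintype.card ι : ℝ)) = (c * Fintype.card ι) ^ 2 := by ring
  rw [this, hc]; ring

lemma mC_apply (x y : ι → Equiv.Perm V) (c : ℝ) (f : V → ℝ) (v : V) :
    ((c • ((mJ y)ᵀ * mJ x)) *ᵥ f) v = c * ∑ i, f ((x i).symm (y i v)) := by
  rw [Matrix.smul_mulVec, Pi.smul_apply, smul_eq_mul]
  congr 1
  simp only [Matrix.mulVec, dotProduct, mJT_mul, Finset.sum_mul]
  rw [Finset.sum_comm]
  refine Finset.sum_congr rfl fun i _ => ?_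
  have : ∀ w, (if y i v = x i w then (1 : ℝ) else 0) * f w =
      if (x i).symm (y i v) = w then f w else 0 := by
    intro w
    by_cases h : y i v = x i w
    · rw [if_pos h, if_pos (by rw [h]; simp), one_mul]
    · rw [if_neg h, if_neg (by intro h'; apply h; rw [← h']; simp), zero_mul]
  simp only [this, Finset.sum_ite_eq, Finset.mem_univ, if_true]

lemma trace_unit (M : Matrix PUnit.{1} PUnit.{1} ℝ) (t : ℝ) (h : M *ᵥ (fun _ => 1) = fun _ => t) :
    Matrix.trace M = t := by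
  have := congrFun h PUnit.unit
  simpa [Matrix.trace, Matrix.mulVec, dotProduct] using this

lemma card_goodSeq (c : ℝ) (hc : c * Fintype.card ι = 1) (m : ℕ) :
    c ^ (2 * (m + 1)) * (goodSeq ι (2 * m + 1)).card =
      chT ((c * (1 - c)) ^ 2) (1 - 2 * (c * (1 - c))) (m + 1)
        + ((Fintype.card ι : ℝ) - 2) * c ^ (2 * (m + 1)) := by
  have h1 := mD_eq_card (V := PUnit.{1}) (ι := ι) (fun _ => 1) (fun _ => 1) c m
  have h2 := mD_eq (V := PUnit.{1}) (mJ (ι := ι) (fun _ => 1)) (mJ (fun _ => 1)) c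
    (Fintype.card ι) (mJ_orth _) (mJ_orth _) hc (by simp) m
  rw [card_closedSeq] at h1
  have h3 : ∀ s ∈ goodSeq ι (2 * m + 1),
      (vSeq (V := PUnit.{1}) (fun _ => 1) (fun _ => 1) (2 * m + 1) s).card = 1 := by
    intro s _
    rw [Finset.card_eq_one]
    refine ⟨fun _ => PUnit.unit, ?_⟩
    ext v
    rw [mem_vSeq]
    simp
  rw [Finset.sum_congr rfl h3] at h1
  simp only [Finset.sum_const, smul_eq_mul, mul_one] at h1
  rw [← h1, h2, trace_unit _ _ (chT_mulVec_one _ _ _ (mT_one _ _ c hc) (m+1))]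
  simp

/-- the counting quantity -/
noncomputable def qty (x y : ι → Equiv.Perm V) (m : ℕ) : ℝ :=
  ((Fintype.card ι : ℝ)⁻¹) ^ (2 * (m + 1)) *
    (∑ s ∈ goodSeq ι (2 * m + 1), (((vSeq x y (2 * m + 1) s).card : ℝ) - 1))
  + 2 * ((Fintype.card ι : ℝ)⁻¹ * (1 - (Fintype.card ι : ℝ)⁻¹)) ^ (m + 1) * Fintype.card V

lemma mQ_eq_qty (x y : ι → Equiv.Perm V) (hI : 2 ≤ Fintype.card ι) (m : ℕ) :
    mQ (mJ x) (mJ y) ((Fintype.card ι : ℝ)⁻¹) (Fintype.card ι) (m + 1) = qty x y m := by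
  have hne : (Fintype.card ι : ℝ) ≠ 0 := by
    have : (0 : ℝ) < Fintype.card ι := by exact_mod_cast (by omega : 0 < Fintype.card ι)
    exact ne_of_gt this
  have hc : (Fintype.card ι : ℝ)⁻¹ * Fintype.card ι = 1 := inv_mul_cancel₀ hne
  unfold mQ qty
  rw [← card_goodSeq _ hc m, mD_eq_card, card_closedSeq]
  rw [Finset.sum_sub_distrib]
  push_cast
  simp only [Finset.sum_const, nsmul_eq_mul, mul_one]
  ring

variable [Nonempty V]

lemma qty_nonneg (x y : ι → Equiv.Perm V) (hI : 2 ≤ Fintype.card ι) (k : ℕ) :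
    0 ≤ qty x y (2 ^ (k + 1) - 1) := by
  have hne : (Fintype.card ι : ℝ) ≠ 0 := by
    have : (0 : ℝ) < Fintype.card ι := by exact_mod_cast (by omega : 0 < Fintype.card ι)
    exact ne_of_gt this
  have hc : (Fintype.card ι : ℝ)⁻¹ * Fintype.card ι = 1 := inv_mul_cancel₀ hne
  have hpos : 0 < 2 ^ k := by positivity
  have hm : 2 ^ (k + 1) - 1 + 1 = 2 * ((2 ^ k - 1) + 1) := by
    rw [pow_succ]; omega
  rw [← mQ_eq_qty x y hI, hm]
  exact mQ_nonneg _ _ _ _ (mJ_orth x) (mJ_orth y) hc (by exact_mod_cast hI)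
    (by rw [Fintype.card_prod]; push_cast; ring) (mT_one x y _ hc) _

theorem qty_large (x y : ι → Equiv.Perm V) (hI : 2 ≤ Fintype.card ι) (k : ℕ)
    (f : V → ℝ) (hf0 : ∑ v, f v = 0) (hf : ∑ v, f v ^ 2 = 1)
    (hC : 1 / 2 + 2 * ((Fintype.card ι : ℝ)⁻¹ * (1 - (Fintype.card ι : ℝ)⁻¹)) ^ 2
      + 2 * ((Fintype.card ι : ℝ)⁻¹ * (1 - (Fintype.card ι : ℝ)⁻¹)) ≤
      ∑ v, ((Fintype.card ι : ℝ)⁻¹ * ∑ i, f ((x i).symm (y i v))) ^ 2) :
    (1 / 2 : ℝ) ^ (2 ^ (k + 1)) ≤ qty x y (2 ^ (k + 1) - 1) := by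
  have hne : (Fintype.card ι : ℝ) ≠ 0 := by
    have : (0 : ℝ) < Fintype.card ι := by exact_mod_cast (by omega : 0 < Fintype.card ι)
    exact ne_of_gt this
  have hc : (Fintype.card ι : ℝ)⁻¹ * Fintype.card ι = 1 := inv_mul_cancel₀ hne
  have hpos : 0 < 2 ^ (k + 1) := by positivity
  have hm : 2 ^ (k + 1) - 1 + 1 = 2 ^ (k + 1) := by omega
  rw [← mQ_eq_qty x y hI, hm]
  refine mQ_large _ _ _ _ (mJ_orth x) (mJ_orth y) hc (by exact_mod_cast hI)
    (by rw [Fintype.card_prod]; push_cast; ring) (mT_one x y _ hc) k f hf0 hf ?_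
  simpa only [mC_apply] using hC

end Perm

end H45.Gap
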