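import Pool.Agent.H45.GapAvg

/-!
# Counting the bad pairs
-/

namespace H45.Gap

open Finset Module

set_option linter.unusedSectionVars false
set_option linter.unusedVariables false

section Bad

variable {K E : Type*} [Field K] [Fintype K] [AddCommGroup E] [Module K E] [Fintype E]
  [DecidableEq E]

/-- a pair with an eigenvalue larger than `4 - ε` in absolute value on the complement of the
constants -/
def BadPair (ε : ℝ) (A B : E ≃ₗ[K] E) : Prop :=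
  ∃ (μ : ℝ) (f : {v : E // v ≠ 0} → ℝ), f ≠ 0 ∧ ∑ v, f v = 0 ∧
    (∀ v, f (permV A v) + f (permV A⁻¹ v) + f (permV B v) + f (permV B⁻¹ v) = μ * f v) ∧
    4 - ε < |μ|

lemma bad_large [Nonempty {v : E // v ≠ 0}] (A B : E ≃ₗ[K] E) (I : ℕ) (hI : 16 ≤ I)
    (hbad : BadPair ((1 / (8 * (4 * I + 1)) : ℝ) ^ 2) A B) (k : ℕ) :
    (1 / 2 : ℝ) ^ (2 ^ (k + 1)) ≤
      qty (fx (permV A) (permV B) I) (fy (permV A) I) (2 ^ (k + 1) - 1) := by
  obtain ⟨μ, f, hf, hf0, hT, hμ⟩ := hbad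
  have hS : 0 < ∑ v, f v ^ 2 := by
    obtain ⟨v, hv⟩ := Function.ne_iff.mp hf
    apply Finset.sum_pos' (fun _ _ => sq_nonneg _)
    exact ⟨v, Finset.mem_univ v, by have : f v ≠ 0 := hv; positivity⟩
  set S : ℝ := Real.sqrt (∑ v, f v ^ 2) with hSdef
  have hS0 : 0 < S := Real.sqrt_pos.mpr hS
  have hS2 : S ^ 2 = ∑ v, f v ^ 2 := Real.sq_sqrt hS.le
  refine near_large (permV A) (permV B) I hI (fun v => f v / S) μ ?_ ?_ ?_ hμ k
  · rw [← Finset.sum_div, hf0, zero_div]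
  · simp only [div_pow]
    rw [← Finset.sum_div, hS2, div_self (ne_of_gt hS)]
  · intro v
    have h := hT v
    rw [map_inv, map_inv] at h
    rw [← add_div, ← add_div, ← add_div, h, mul_div_assoc]

open Classical in
lemma card_bad_B (A : E ≃ₗ[K] E) (I k : ℕ) (hI : 16 ≤ I) (hN : 2 ^ (k+2) < finrank K E) :
    (((Finset.univ : Finset (E ≃ₗ[K] E)).filter
      (fun B => BadPair ((1 / (8 * (4 * I + 1)) : ℝ) ^ 2) A B)).card : ℝ) ≤
      2 ^ (2 ^ (k+1)) * (zeta (Fintype.card K) (finrank K E) I k (relSet A (4 * I)).card *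
        Fintype.card (E ≃ₗ[K] E)) := by
  have hne : Nonempty {v : E // v ≠ 0} := by
    have hnt : Nontrivial E := Module.nontrivial_of_finrank_pos (R := K) (by
      have : 0 < 2 ^ (k+2) := by positivity
      omega)
    obtain ⟨v, hv⟩ := exists_ne (0 : E)
    exact ⟨⟨v, hv⟩⟩
  have h1 := avg_qty A I k (by omega) hN
  set Bd := (Finset.univ : Finset (E ≃ₗ[K] E)).filter
      (fun B => BadPair ((1 / (8 * (4 * I + 1)) : ℝ) ^ 2) A B) with hBd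
  have h2 : (Bd.card : ℝ) * (1 / 2 : ℝ) ^ (2 ^ (k + 1)) ≤
      ∑ B : E ≃ₗ[K] E, qty (fx (permV A) (permV B) I) (fy (permV A) I) (2 ^ (k+1) - 1) := by
    calc (Bd.card : ℝ) * (1 / 2 : ℝ) ^ (2 ^ (k + 1)) = ∑ B ∈ Bd, (1 / 2 : ℝ) ^ (2 ^ (k + 1)) := by
          rw [Finset.sum_const, nsmul_eq_mul]
      _ ≤ ∑ B ∈ Bd, qty (fx (permV A) (permV B) I) (fy (permV A) I) (2 ^ (k+1) - 1) := by
          apply Finset.sum_le_sum
          intro B hB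
          rw [hBd, Finset.mem_filter] at hB
          exact bad_large A B I hI hB.2 k
      _ ≤ _ := by
          apply Finset.sum_le_sum_of_subset_of_nonneg (Finset.filter_subset _ _)
          intro B _ _
          exact qty_nonneg _ _ (by rw [Fintype.card_fin]; omega) k
  have h3 : (Bd.card : ℝ) * (1 / 2 : ℝ) ^ (2 ^ (k + 1)) ≤
      zeta (Fintype.card K) (finrank K E) I k (relSet A (4 * I)).card *
        Fintype.card (E ≃ₗ[K] E) := le_trans h2 h1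
  have h4 : (2 : ℝ) ^ (2 ^ (k+1)) * (1 / 2 : ℝ) ^ (2 ^ (k + 1)) = 1 := by
    rw [← mul_pow]; norm_num
  calc (Bd.card : ℝ) = (2 : ℝ) ^ (2 ^ (k+1)) * ((Bd.card : ℝ) * (1 / 2 : ℝ) ^ (2 ^ (k + 1))) := by
        rw [mul_comm (Bd.card : ℝ), ← mul_assoc, h4, one_mul]
    _ ≤ _ := mul_le_mul_of_nonneg_left h3 (by positivity)

lemma zeta_mono (q N I k κ κ' : ℕ) (h : κ ≤ κ') : zeta q N I k κ ≤ zeta q N I k κ' := by
  unfold zeta
  have h1 : (κ : ℝ) ^ 2 ≤ (κ' : ℝ) ^ 2 := by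
    apply pow_le_pow_left₀ (by positivity)
    exact_mod_cast h
  have h2 : 4 * 2 ^ (2 ^ (k+2)) * (q : ℝ) ^ (2 * 2 ^ (k+2)) * (κ : ℝ) ^ 2 / (q : ℝ) ^ N ≤
      4 * 2 ^ (2 ^ (k+2)) * (q : ℝ) ^ (2 * 2 ^ (k+2)) * (κ' : ℝ) ^ 2 / (q : ℝ) ^ N := by
    apply div_le_div_of_nonneg_right _ (by positivity)
    exact mul_le_mul_of_nonneg_left h1 (by positivity)
  have h3 : (2 : ℝ) ^ (k+2) *
      (4 * 2 ^ (2 ^ (k+2)) * (q : ℝ) ^ (2 * 2 ^ (k+2)) * (κ : ℝ) ^ 2 / (q : ℝ) ^ N) ≤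
      2 ^ (k+2) *
      (4 * 2 ^ (2 ^ (k+2)) * (q : ℝ) ^ (2 * 2 ^ (k+2)) * (κ' : ℝ) ^ 2 / (q : ℝ) ^ N) :=
    mul_le_mul_of_nonneg_left h2 (by positivity)
  linarith

/-- numerical bound for the error term -/
lemma zeta_bound (q N k : ℕ) (hq : 2 ≤ q) (h1 : N ≤ 64 * 2 ^ (k+1)) (h2 : 32 * 2 ^ (k+1) ≤ N) :
    2 ^ (2 ^ (k+1)) * zeta q N (4 * q ^ 64) k N ≤
      (4 * (q : ℝ) ^ 64 + 32772) * ((2 ^ (k+1) : ℕ) : ℝ) ^ 3 * (1 / 2) ^ (2 ^ (k+1)) := by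
  set M := 2 ^ (k+1) with hM
  have hM1 : 1 ≤ M := Nat.one_le_two_pow
  have hk2 : 2 ^ (k+2) = 2 * M := by rw [hM]; ring
  have hk2' : (2 : ℝ) ^ (k+2) = 2 * (M : ℝ) := by
    have : ((2 ^ (k+2) : ℕ) : ℝ) = ((2 * M : ℕ) : ℝ) := by rw [hk2]
    push_cast at this
    exact this
  have hqR : (2 : ℝ) ≤ q := by exact_mod_cast hq
  have hq1 : (1 : ℝ) ≤ q := by linarith
  have hq0 : (0 : ℝ) < q := by linarith
  have hMR : (1 : ℝ) ≤ (M : ℝ) := by exact_mod_cast hM1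
  unfold zeta
  rw [hk2, hk2', ← hM]
  -- basic exponential comparison
  have hexp : ∀ a : ℕ, a + M ≤ 32 * M → (q : ℝ) ^ a / (q : ℝ) ^ N ≤ (1 / 2) ^ M := by
    intro a ha
    rw [div_le_iff₀ (by positivity)]
    have e1 : (1 / 2 : ℝ) ^ M * (q : ℝ) ^ N = (1 / 2 : ℝ) ^ M * (q : ℝ) ^ M * (q : ℝ) ^ (N - M) := by
      rw [mul_assoc, ← pow_add]; congr 2; omega
    rw [e1, ← mul_pow]
    have e2 : (1 : ℝ) ≤ (1 / 2 * (q : ℝ)) ^ M := by
      apply one_le_pow₀; linarith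
    have e3 : (q : ℝ) ^ a ≤ (q : ℝ) ^ (N - M) := pow_le_pow_right₀ hq1 (by omega)
    calc (q : ℝ) ^ a ≤ (q : ℝ) ^ (N - M) := e3
      _ = 1 * (q : ℝ) ^ (N - M) := by ring
      _ ≤ (1 / 2 * (q : ℝ)) ^ M * (q : ℝ) ^ (N - M) :=
          mul_le_mul_of_nonneg_right e2 (by positivity)
  have h2M : ∀ j : ℕ, (2 : ℝ) ^ j ≤ (q : ℝ) ^ j := fun j => pow_le_pow_left₀ (by norm_num) hqR j
  -- first term
  have t1 : (2 : ℝ) ^ M * (2 * ((q : ℝ) ^ (2 * M) / (q : ℝ) ^ N)) ≤ 2 * (1 / 2) ^ M := by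
    have e1 : (2 : ℝ) ^ M * (q : ℝ) ^ (2 * M) ≤ (q : ℝ) ^ (3 * M) := by
      calc (2 : ℝ) ^ M * (q : ℝ) ^ (2 * M) ≤ (q : ℝ) ^ M * (q : ℝ) ^ (2 * M) :=
            mul_le_mul_of_nonneg_right (h2M M) (by positivity)
        _ = (q : ℝ) ^ (3 * M) := by rw [← pow_add]; congr 1; ring
    calc (2 : ℝ) ^ M * (2 * ((q : ℝ) ^ (2 * M) / (q : ℝ) ^ N))
        = 2 * (((2 : ℝ) ^ M * (q : ℝ) ^ (2 * M)) / (q : ℝ) ^ N) := by ring
      _ ≤ 2 * ((q : ℝ) ^ (3 * M) / (q : ℝ) ^ N) := by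
          apply mul_le_mul_of_nonneg_left _ (by norm_num)
          exact div_le_div_of_nonneg_right e1 (by positivity)
      _ ≤ 2 * (1 / 2) ^ M := by
          apply mul_le_mul_of_nonneg_left _ (by norm_num)
          exact hexp _ (by omega)
  -- second term
  have t2 : (2 : ℝ) ^ M * (2 * (M : ℝ) * (4 * 2 ^ (2 * M) * (q : ℝ) ^ (2 * (2 * M)) * (N : ℝ) ^ 2 /
      (q : ℝ) ^ N)) ≤ 32768 * (M : ℝ) ^ 3 * (1 / 2) ^ M := by
    have hNR : (N : ℝ) ≤ 64 * M := by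
      have : ((N : ℕ) : ℝ) ≤ ((64 * M : ℕ) : ℝ) := by exact_mod_cast h1
      push_cast at this
      exact this
    have hN2 : (N : ℝ) ^ 2 ≤ 4096 * (M : ℝ) ^ 2 := by
      calc (N : ℝ) ^ 2 ≤ (64 * (M : ℝ)) ^ 2 := pow_le_pow_left₀ (by positivity) hNR 2
        _ = 4096 * (M : ℝ) ^ 2 := by ring
    have e1 : (2 : ℝ) ^ M * (2 ^ (2 * M) * (q : ℝ) ^ (2 * (2 * M))) ≤ (q : ℝ) ^ (7 * M) := by
      calc (2 : ℝ) ^ M * (2 ^ (2 * M) * (q : ℝ) ^ (2 * (2 * M)))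
          ≤ (q : ℝ) ^ M * ((q : ℝ) ^ (2 * M) * (q : ℝ) ^ (2 * (2 * M))) := by
            apply mul_le_mul (h2M M) _ (by positivity) (by positivity)
            exact mul_le_mul_of_nonneg_right (h2M (2 * M)) (by positivity)
        _ = (q : ℝ) ^ (7 * M) := by rw [← pow_add, ← pow_add]; congr 1; ring
    have e2 := hexp (7 * M) (by omega)
    calc (2 : ℝ) ^ M * (2 * (M : ℝ) * (4 * 2 ^ (2 * M) * (q : ℝ) ^ (2 * (2 * M)) * (N : ℝ) ^ 2 /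
          (q : ℝ) ^ N))
        = (8 * (M : ℝ)) * (N : ℝ) ^ 2 *
            (((2 : ℝ) ^ M * (2 ^ (2 * M) * (q : ℝ) ^ (2 * (2 * M)))) / (q : ℝ) ^ N) := by ring
      _ ≤ (8 * (M : ℝ)) * (4096 * (M : ℝ) ^ 2) * ((q : ℝ) ^ (7 * M) / (q : ℝ) ^ N) := by
          apply mul_le_mul _ _ (by positivity) (by positivity)
          · exact mul_le_mul_of_nonneg_left hN2 (by positivity)
          · exact div_le_div_of_nonneg_right e1 (by positivity)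
      _ ≤ (8 * (M : ℝ)) * (4096 * (M : ℝ) ^ 2) * (1 / 2) ^ M :=
          mul_le_mul_of_nonneg_left e2 (by positivity)
      _ = 32768 * (M : ℝ) ^ 3 * (1 / 2) ^ M := by ring
  -- third term
  have t3 : (2 : ℝ) ^ M * ((((4 * q ^ 64 : ℕ) : ℝ) + 2) * (((4 * q ^ 64 : ℕ) : ℝ)⁻¹) ^ M *
      (q : ℝ) ^ N) ≤ (4 * (q : ℝ) ^ 64 + 2) * (1 / 2) ^ M := by
    push_cast
    have e1 : (2 : ℝ) ^ M * ((4 * (q : ℝ) ^ 64)⁻¹) ^ M * (q : ℝ) ^ N ≤ (1 / 2) ^ M := by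
      have e2 : (q : ℝ) ^ N ≤ ((q : ℝ) ^ 64) ^ M := by
        rw [← pow_mul]; exact pow_le_pow_right₀ hq1 h1
      calc (2 : ℝ) ^ M * ((4 * (q : ℝ) ^ 64)⁻¹) ^ M * (q : ℝ) ^ N
          ≤ (2 : ℝ) ^ M * ((4 * (q : ℝ) ^ 64)⁻¹) ^ M * ((q : ℝ) ^ 64) ^ M :=
            mul_le_mul_of_nonneg_left e2 (by positivity)
        _ = (2 * (4 * (q : ℝ) ^ 64)⁻¹ * (q : ℝ) ^ 64) ^ M := by rw [mul_pow, mul_pow]
        _ = (1 / 2) ^ M := by
            congr 1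
            field_simp
            norm_num
    calc (2 : ℝ) ^ M * ((4 * (q : ℝ) ^ 64 + 2) * ((4 * (q : ℝ) ^ 64)⁻¹) ^ M * (q : ℝ) ^ N)
        = (4 * (q : ℝ) ^ 64 + 2) * ((2 : ℝ) ^ M * ((4 * (q : ℝ) ^ 64)⁻¹) ^ M * (q : ℝ) ^ N) := by
          ring
      _ ≤ (4 * (q : ℝ) ^ 64 + 2) * (1 / 2) ^ M :=
          mul_le_mul_of_nonneg_left e1 (by positivity)
  have hM3 : (1 : ℝ) ≤ (M : ℝ) ^ 3 := one_le_pow₀ hMR
  have hhalf : (0 : ℝ) ≤ (1 / 2 : ℝ) ^ M := by positivity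
  have hy : (1 / 2 : ℝ) ^ M ≤ (M : ℝ) ^ 3 * (1 / 2) ^ M := by nlinarith
  have hq64 : 0 ≤ (q : ℝ) ^ 64 := by positivity
  have hfin : (4 * (q : ℝ) ^ 64 + 2) * (1 / 2) ^ M + 2 * (1 / 2) ^ M ≤
      (4 * (q : ℝ) ^ 64 + 4) * ((M : ℝ) ^ 3 * (1 / 2) ^ M) := by
    calc (4 * (q : ℝ) ^ 64 + 2) * (1 / 2) ^ M + 2 * (1 / 2) ^ M
        = (4 * (q : ℝ) ^ 64 + 4) * (1 / 2) ^ M := by ring
      _ ≤ _ := mul_le_mul_of_nonneg_left hy (by positivity)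
  calc (2 : ℝ) ^ M * (2 * ((q : ℝ) ^ (2 * M) / (q : ℝ) ^ N) +
        2 * (M : ℝ) * (4 * 2 ^ (2 * M) * (q : ℝ) ^ (2 * (2 * M)) * (N : ℝ) ^ 2 / (q : ℝ) ^ N) +
        (((4 * q ^ 64 : ℕ) : ℝ) + 2) * (((4 * q ^ 64 : ℕ) : ℝ)⁻¹) ^ M * (q : ℝ) ^ N)
      = (2 : ℝ) ^ M * (2 * ((q : ℝ) ^ (2 * M) / (q : ℝ) ^ N)) +
        (2 : ℝ) ^ M * (2 * (M : ℝ) * (4 * 2 ^ (2 * M) * (q : ℝ) ^ (2 * (2 * M)) * (N : ℝ) ^ 2 /
          (q : ℝ) ^ N)) +
        (2 : ℝ) ^ M * ((((4 * q ^ 64 : ℕ) : ℝ) + 2) * (((4 * q ^ 64 : ℕ) : ℝ)⁻¹) ^ M *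
          (q : ℝ) ^ N) := by ring
    _ ≤ 2 * (1 / 2) ^ M + 32768 * (M : ℝ) ^ 3 * (1 / 2) ^ M +
        (4 * (q : ℝ) ^ 64 + 2) * (1 / 2) ^ M := by
        exact add_le_add (add_le_add t1 t2) t3
    _ ≤ (4 * (q : ℝ) ^ 64 + 32772) * (M : ℝ) ^ 3 * (1 / 2) ^ M := by
        have : (4 * (q : ℝ) ^ 64 + 32772) * (M : ℝ) ^ 3 * (1 / 2) ^ M =
          (4 * (q : ℝ) ^ 64 + 4) * ((M : ℝ) ^ 3 * (1 / 2) ^ M) +
            32768 * (M : ℝ) ^ 3 * (1 / 2) ^ M := by ring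
        linarith

open Classical in
/-- the number of bad pairs -/
theorem card_bad (k : ℕ) (h1 : finrank K E ≤ 64 * 2 ^ (k+1)) (h2 : 32 * 2 ^ (k+1) ≤ finrank K E)
    (h3 : 32 * Fintype.card K ^ 64 < finrank K E) :
    (((Finset.univ : Finset ((E ≃ₗ[K] E) × (E ≃ₗ[K] E))).filter
      (fun p => BadPair ((1 / (8 * (4 * (4 * (Fintype.card K : ℝ) ^ 64) + 1))) ^ 2) p.1 p.2)).card : ℝ) ≤
      ((1 + 4 * (4 * (4 * (Fintype.card K : ℝ) ^ 64)) *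
          (Fintype.card K : ℝ) ^ (2 * (4 * (4 * Fintype.card K ^ 64)))) / (finrank K E) +
        (4 * (Fintype.card K : ℝ) ^ 64 + 32772) * ((2 ^ (k+1) : ℕ) : ℝ) ^ 3 *
          (1 / 2) ^ (2 ^ (k+1))) * (Fintype.card (E ≃ₗ[K] E) : ℝ) ^ 2 := by
  set q := Fintype.card K with hq
  set N := finrank K E with hN
  set G : ℝ := (Fintype.card (E ≃ₗ[K] E) : ℝ) with hG
  have hG0 : 0 ≤ G := by positivity
  have hq2 : 2 ≤ q := Fintype.one_lt_card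
  set ε : ℝ := (1 / (8 * (4 * (4 * (q : ℝ) ^ 64) + 1))) ^ 2 with hε
  have hεI : ε = (1 / (8 * (4 * ((4 * q ^ 64 : ℕ) : ℝ) + 1)) : ℝ) ^ 2 := by
    rw [hε]; push_cast; rfl
  have hN0 : 0 < N := by
    have : 0 < 2 ^ (k+1) := by positivity
    omega
  have hNR : (0 : ℝ) < N := by exact_mod_cast hN0
  have hI16 : 16 ≤ 4 * q ^ 64 := by
    have : 2 ^ 64 ≤ q ^ 64 := Nat.pow_le_pow_left hq2 64
    omega
  -- bad A's
  set X := (Finset.univ : Finset (E ≃ₗ[K] E)).filter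
    (fun A => N < (relSet A (4 * (4 * q ^ 64))).card) with hX
  have hX1 : (X.card : ℝ) * N ≤ (1 + 4 * (4 * (4 * (q : ℝ) ^ 64)) *
      (q : ℝ) ^ (2 * (4 * (4 * q ^ 64)))) * G := by
    have h4 := card_relSet_pairs (K := K) (E := E) (4 * (4 * q ^ 64)) (by rw [← hN]; omega)
    push_cast at h4
    refine le_trans ?_ h4
    calc (X.card : ℝ) * N = ∑ A ∈ X, (N : ℝ) := by rw [Finset.sum_const, nsmul_eq_mul]
      _ ≤ ∑ A ∈ X, ((relSet A (4 * (4 * q ^ 64))).card : ℝ) := by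
          apply Finset.sum_le_sum
          intro A hA
          rw [hX, Finset.mem_filter] at hA
          exact_mod_cast hA.2.le
      _ ≤ _ := by
          apply Finset.sum_le_sum_of_subset_of_nonneg (Finset.filter_subset _ _)
          intro A _ _; positivity
  have hX2 : (X.card : ℝ) ≤ (1 + 4 * (4 * (4 * (q : ℝ) ^ 64)) *
      (q : ℝ) ^ (2 * (4 * (4 * q ^ 64)))) / N * G := by
    rw [div_mul_eq_mul_div, le_div_iff₀ hNR]
    exact hX1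
  set θ : ℝ := (4 * (q : ℝ) ^ 64 + 32772) * ((2 ^ (k+1) : ℕ) : ℝ) ^ 3 * (1 / 2) ^ (2 ^ (k+1)) with hθ
  -- bad B's for each A
  set Y : (E ≃ₗ[K] E) → Finset (E ≃ₗ[K] E) := fun A =>
    (Finset.univ : Finset (E ≃ₗ[K] E)).filter (fun B => BadPair ε A B) with hY
  have hY1 : ∀ A, A ∉ X → ((Y A).card : ℝ) ≤ θ * G := by
    intro A hA
    have hA' : (relSet A (4 * (4 * q ^ 64))).card ≤ N := by
      by_contra hcon
      push Not at hcon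
      apply hA
      rw [hX, Finset.mem_filter]
      exact ⟨Finset.mem_univ _, hcon⟩
    have h5 := card_bad_B A (4 * q ^ 64) k hI16 (by
      have : 0 < 2 ^ (k+1) := by positivity
      have e : 2 ^ (k+2) = 2 * 2 ^ (k+1) := by ring
      rw [← hN]
      omega)
    rw [← hεI] at h5
    refine le_trans h5 ?_
    have h6 := zeta_mono q N (4 * q ^ 64) k _ _ hA'
    have h7 := zeta_bound q N k hq2 h1 h2
    calc (2 : ℝ) ^ (2 ^ (k+1)) * (zeta q N (4 * q ^ 64) k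
          (relSet A (4 * (4 * q ^ 64))).card * G)
        ≤ (2 : ℝ) ^ (2 ^ (k+1)) * (zeta q N (4 * q ^ 64) k N * G) := by
          apply mul_le_mul_of_nonneg_left _ (by positivity)
          exact mul_le_mul_of_nonneg_right h6 hG0
      _ = ((2 : ℝ) ^ (2 ^ (k+1)) * zeta q N (4 * q ^ 64) k N) * G := by ring
      _ ≤ θ * G := mul_le_mul_of_nonneg_right h7 hG0
  have hY2 : ∀ A, ((Y A).card : ℝ) ≤ G := by
    intro A
    rw [hG]
    exact_mod_cast Finset.card_le_univ _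
  -- total
  have hT : ((Finset.univ : Finset ((E ≃ₗ[K] E) × (E ≃ₗ[K] E))).filter
      (fun p => BadPair ε p.1 p.2)).card = ∑ A : E ≃ₗ[K] E, (Y A).card := by
    rw [← Finset.card_sigma]
    refine Finset.card_bij' (fun p _ => ⟨p.1, p.2⟩) (fun p _ => (p.1, p.2)) ?_ ?_ ?_ ?_
    · intro p hp
      rw [Finset.mem_filter] at hp
      rw [Finset.mem_sigma, hY, Finset.mem_filter]
      exact ⟨Finset.mem_univ _, Finset.mem_univ _, hp.2⟩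
    · intro p hp
      rw [Finset.mem_sigma, hY, Finset.mem_filter] at hp
      rw [Finset.mem_filter]
      exact ⟨Finset.mem_univ _, hp.2.2⟩
    · intro p _; rfl
    · intro p _; rfl
  rw [hT]
  push_cast
  have hθ0 : 0 ≤ θ := by rw [hθ]; positivity
  rw [← Finset.sum_filter_add_sum_filter_not (Finset.univ : Finset (E ≃ₗ[K] E))
      (fun A => A ∈ X)]
  have s1 : ∑ A ∈ (Finset.univ : Finset (E ≃ₗ[K] E)).filter (fun A => A ∈ X),
      ((Y A).card : ℝ) ≤ X.card * G := by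
    refine le_trans (Finset.sum_le_card_nsmul _ _ G (fun A _ => hY2 A)) ?_
    rw [nsmul_eq_mul]
    apply mul_le_mul_of_nonneg_right _ hG0
    have : ((Finset.univ : Finset (E ≃ₗ[K] E)).filter (fun A => A ∈ X)).card ≤ X.card := by
      apply Finset.card_le_card
      intro A hA
      rw [Finset.mem_filter] at hA
      exact hA.2
    exact_mod_cast this
  have s2 : ∑ A ∈ (Finset.univ : Finset (E ≃ₗ[K] E)).filter (fun A => ¬ A ∈ X),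
      ((Y A).card : ℝ) ≤ G * (θ * G) := by
    refine le_trans (Finset.sum_le_card_nsmul _ _ (θ * G) ?_) ?_
    · intro A hA
      rw [Finset.mem_filter] at hA
      exact hY1 A hA.2
    · rw [nsmul_eq_mul]
      apply mul_le_mul_of_nonneg_right _ (by positivity)
      rw [hG]
      exact_mod_cast Finset.card_le_univ _
  have s3 : (X.card : ℝ) * G ≤ (1 + 4 * (4 * (4 * (q : ℝ) ^ 64)) *
      (q : ℝ) ^ (2 * (4 * (4 * q ^ 64)))) / N * G * G := mul_le_mul_of_nonneg_right hX2 hG0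
  calc _ ≤ X.card * G + G * (θ * G) := add_le_add s1 s2
    _ ≤ (1 + 4 * (4 * (4 * (q : ℝ) ^ 64)) *
      (q : ℝ) ^ (2 * (4 * (4 * q ^ 64)))) / N * G * G + G * (θ * G) := by linarith
    _ = _ := by ring

end Bad

end H45.Gap
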