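import Mathlib

/-!
# Counting linear automorphisms with prescribed values on an independent family
-/

namespace H45.Gap

open Finset Module

set_option linter.unusedSectionVars false
set_option linter.unusedVariables false

section Frames

variable {K E : Type*} [Field K] [Fintype K] [AddCommGroup E] [Module K E] [Fintype E]

noncomputable instance instFintypeAut : Fintype (E ≃ₗ[K] E) := by
  classical
  exact Fintype.ofInjective (fun e : E ≃ₗ[K] E => (e : E → E)) (fun a b h => LinearEquiv.ext
    (fun x => congrFun h x))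

lemma exists_aut {ι : Type*} [Fintype ι] (u w : ι → E) (hu : LinearIndependent K u)
    (hw : LinearIndependent K w) : ∃ g : E ≃ₗ[K] E, ∀ i, g (u i) = w i := by
  classical
  have : FiniteDimensional K E := Module.Finite.of_finite
  obtain ⟨C, hC⟩ := Submodule.exists_isCompl (Submodule.span K (Set.range u))
  obtain ⟨D, hD⟩ := Submodule.exists_isCompl (Submodule.span K (Set.range w))
  have h1 : finrank K (Submodule.span K (Set.range u)) = Fintype.card ι :=
    finrank_span_eq_card hu
  have h2 : finrank K (Submodule.span K (Set.range w)) = Fintype.card ι :=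
    finrank_span_eq_card hw
  have h3 := Submodule.finrank_add_eq_of_isCompl hC
  have h4 := Submodule.finrank_add_eq_of_isCompl hD
  have h5 : finrank K C = finrank K D := by omega
  let eC : C ≃ₗ[K] D := LinearEquiv.ofFinrankEq C D h5
  let bu := Basis.span hu
  let bw := Basis.span hw
  let eU : Submodule.span K (Set.range u) ≃ₗ[K] Submodule.span K (Set.range w) :=
    bu.equiv bw (Equiv.refl ι)
  let g : E ≃ₗ[K] E := (Submodule.prodEquivOfIsCompl _ _ hC).symm ≪≫ₗ
    (LinearEquiv.prodCongr eU eC) ≪≫ₗ (Submodule.prodEquivOfIsCompl _ _ hD)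
  refine ⟨g, fun i => ?_⟩
  have e1 : u i = ((bu i : Submodule.span K (Set.range u)) : E) := by
    rw [Basis.span_apply hu i]
  have e2 : (Submodule.prodEquivOfIsCompl _ _ hC).symm (u i) = (bu i, 0) := by
    rw [e1]
    exact Submodule.prodEquivOfIsCompl_symm_apply_left _ _ hC (bu i)
  have e3 : eU (bu i) = bw i := by
    simp [eU]
  simp only [g, LinearEquiv.trans_apply, e2, LinearEquiv.prodCongr_apply, e3, map_zero,
    Submodule.coe_prodEquivOfIsCompl', ZeroMemClass.coe_zero, add_zero]
  show ((Basis.span hw i : Submodule.span K (Set.range w)) : E) = w i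
  rw [Basis.span_apply hw i]

open Classical in
/-- automorphisms with prescribed values -/
noncomputable def presc {ι : Type*} (u w : ι → E) : Finset (E ≃ₗ[K] E) :=
  Finset.univ.filter fun g => ∀ i, g (u i) = w i

lemma mem_presc {ι : Type*} (u w : ι → E) (g : E ≃ₗ[K] E) :
    g ∈ presc u w ↔ ∀ i, g (u i) = w i := by
  simp [presc]

lemma card_presc_le {ι : Type*} [Fintype ι] (u w w' : ι → E) (hu : LinearIndependent K u)
    (hw' : LinearIndependent K w') :
    (presc (K := K) u w).card ≤ (presc (K := K) u w').card := by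
  classical
  by_cases hne : (presc (K := K) u w).Nonempty
  · obtain ⟨g, hg⟩ := hne
    rw [mem_presc] at hg
    have hw : LinearIndependent K w := by
      have : w = g ∘ u := by funext i; rw [Function.comp_apply, hg]
      rw [this]
      exact hu.map' (g : E →ₗ[K] E) (LinearEquiv.ker g)
    obtain ⟨h, hh⟩ := exists_aut w w' hw hw'
    refine Finset.card_le_card_of_injOn (fun k => h * k) ?_ ?_
    · intro k hk
      rw [Finset.mem_coe, mem_presc] at hk
      rw [Finset.mem_coe, mem_presc]
      intro i
      rw [LinearEquiv.mul_apply, hk, hh]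
    · intro a _ b _ hab
      exact mul_left_cancel hab
  · rw [Finset.not_nonempty_iff_eq_empty] at hne
    rw [hne]; simp

/-- number of independent `d`-tuples -/
noncomputable def frames (K E : Type*) [Field K] [AddCommGroup E] [Module K E] (d : ℕ) : ℕ :=
  Nat.card {s : Fin d → E // LinearIndependent K s}

lemma card_presc_mul_frames {d : ℕ} (u w : Fin d → E) (hu : LinearIndependent K u) :
    (presc (K := K) u w).card * frames K E d ≤ Fintype.card (E ≃ₗ[K] E) := by
  classical
  have h1 : ∀ w' ∈ (Finset.univ.filter fun s : Fin d → E => LinearIndependent K s),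
      (presc (K := K) u w).card ≤ (presc (K := K) u w').card := by
    intro w' hw'
    rw [Finset.mem_filter] at hw'
    exact card_presc_le u w w' hu hw'.2
  have h2 : ∑ w' ∈ (Finset.univ.filter fun s : Fin d → E => LinearIndependent K s),
      (presc (K := K) u w').card ≤ Fintype.card (E ≃ₗ[K] E) := by
    rw [← Finset.card_biUnion]
    · exact Finset.card_le_univ _
    · intro a _ b _ hab
      rw [Function.onFun, Finset.disjoint_left]
      intro g hg hg'
      rw [mem_presc] at hg hg'
      apply hab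
      funext i
      rw [← hg i, ← hg' i]
  have h3 := Finset.sum_le_sum h1
  rw [Finset.sum_const, smul_eq_mul] at h3
  have h4 : frames K E d = (Finset.univ.filter fun s : Fin d → E => LinearIndependent K s).card := by
    unfold frames
    rw [Nat.card_eq_fintype_card, Fintype.card_subtype]
  rw [h4, mul_comm]
  exact le_trans h3 h2

lemma card_presc_mul_frames' {ι : Type*} [Fintype ι] (u w : ι → E) (hu : LinearIndependent K u) :
    (presc (K := K) u w).card * frames K E (Fintype.card ι) ≤ Fintype.card (E ≃ₗ[K] E) := by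
  classical
  let e := Fintype.equivFin ι
  have h := card_presc_mul_frames (K := K) (u ∘ e.symm) (w ∘ e.symm)
    (hu.comp _ e.symm.injective)
  refine le_trans (Nat.mul_le_mul_right _ (Finset.card_le_card ?_)) h
  intro g hg
  rw [mem_presc] at hg ⊢
  intro i
  exact hg (e.symm i)

lemma frames_ge (d : ℕ) (hd : d ≤ finrank K E) :
    ((Fintype.card K : ℝ) ^ (finrank K E)) ^ d *
      (1 - (Fintype.card K : ℝ) ^ d / (Fintype.card K : ℝ) ^ (finrank K E)) ≤ frames K E d := by
  unfold frames
  rw [card_linearIndependent hd]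
  set q : ℕ := Fintype.card K with hq
  set n := finrank K E with hn
  have hq1 : 1 < q := Fintype.one_lt_card
  have hqR : (1 : ℝ) < q := by exact_mod_cast hq1
  have main : ∀ k, k ≤ n → ((q : ℝ) ^ n) ^ k * (1 - (q : ℝ) ^ k / (q : ℝ) ^ n) ≤
      ((∏ i : Fin k, (q ^ n - q ^ (i : ℕ)) : ℕ) : ℝ) := by
    intro k
    induction k with
    | zero =>
      intro _
      simp only [pow_zero, one_mul, Finset.univ_eq_empty, Finset.prod_empty, Nat.cast_one]
      have : 0 ≤ 1 / (q : ℝ) ^ n := by positivity
      linarith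
    | succ k ih =>
      intro hk
      have ih' := ih (by omega)
      have hle : q ^ k ≤ q ^ n := Nat.pow_le_pow_right (by omega) (by omega)
      have e0 : ((∏ i : Fin (k + 1), (q ^ n - q ^ (i : ℕ)) : ℕ) : ℝ) =
          ((∏ i : Fin k, (q ^ n - q ^ (i : ℕ)) : ℕ) : ℝ) * ((q : ℝ) ^ n - (q : ℝ) ^ k) := by
        rw [Fin.prod_univ_castSucc, Nat.cast_mul, Fin.val_last, Nat.cast_sub hle, Nat.cast_pow,
          Nat.cast_pow]
        rfl
      rw [e0]
      have hqn : (0 : ℝ) < (q : ℝ) ^ n := by positivity
      have hqk : (0 : ℝ) < (q : ℝ) ^ k := by positivity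
      have hlt : (q : ℝ) ^ k < (q : ℝ) ^ n := pow_lt_pow_right₀ hqR (by omega)
      have hfac : 0 ≤ (q : ℝ) ^ n - (q : ℝ) ^ k := by linarith
      refine le_trans ?_ (mul_le_mul_of_nonneg_right ih' hfac)
      have e1 : (q : ℝ) ^ n - (q : ℝ) ^ k = (q : ℝ) ^ n * (1 - (q : ℝ) ^ k / (q : ℝ) ^ n) := by
        field_simp
      rw [e1]
      have e2 : ((q : ℝ) ^ n) ^ k * (1 - (q : ℝ) ^ k / (q : ℝ) ^ n) *
          ((q : ℝ) ^ n * (1 - (q : ℝ) ^ k / (q : ℝ) ^ n)) =
          ((q : ℝ) ^ n) ^ (k + 1) * (1 - (q : ℝ) ^ k / (q : ℝ) ^ n) ^ 2 := by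
        ring
      rw [e2]
      apply mul_le_mul_of_nonneg_left _ (by positivity)
      have e3 : (q : ℝ) ^ (k + 1) / (q : ℝ) ^ n = q * ((q : ℝ) ^ k / (q : ℝ) ^ n) := by
        rw [pow_succ]; ring
      rw [e3]
      set x := (q : ℝ) ^ k / (q : ℝ) ^ n with hx
      have hx0 : 0 ≤ x := by positivity
      have hq2 : (2 : ℝ) ≤ q := by exact_mod_cast hq1
      nlinarith
  have := main d hd
  convert this using 2

lemma frames_ge_half (d : ℕ) (hd : d < finrank K E) :
    ((Fintype.card K : ℝ) ^ (finrank K E)) ^ d ≤ 2 * frames K E d := by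
  have h := frames_ge (K := K) (E := E) d hd.le
  have hq1 : 1 < Fintype.card K := Fintype.one_lt_card
  have hq2 : (2 : ℝ) ≤ Fintype.card K := by exact_mod_cast hq1
  have h1 : (Fintype.card K : ℝ) ^ d / (Fintype.card K : ℝ) ^ (finrank K E) ≤ 1 / 2 := by
    rw [div_le_div_iff₀ (by positivity) (by norm_num), one_mul]
    calc (Fintype.card K : ℝ) ^ d * 2 ≤ (Fintype.card K : ℝ) ^ d * Fintype.card K := by
          apply mul_le_mul_of_nonneg_left hq2 (by positivity)
      _ = (Fintype.card K : ℝ) ^ (d + 1) := by rw [pow_succ]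
      _ ≤ (Fintype.card K : ℝ) ^ (finrank K E) := by
          apply pow_le_pow_right₀ (by linarith) (by omega)
  have h2 : (0 : ℝ) ≤ ((Fintype.card K : ℝ) ^ (finrank K E)) ^ d := by positivity
  nlinarith

/-- The basic counting principle. -/
lemma count_principle {Γ : Type*} [Fintype Γ] (R : Finset ((E ≃ₗ[K] E) × E))
    (code : (E ≃ₗ[K] E) × E → Γ) (u : (E ≃ₗ[K] E) × E → ℕ → E) (F : Finset ℕ)
    (hind : ∀ p ∈ R, LinearIndependent K (fun i : F => u p i))
    (hdet : ∀ p ∈ R, ∀ p' ∈ R, code p = code p' →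
      p.2 = p'.2 ∧ ∀ i ∈ F, u p i = u p' i ∧ p.1 (u p i) = p'.1 (u p' i)) :
    R.card * frames K E F.card ≤ Fintype.card Γ * Fintype.card (E ≃ₗ[K] E) := by
  classical
  have h1 : R.card = ∑ γ : Γ, (R.filter fun p => code p = γ).card := by
    rw [Finset.card_eq_sum_card_fiberwise (f := code) (t := Finset.univ)]
    intro x _; simp
  rw [h1, Finset.sum_mul]
  have h2 : ∀ γ : Γ, (R.filter fun p => code p = γ).card * frames K E F.card ≤
      Fintype.card (E ≃ₗ[K] E) := by
    intro γ
    by_cases hne : (R.filter fun p => code p = γ).Nonempty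
    · obtain ⟨p₀, hp₀⟩ := hne
      rw [Finset.mem_filter] at hp₀
      have h3 := card_presc_mul_frames' (K := K) (fun i : F => u p₀ i)
        (fun i : F => p₀.1 (u p₀ i)) (hind p₀ hp₀.1)
      rw [Fintype.card_coe] at h3
      refine le_trans (Nat.mul_le_mul_right _ ?_) h3
      refine Finset.card_le_card_of_injOn (fun p => p.1) ?_ ?_
      · intro p hp
        rw [Finset.mem_coe, Finset.mem_filter] at hp
        rw [Finset.mem_coe, mem_presc]
        intro i
        obtain ⟨_, h5⟩ := hdet p hp.1 p₀ hp₀.1 (by rw [hp.2, hp₀.2])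
        obtain ⟨h6, h7⟩ := h5 i i.2
        show p.1 (u p₀ i) = p₀.1 (u p₀ i)
        rw [← h6, h7, h6]
      · intro p hp p' hp' hpp
        rw [Finset.mem_coe, Finset.mem_filter] at hp hp'
        obtain ⟨h5, _⟩ := hdet p hp.1 p' hp'.1 (by rw [hp.2, hp'.2])
        exact Prod.ext hpp h5
    · rw [Finset.not_nonempty_iff_eq_empty] at hne
      rw [hne]; simp
  calc ∑ γ : Γ, (R.filter fun p => code p = γ).card * frames K E F.card
      ≤ ∑ γ : Γ, Fintype.card (E ≃ₗ[K] E) := Finset.sum_le_sum fun γ _ => h2 γ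
    _ = Fintype.card Γ * Fintype.card (E ≃ₗ[K] E) := by
      rw [Finset.sum_const, Finset.card_univ, smul_eq_mul]

end Frames

end H45.Gap
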