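import Pool.Agent.H45.GapCount

/-!
# An eigenfunction with extreme eigenvalue is almost invariant
-/

namespace H45.Gap

open Matrix Finset

set_option linter.unusedSectionVars false
set_option linter.unusedVariables false

section Near

variable {V : Type*} [Fintype V] [DecidableEq V]

/-- `L2` norm of a real function -/
noncomputable def nrm (f : V → ℝ) : ℝ := ‖(WithLp.toLp 2 f : EuclideanSpace ℝ V)‖

lemma nrm_sq (f : V → ℝ) : nrm f ^ 2 = ∑ v, f v ^ 2 := by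
  unfold nrm
  rw [EuclideanSpace.norm_sq_eq]
  simp

lemma nrm_nonneg (f : V → ℝ) : 0 ≤ nrm f := norm_nonneg _

lemma nrm_add (f g : V → ℝ) : nrm (fun v => f v + g v) ≤ nrm f + nrm g := by
  unfold nrm
  exact norm_add_le (WithLp.toLp 2 f : EuclideanSpace ℝ V) (WithLp.toLp 2 g)

lemma nrm_smul (t : ℝ) (f : V → ℝ) : nrm (fun v => t * f v) = |t| * nrm f := by
  unfold nrm
  have := norm_smul t (WithLp.toLp 2 f : EuclideanSpace ℝ V)
  rw [Real.norm_eq_abs] at this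
  rw [← this]
  rfl

lemma nrm_comp (g : Equiv.Perm V) (f : V → ℝ) : nrm (fun v => f (g v)) = nrm f := by
  have h : nrm (fun v => f (g v)) ^ 2 = nrm f ^ 2 := by
    rw [nrm_sq, nrm_sq]
    exact Equiv.sum_comp g (fun v => f v ^ 2)
  exact (pow_left_inj₀ (nrm_nonneg _) (nrm_nonneg _) (by norm_num)).mp h

lemma nrm_sum {ι : Type*} (s : Finset ι) (F : ι → V → ℝ) :
    nrm (fun v => ∑ i ∈ s, F i v) ≤ ∑ i ∈ s, nrm (F i) := by
  classical
  induction s using Finset.induction_on with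
  | empty =>
    simp only [Finset.sum_empty]
    have : nrm (fun _ : V => (0:ℝ)) ^ 2 = 0 := by rw [nrm_sq]; simp
    have h2 := pow_eq_zero_iff (n := 2) (by norm_num) |>.mp this
    rw [h2]
  | insert a s ha ih =>
    simp only [Finset.sum_insert ha]
    exact le_trans (nrm_add _ _) (by linarith)

/-- deviation from (signed) invariance -/
noncomputable def nd (f : V → ℝ) (g : Equiv.Perm V) (τ : ℝ) : ℝ :=
  nrm (fun v => f (g v) - τ * f v)

lemma nd_mul (f : V → ℝ) (g h : Equiv.Perm V) (τ σ : ℝ) (hτ : |τ| = 1) :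
    nd f (g * h) (τ * σ) ≤ nd f g τ + nd f h σ := by
  unfold nd
  have e : (fun v => f ((g * h) v) - τ * σ * f v) =
      fun v => (f (g (h v)) - τ * f (h v)) + (τ * (f (h v) - σ * f v)) := by
    funext v
    rw [Equiv.Perm.mul_apply]; ring
  rw [e]
  refine le_trans (nrm_add _ _) ?_
  rw [nrm_smul, hτ, one_mul]
  have := nrm_comp h (fun v => f (g v) - τ * f v)
  rw [this]

lemma nd_inv (f : V → ℝ) (g : Equiv.Perm V) (τ : ℝ) (hτ : |τ| = 1) :
    nd f g⁻¹ τ = nd f g τ := by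
  unfold nd
  rw [← nrm_comp g]
  have hh : τ * τ = 1 := by
    rw [← abs_mul_abs_self, hτ, one_mul]
  have e : (fun v => f (g⁻¹ (g v)) - τ * f (g v)) =
      fun v => (-τ) * (f (g v) - τ * f v) := by
    funext v
    have hi : g⁻¹ (g v) = v := by simp
    rw [hi]
    linear_combination - (f v) * hh
  rw [e, nrm_smul, abs_neg, hτ, one_mul]

lemma nd_one (f : V → ℝ) : nd f 1 1 = 0 := by
  unfold nd
  have : nrm (fun v => f ((1 : Equiv.Perm V) v) - 1 * f v) ^ 2 = 0 := by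
    rw [nrm_sq]; simp
  exact (pow_eq_zero_iff (n := 2) (by norm_num)).mp this

lemma nd_pow (f : V → ℝ) (g : Equiv.Perm V) (τ : ℝ) (hτ : |τ| = 1) (k : ℕ) :
    nd f (g ^ k) (τ ^ k) ≤ k * nd f g τ := by
  induction k with
  | zero => simp [nd_one]
  | succ k ih =>
    rw [pow_succ', pow_succ']
    refine le_trans (nd_mul f g (g ^ k) τ (τ ^ k) hτ) ?_
    push_cast
    linarith

lemma nd_conj (f : V → ℝ) (a b : Equiv.Perm V) (τ : ℝ) (hτ : |τ| = 1) (δ : ℝ)
    (ha : nd f a τ ≤ δ) (hb : nd f b τ ≤ δ) (k : ℕ) :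
    nd f ((a ^ (2 * k))⁻¹ * (b * a ^ (2 * k))) τ ≤ (4 * k + 1) * δ := by
  have h1 := nd_pow f a τ hτ (2 * k)
  have hp : |τ ^ (2 * k)| = 1 := by rw [abs_pow, hτ, one_pow]
  have h2 := nd_inv f (a ^ (2 * k)) (τ ^ (2 * k)) hp
  have h3 := nd_mul f b (a ^ (2 * k)) τ (τ ^ (2 * k)) hτ
  have h4 := nd_mul f (a ^ (2 * k))⁻¹ (b * a ^ (2 * k)) (τ ^ (2 * k)) (τ * τ ^ (2 * k)) hp
  have hh : τ * τ = 1 := by
    rw [← abs_mul_abs_self, hτ, one_mul]
  have e : τ ^ (2 * k) * (τ * τ ^ (2 * k)) = τ := by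
    have : τ ^ (2 * k) = 1 := by rw [pow_mul, pow_two, hh, one_pow]
    rw [this]; ring
  rw [e] at h4
  have hk : (0 : ℝ) ≤ 2 * k := by positivity
  push_cast at h1
  have h5 : (2 * (k:ℝ)) * nd f a τ ≤ (2 * k) * δ := mul_le_mul_of_nonneg_left ha hk
  calc nd f ((a ^ (2 * k))⁻¹ * (b * a ^ (2 * k))) τ ≤ _ := h4
    _ ≤ 2 * k * nd f a τ + (nd f b τ + 2 * k * nd f a τ) := by rw [h2]; linarith
    _ ≤ (4 * k + 1) * δ := by linarith

lemma near_inv (a b : Equiv.Perm V) (f : V → ℝ) (μ ε : ℝ) (hf : ∑ v, f v ^ 2 = 1)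
    (hT : ∀ v, f (a v) + f (a⁻¹ v) + f (b v) + f (b⁻¹ v) = μ * f v)
    (hμ : 4 - ε < |μ|) :
    ∃ τ : ℝ, |τ| = 1 ∧ nd f a τ ^ 2 ≤ ε ∧ nd f b τ ^ 2 ≤ ε := by
  have inv_sum : ∀ g : Equiv.Perm V, ∑ v, f (g⁻¹ v) * f v = ∑ v, f (g v) * f v := by
    intro g
    rw [← Equiv.sum_comp g (fun v => f (g⁻¹ v) * f v)]
    refine Finset.sum_congr rfl fun v _ => ?_
    have hi : g⁻¹ (g v) = v := by simp
    rw [hi, mul_comm]
  have h1 : 2 * (∑ v, f (a v) * f v) + 2 * (∑ v, f (b v) * f v) = μ := by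
    have : ∑ v, (f (a v) + f (a⁻¹ v) + f (b v) + f (b⁻¹ v)) * f v = ∑ v, μ * f v ^ 2 := by
      refine Finset.sum_congr rfl fun v _ => ?_
      rw [hT]; ring
    rw [← Finset.mul_sum, hf, mul_one] at this
    rw [← this]
    simp only [add_mul, Finset.sum_add_distrib, inv_sum]
    ring
  have ndsq : ∀ (g : Equiv.Perm V) (τ : ℝ), |τ| = 1 →
      nd f g τ ^ 2 = 2 - 2 * τ * ∑ v, f (g v) * f v := by
    intro g τ hτ
    have hh : τ * τ = 1 := by
      rw [← abs_mul_abs_self, hτ, one_mul]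
    unfold nd
    rw [nrm_sq]
    have : ∀ v, (f (g v) - τ * f v) ^ 2 = f (g v) ^ 2 - 2 * τ * (f (g v) * f v) + f v ^ 2 := by
      intro v
      linear_combination (f v ^ 2) * hh
    simp only [this]
    rw [Finset.sum_add_distrib, Finset.sum_sub_distrib, ← Finset.mul_sum, hf,
      Equiv.sum_comp g (fun v => f v ^ 2), hf]
    ring
  rcases le_total 0 μ with hpos | hneg
  · refine ⟨1, by simp, ?_, ?_⟩
    · have e1 := ndsq a 1 (by simp)
      have e2 := ndsq b 1 (by simp)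
      have := sq_nonneg (nd f b 1)
      rw [abs_of_nonneg hpos] at hμ
      linarith
    · have e1 := ndsq a 1 (by simp)
      have e2 := ndsq b 1 (by simp)
      have := sq_nonneg (nd f a 1)
      rw [abs_of_nonneg hpos] at hμ
      linarith
  · refine ⟨-1, by simp, ?_, ?_⟩
    · have e1 := ndsq a (-1) (by simp)
      have e2 := ndsq b (-1) (by simp)
      have := sq_nonneg (nd f b (-1))
      rw [abs_of_nonpos hneg] at hμ
      linarith
    · have e1 := ndsq a (-1) (by simp)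
      have e2 := ndsq b (-1) (by simp)
      have := sq_nonneg (nd f a (-1))
      rw [abs_of_nonpos hneg] at hμ
      linarith

/-- The two families of permutations used. -/
def fx (a b : Equiv.Perm V) (I : ℕ) : Fin I → Equiv.Perm V := fun i => b⁻¹ * a ^ (2 * (i : ℕ))

/-- The two families of permutations used. -/
def fy (a : Equiv.Perm V) (I : ℕ) : Fin I → Equiv.Perm V := fun i => a ^ (2 * (i : ℕ))

theorem near_large [Nonempty V] (a b : Equiv.Perm V) (I : ℕ) (hI : 16 ≤ I) (f : V → ℝ) (μ : ℝ)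
    (hf0 : ∑ v, f v = 0) (hf : ∑ v, f v ^ 2 = 1)
    (hT : ∀ v, f (a v) + f (a⁻¹ v) + f (b v) + f (b⁻¹ v) = μ * f v)
    (hμ : 4 - (1 / (8 * (4 * I + 1)) : ℝ) ^ 2 < |μ|) (k : ℕ) :
    (1 / 2 : ℝ) ^ (2 ^ (k + 1)) ≤ qty (fx a b I) (fy a I) (2 ^ (k + 1) - 1) := by
  obtain ⟨τ, hτ, ha, hb⟩ := near_inv a b f μ _ hf hT hμ
  set δ : ℝ := 1 / (8 * (4 * I + 1)) with hδ
  have hδ0 : 0 ≤ δ := by positivity
  have ha' : nd f a τ ≤ δ := by
    exact (pow_le_pow_iff_left₀ (nrm_nonneg _) hδ0 (by norm_num)).mp ha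
  have hb' : nd f b τ ≤ δ := by
    exact (pow_le_pow_iff_left₀ (nrm_nonneg _) hδ0 (by norm_num)).mp hb
  have hI0 : (0 : ℝ) < I := by
    have : (16 : ℝ) ≤ I := by exact_mod_cast hI
    linarith
  have hI16 : (16 : ℝ) ≤ I := by exact_mod_cast hI
  apply qty_large (fx a b I) (fy a I) (by rw [Fintype.card_fin]; omega) k f hf0 hf
  rw [Fintype.card_fin]
  have key : ∀ i : Fin I, nrm (fun v => f ((fx a b I i).symm (fy a I i v)) - τ * f v) ≤ 1 / 8 := by
    intro i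
    have h1 := nd_conj f a b τ hτ δ ha' hb' i
    have e : (fun v => f ((fx a b I i).symm (fy a I i v)) - τ * f v) =
        fun v => f (((a ^ (2 * (i:ℕ)))⁻¹ * (b * a ^ (2 * (i:ℕ)))) v) - τ * f v := by
      funext v
      congr 2
    rw [e]
    refine le_trans h1 ?_
    have h2 : ((i : ℕ) : ℝ) ≤ I := by exact_mod_cast i.2.le
    rw [hδ]
    rw [mul_one_div, div_le_div_iff₀ (by positivity) (by norm_num)]
    nlinarith
  have hCf : nrm (fun v => (I : ℝ)⁻¹ * ∑ i, f ((fx a b I i).symm (fy a I i v)) - τ * f v) ≤ 1 / 8 := by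
    have e : (fun v => (I : ℝ)⁻¹ * ∑ i, f ((fx a b I i).symm (fy a I i v)) - τ * f v) =
        fun v => (I : ℝ)⁻¹ * ∑ i, (f ((fx a b I i).symm (fy a I i v)) - τ * f v) := by
      funext v
      rw [Finset.sum_sub_distrib, Finset.sum_const, Finset.card_univ, Fintype.card_fin,
        nsmul_eq_mul, mul_sub, ← mul_assoc, inv_mul_cancel₀ (ne_of_gt hI0), one_mul]
    rw [e, nrm_smul]
    have h1 := nrm_sum Finset.univ
      (fun (i : Fin I) v => f ((fx a b I i).symm (fy a I i v)) - τ * f v)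
    have h2 : ∑ i : Fin I, nrm (fun v => f ((fx a b I i).symm (fy a I i v)) - τ * f v) ≤
        I * (1 / 8) := by
      have := Finset.sum_le_sum (fun i (_ : i ∈ (Finset.univ : Finset (Fin I))) => key i)
      rw [Finset.sum_const, Finset.card_univ, Fintype.card_fin, nsmul_eq_mul] at this
      exact this
    rw [abs_of_nonneg (by positivity)]
    calc (I : ℝ)⁻¹ * _ ≤ (I : ℝ)⁻¹ * (I * (1 / 8)) :=
          mul_le_mul_of_nonneg_left (le_trans h1 h2) (by positivity)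
      _ = 1 / 8 := by rw [← mul_assoc, inv_mul_cancel₀ (ne_of_gt hI0), one_mul]
  have hnf : nrm f = 1 := by
    have : nrm f ^ 2 = 1 := by rw [nrm_sq, hf]
    nlinarith [nrm_nonneg f]
  have hge : 7 / 8 ≤ nrm (fun v => (I : ℝ)⁻¹ * ∑ i, f ((fx a b I i).symm (fy a I i v))) := by
    have h1 := nrm_add (fun v => (I : ℝ)⁻¹ * ∑ i, f ((fx a b I i).symm (fy a I i v)))
      (fun v => (-1) * ((I : ℝ)⁻¹ * ∑ i, f ((fx a b I i).symm (fy a I i v)) - τ * f v))
    have e : (fun v => (I : ℝ)⁻¹ * ∑ i, f ((fx a b I i).symm (fy a I i v)) +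
        (-1) * ((I : ℝ)⁻¹ * ∑ i, f ((fx a b I i).symm (fy a I i v)) - τ * f v)) =
        fun v => τ * f v := by
      funext v; ring
    have h2 := nrm_smul (-1) (fun v => ((I : ℝ)⁻¹ * ∑ i, f ((fx a b I i).symm (fy a I i v)) - τ * f v))
    rw [e, h2, nrm_smul τ, hτ, hnf] at h1
    simp only [abs_neg, abs_one, one_mul, mul_one] at h1
    linarith
  have hsq := nrm_sq (fun v => (I : ℝ)⁻¹ * ∑ i, f ((fx a b I i).symm (fy a I i v)))
  rw [← hsq]
  have h1 : (I : ℝ)⁻¹ ≤ 1 / 16 := by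
    rw [inv_eq_one_div]
    exact one_div_le_one_div_of_le (by norm_num) hI16
  have h2 : 0 ≤ (I : ℝ)⁻¹ := by positivity
  have h3 : (I : ℝ)⁻¹ * (1 - (I : ℝ)⁻¹) ≤ 1 / 16 := by nlinarith
  have h4 : 0 ≤ (I : ℝ)⁻¹ * (1 - (I : ℝ)⁻¹) := by
    apply mul_nonneg h2; linarith
  nlinarith

end Near

end H45.Gap
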