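import Pool.Agent.H45.GapFrames

/-!
# Independence patterns of sequences of vectors
-/

namespace H45.Gap

open Finset Module

set_option linter.unusedSectionVars false
set_option linter.unusedVariables false

section Pat

variable {K E : Type*} [Field K] [AddCommGroup E] [Module K E]

/-- span of the first `j` vectors -/
def sp (K : Type*) {E : Type*} [Field K] [AddCommGroup E] [Module K E] (u : ℕ → E) (j : ℕ) :
    Submodule K E :=
  Submodule.span K (u '' (Finset.range j : Set ℕ))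

lemma mem_sp (u : ℕ → E) (j : ℕ) (x : E) :
    x ∈ sp K u j ↔ ∃ c : ℕ → K, ∑ i ∈ Finset.range j, c i • u i = x :=
  Submodule.mem_span_image_finset_iff_exists_fun' K

lemma sp_mono (u : ℕ → E) {i j : ℕ} (h : i ≤ j) : sp K u i ≤ sp K u j := by
  apply Submodule.span_mono
  apply Set.image_mono
  intro x hx
  simp only [Finset.coe_range, Set.mem_Iio] at hx ⊢
  omega

lemma mem_sp_self (u : ℕ → E) {i j : ℕ} (h : i < j) : u i ∈ sp K u j := by
  apply Submodule.subset_span
  exact ⟨i, by simpa using h, rfl⟩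

lemma sp_zero (u : ℕ → E) : sp K u 0 = ⊥ := by
  unfold sp; simp

lemma sp_succ (u : ℕ → E) (n : ℕ) : sp K u (n + 1) = sp K u n ⊔ Submodule.span K {u n} := by
  unfold sp
  rw [← Submodule.span_union]
  congr 1
  rw [Finset.range_add_one, Finset.coe_insert, Set.image_insert_eq, Set.union_singleton]

lemma sp_succ_of_mem (u : ℕ → E) (n : ℕ) (h : u n ∈ sp K u n) : sp K u (n + 1) = sp K u n := by
  rw [sp_succ, sup_eq_left, Submodule.span_singleton_le_iff_mem]
  exact h

lemma sp_congr (u u' : ℕ → E) (j : ℕ) (h : ∀ i < j, u i = u' i) : sp K u j = sp K u' j := by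
  unfold sp
  congr 1
  apply Set.image_congr
  intro a ha
  exact h a (by simpa using ha)

open Classical in
/-- the pattern of a sequence -/
noncomputable def pat (K : Type*) {E : Type*} [Field K] [AddCommGroup E] [Module K E]
    (u : ℕ → E) (n : ℕ) : Finset ℕ :=
  (Finset.range n).filter fun j => u j ∉ sp K u j

lemma mem_pat (u : ℕ → E) (n j : ℕ) : j ∈ pat K u n ↔ j < n ∧ u j ∉ sp K u j := by
  simp [pat]

lemma pat_succ_mem (u : ℕ → E) (n : ℕ) (h : u n ∈ sp K u n) : pat K u (n + 1) = pat K u n := by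
  ext j
  rw [mem_pat, mem_pat]
  constructor
  · rintro ⟨h1, h2⟩
    refine ⟨?_, h2⟩
    rcases Nat.lt_succ_iff_lt_or_eq.mp h1 with h3 | h3
    · exact h3
    · subst h3; exact absurd h h2
  · rintro ⟨h1, h2⟩
    exact ⟨by omega, h2⟩

lemma pat_succ_not_mem (u : ℕ → E) (n : ℕ) (h : u n ∉ sp K u n) :
    pat K u (n + 1) = insert n (pat K u n) := by
  ext j
  rw [Finset.mem_insert, mem_pat, mem_pat]
  constructor
  · rintro ⟨h1, h2⟩
    rcases Nat.lt_succ_iff_lt_or_eq.mp h1 with h3 | h3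
    · exact Or.inr ⟨h3, h2⟩
    · exact Or.inl h3
  · rintro (h1 | ⟨h1, h2⟩)
    · subst h1; exact ⟨by omega, h⟩
    · exact ⟨by omega, h2⟩

lemma pat_spec (u : ℕ → E) (n : ℕ) :
    LinearIndepOn K u (pat K u n : Set ℕ) ∧
      Submodule.span K (u '' (pat K u n : Set ℕ)) = sp K u n := by
  induction n with
  | zero =>
    have : pat K u 0 = ∅ := by
      ext j; rw [mem_pat]; simp
    rw [this, sp_zero]
    simp
  | succ n ih =>
    by_cases h : u n ∈ sp K u n
    · rw [pat_succ_mem u n h, sp_succ_of_mem u n h]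
      exact ih
    · rw [pat_succ_not_mem u n h, Finset.coe_insert]
      constructor
      · apply LinearIndepOn.insert ih.1
        rw [ih.2]; exact h
      · rw [Set.image_insert_eq, Submodule.span_insert, ih.2, sp_succ, sup_comm]

lemma pat_indep (u : ℕ → E) (n : ℕ) :
    LinearIndependent K (fun i : (pat K u n) => u i) := (pat_spec u n).1

lemma pat_card (u : ℕ → E) (n : ℕ) : finrank K (sp K u n) = (pat K u n).card := by
  rw [← (pat_spec u n).2]
  have h2 := finrank_span_eq_card (pat_indep (K := K) u n)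
  rw [Fintype.card_coe] at h2
  rw [← h2, Set.image_eq_range]
  rfl

lemma pat_eq_range (u : ℕ → E) (n : ℕ) (h : ∀ i < n, u i ∉ sp K u i) :
    pat K u n = Finset.range n := by
  ext j
  rw [mem_pat, Finset.mem_range]
  exact ⟨fun h => h.1, fun hj => ⟨hj, h j hj⟩⟩

lemma sp_eq_of_span (u : ℕ → E) (d n : ℕ) (hdn : d ≤ n) (h : ∀ j, d ≤ j → j < n → u j ∈ sp K u j) :
    sp K u n = sp K u d := by
  induction n with
  | zero =>
    have : d = 0 := by omega
    subst this; rfl
  | succ n ih =>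
    rcases Nat.lt_or_ge n d with h1 | h1
    · have : d = n + 1 := by omega
      subst this; rfl
    · rw [sp_succ_of_mem u n (h n h1 (by omega))]
      exact ih h1 (fun j hj hj' => h j hj (by omega))

end Pat

section Krylov

variable {K E : Type*} [Field K] [Fintype K] [AddCommGroup E] [Module K E] [Fintype E]

open Classical in
/-- vectors satisfying a short relation under `A` -/
noncomputable def relSet (A : E ≃ₗ[K] E) (L : ℕ) : Finset E :=
  Finset.univ.filter fun v => ∃ c : ℤ → K, (∃ k ∈ Finset.Icc (-(L : ℤ)) L, c k ≠ 0) ∧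
    ∑ k ∈ Finset.Icc (-(L : ℤ)) L, c k • (A ^ k) v = 0

lemma mem_relSet (A : E ≃ₗ[K] E) (L : ℕ) (v : E) :
    v ∈ relSet A L ↔ ∃ c : ℤ → K, (∃ k ∈ Finset.Icc (-(L : ℤ)) L, c k ≠ 0) ∧
    ∑ k ∈ Finset.Icc (-(L : ℤ)) L, c k • (A ^ k) v = 0 := by
  simp [relSet]

lemma relSet_krylov (A : E ≃ₗ[K] E) (L : ℕ) (v : E) (hv : v ∈ relSet A L) :
    ∃ k ≤ 2 * L, (A ^ k) ((A ^ (-(L : ℤ))) v) ∈ sp K (fun i => (A ^ i) ((A ^ (-(L : ℤ))) v)) k := by
  rw [mem_relSet] at hv
  obtain ⟨c, ⟨k₀, hk₀, hc⟩, hsum⟩ := hv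
  set w := (A ^ (-(L : ℤ))) v with hw
  -- reindex the relation
  have h1 : ∑ i ∈ Finset.range (2 * L + 1), c ((i : ℤ) - L) • (A ^ i) w = 0 := by
    rw [← hsum]
    refine Finset.sum_nbij' (fun i : ℕ => (i : ℤ) - L) (fun k : ℤ => (k + L).toNat) ?_ ?_ ?_ ?_ ?_
    · intro i hi
      rw [Finset.mem_range] at hi
      rw [Finset.mem_Icc]; constructor <;> omega
    · intro k hk
      rw [Finset.mem_Icc] at hk
      rw [Finset.mem_range]; omega
    · intro i hi; simp
    · intro k hk
      rw [Finset.mem_Icc] at hk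
      omega
    · intro i hi
      congr 1
      rw [hw, ← LinearEquiv.mul_apply, ← zpow_natCast, ← zpow_add]
      congr 2
  by_contra hcon
  push Not at hcon
  have h2 : pat K (fun i => (A ^ i) w) (2 * L + 1) = Finset.range (2 * L + 1) :=
    pat_eq_range _ _ (fun i hi => hcon i (by omega))
  have h3 := (pat_spec (K := K) (fun i => (A ^ i) w) (2 * L + 1)).1
  rw [h2] at h3
  rw [linearIndepOn_finset_iff] at h3
  have h4 := h3 (fun i => c ((i : ℤ) - L)) h1
  rw [Finset.mem_Icc] at hk₀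
  apply hc
  have h5 := h4 (k₀ + L).toNat (by rw [Finset.mem_range]; omega)
  have h6 : (((k₀ + L).toNat : ℤ) - L) = k₀ := by omega
  rw [h6] at h5
  exact h5

open Classical in
/-- first dependence at `k` -/
noncomputable def firstDep (K E : Type*) [Field K] [Fintype K] [AddCommGroup E] [Module K E]
    [Fintype E] (k : ℕ) : Finset ((E ≃ₗ[K] E) × E) :=
  Finset.univ.filter fun p => (∀ i < k, (p.1 ^ i) p.2 ∉ sp K (fun i => (p.1 ^ i) p.2) i) ∧
    (p.1 ^ k) p.2 ∈ sp K (fun i => (p.1 ^ i) p.2) k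

lemma mem_firstDep (k : ℕ) (p : (E ≃ₗ[K] E) × E) :
    p ∈ firstDep K E k ↔ (∀ i < k, (p.1 ^ i) p.2 ∉ sp K (fun i => (p.1 ^ i) p.2) i) ∧
    (p.1 ^ k) p.2 ∈ sp K (fun i => (p.1 ^ i) p.2) k := by
  simp [firstDep]

lemma card_firstDep_zero :
    (firstDep K E 0).card ≤ Fintype.card (E ≃ₗ[K] E) := by
  classical
  refine le_trans (Finset.card_le_card_of_injOn (t := Finset.univ) (fun p => p.1) ?_ ?_)
    (le_of_eq Finset.card_univ)
  · intro p _; simp
  · intro p hp p' hp' h
    rw [Finset.mem_coe, mem_firstDep, sp_zero, Submodule.mem_bot] at hp hp'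
    simp only [pow_zero, LinearEquiv.coe_one, id_eq] at hp hp'
    exact Prod.ext h (by rw [hp.2, hp'.2])

lemma card_firstDep (k : ℕ) (hk : 0 < k) (hkN : k < finrank K E) :
    ((firstDep K E k).card : ℝ) ≤ 2 * (Fintype.card K : ℝ) ^ k * Fintype.card (E ≃ₗ[K] E) := by
  classical
  have hex : ∀ p : (E ≃ₗ[K] E) × E, ∃ c : ℕ → K,
      (p.1 ^ k) p.2 ∈ sp K (fun i => (p.1 ^ i) p.2) k →
      ∑ i ∈ Finset.range k, c i • (p.1 ^ i) p.2 = (p.1 ^ k) p.2 := by
    intro p
    by_cases h : (p.1 ^ k) p.2 ∈ sp K (fun i => (p.1 ^ i) p.2) k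
    · obtain ⟨c, hc⟩ := (mem_sp _ _ _).mp h
      exact ⟨c, fun _ => hc⟩
    · exact ⟨0, fun h' => absurd h' h⟩
  choose c hc using hex
  have hcount := count_principle (K := K) (E := E) (Γ := (Fin k → E) × (Fin k → K))
    (firstDep K E k) (fun p => (fun i => (p.1 ^ (i:ℕ)) p.2, fun i => c p i))
    (fun p i => (p.1 ^ i) p.2) (Finset.range k) ?_ ?_
  · rw [Finset.card_range, Fintype.card_prod, Fintype.card_fun, Fintype.card_fun,
      Fintype.card_fin, Module.card_eq_pow_finrank (K := K) (V := E)] at hcount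
    have hh := frames_ge_half (K := K) (E := E) k hkN
    have hcR : ((firstDep K E k).card : ℝ) * frames K E k ≤
        ((((Fintype.card K : ℝ) ^ finrank K E) ^ k) * (Fintype.card K : ℝ) ^ k) *
          Fintype.card (E ≃ₗ[K] E) := by
      exact_mod_cast hcount
    have hq : (0 : ℝ) < Fintype.card K := by exact_mod_cast Fintype.card_pos
    have hQ : (0 : ℝ) < ((Fintype.card K : ℝ) ^ finrank K E) ^ k := by positivity
    have h1 : ((Fintype.card K : ℝ) ^ finrank K E) ^ k * (firstDep K E k).card ≤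
        ((Fintype.card K : ℝ) ^ finrank K E) ^ k *
          (2 * (Fintype.card K : ℝ) ^ k * Fintype.card (E ≃ₗ[K] E)) := by
      calc ((Fintype.card K : ℝ) ^ finrank K E) ^ k * (firstDep K E k).card
          ≤ (2 * frames K E k) * (firstDep K E k).card :=
            mul_le_mul_of_nonneg_right hh (by positivity)
        _ = 2 * ((firstDep K E k).card * frames K E k) := by ring
        _ ≤ 2 * (((((Fintype.card K : ℝ) ^ finrank K E) ^ k) * (Fintype.card K : ℝ) ^ k) *
          Fintype.card (E ≃ₗ[K] E)) := by linarith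
        _ = _ := by ring
    exact le_of_mul_le_mul_left h1 hQ
  · intro p hp
    rw [mem_firstDep] at hp
    have h2 : pat K (fun i => (p.1 ^ i) p.2) k = Finset.range k := pat_eq_range _ _ hp.1
    have h3 := pat_indep (K := K) (fun i => (p.1 ^ i) p.2) k
    rwa [h2] at h3
  · intro p hp p' hp' hcode
    rw [mem_firstDep] at hp hp'
    rw [Prod.mk.injEq] at hcode
    obtain ⟨hc1, hc2⟩ := hcode
    have e1 : ∀ i < k, (p.1 ^ i) p.2 = (p'.1 ^ i) p'.2 := fun i hi => congrFun hc1 ⟨i, hi⟩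
    have e2 : ∀ i < k, c p i = c p' i := fun i hi => congrFun hc2 ⟨i, hi⟩
    have e3 : (p.1 ^ k) p.2 = (p'.1 ^ k) p'.2 := by
      rw [← hc p hp.2, ← hc p' hp'.2]
      refine Finset.sum_congr rfl fun i hi => ?_
      rw [Finset.mem_range] at hi
      rw [e1 i hi, e2 i hi]
    have e4 : ∀ i ≤ k, (p.1 ^ i) p.2 = (p'.1 ^ i) p'.2 := by
      intro i hi
      rcases Nat.lt_or_eq_of_le hi with h | h
      · exact e1 i h
      · rw [h]; exact e3
    refine ⟨by simpa using e4 0 (by omega), fun i hi => ?_⟩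
    rw [Finset.mem_range] at hi
    refine ⟨e4 i hi.le, ?_⟩
    have := e4 (i + 1) (by omega)
    rw [pow_succ', pow_succ', LinearEquiv.mul_apply, LinearEquiv.mul_apply] at this
    exact this

lemma card_relSet_pairs (L : ℕ) (hN : 2 * L < finrank K E) :
    (∑ A : E ≃ₗ[K] E, ((relSet A L).card : ℝ)) ≤
      (1 + 4 * L * (Fintype.card K : ℝ) ^ (2 * L)) * Fintype.card (E ≃ₗ[K] E) := by
  classical
  have h1 : ∑ A : E ≃ₗ[K] E, (relSet A L).card ≤
      ∑ k ∈ Finset.range (2 * L + 1), (firstDep K E k).card := by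
    rw [← Finset.card_sigma]
    refine le_trans ?_ Finset.card_biUnion_le
    refine Finset.card_le_card_of_injOn (fun p => (p.1, (p.1 ^ (-(L : ℤ))) p.2)) ?_ ?_
    · intro p hp
      rw [Finset.mem_coe, Finset.mem_sigma] at hp
      obtain ⟨k, hk, hk2⟩ := relSet_krylov p.1 L p.2 hp.2
      rw [Finset.mem_coe, Finset.mem_biUnion]
      have hex : ∃ k, (p.1 ^ k) ((p.1 ^ (-(L : ℤ))) p.2) ∈
          sp K (fun i => (p.1 ^ i) ((p.1 ^ (-(L : ℤ))) p.2)) k := ⟨k, hk2⟩
      refine ⟨Nat.find hex, ?_, ?_⟩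
      · rw [Finset.mem_range]
        have := Nat.find_min' hex hk2
        omega
      · rw [mem_firstDep]
        exact ⟨fun i hi => Nat.find_min hex hi, Nat.find_spec hex⟩
    · intro p _ p' _ h
      simp only [Prod.mk.injEq] at h
      obtain ⟨h2, h3⟩ := h
      cases p with
      | mk A v =>
        cases p' with
        | mk A' v' =>
          simp only at h2 h3
          subst h2
          have := (A ^ (-(L : ℤ))).injective h3
          subst this; rfl
  have h2 : ∀ k ∈ Finset.range (2 * L), ((firstDep K E (k + 1)).card : ℝ) ≤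
      2 * (Fintype.card K : ℝ) ^ (2 * L) * Fintype.card (E ≃ₗ[K] E) := by
    intro k hk
    rw [Finset.mem_range] at hk
    refine le_trans (card_firstDep (k + 1) (by omega) (by omega)) ?_
    have hq1 : (1 : ℝ) ≤ Fintype.card K := by exact_mod_cast Fintype.card_pos
    have : (Fintype.card K : ℝ) ^ (k + 1) ≤ (Fintype.card K : ℝ) ^ (2 * L) :=
      pow_le_pow_right₀ hq1 (by omega)
    have h0 : (0 : ℝ) ≤ Fintype.card (E ≃ₗ[K] E) := by positivity
    nlinarith
  have h3 : ((∑ A : E ≃ₗ[K] E, (relSet A L).card : ℕ) : ℝ) ≤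
      ((∑ k ∈ Finset.range (2 * L + 1), (firstDep K E k).card : ℕ) : ℝ) := by exact_mod_cast h1
  push_cast at h3
  refine le_trans h3 ?_
  rw [Finset.sum_range_succ']
  have h4 := Finset.sum_le_sum h2
  rw [Finset.sum_const, Finset.card_range, nsmul_eq_mul] at h4
  have h5 : ((firstDep K E 0).card : ℝ) ≤ Fintype.card (E ≃ₗ[K] E) := by
    exact_mod_cast card_firstDep_zero
  push_cast at h4
  nlinarith

end Krylov

end H45.Gap
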