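import Pool.Agent.H45.GapPat

/-!
# Closed paths and the determination lemma
-/

namespace H45.Gap

open Finset Module

set_option linter.unusedSectionVars false
set_option linter.unusedVariables false

section Path

variable {K E : Type*} [Field K] [AddCommGroup E] [Module K E]

/-- one step of the word -/
noncomputable def stp (A B : E ≃ₗ[K] E) (l : ℕ → ℤ) (j : ℕ) : E ≃ₗ[K] E :=
  if Even j then B⁻¹ * A ^ (l j) * B else A ^ (l j)

/-- the path of a pair `(B, x)` -/
noncomputable def pth (A : E ≃ₗ[K] E) (l : ℕ → ℤ) (p : (E ≃ₗ[K] E) × E) : ℕ → E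
  | 0 => p.2
  | (j+1) => stp A p.1 l j (pth A l p j)

variable (A : E ≃ₗ[K] E) (l : ℕ → ℤ)

lemma pth_zero (p : (E ≃ₗ[K] E) × E) : pth A l p 0 = p.2 := rfl

lemma pth_even (p : (E ≃ₗ[K] E) × E) (j : ℕ) (h : Even j) :
    p.1 (pth A l p (j+1)) = (A ^ (l j)) (p.1 (pth A l p j)) := by
  rw [pth, stp, if_pos h]
  simp [LinearEquiv.mul_apply]

lemma pth_odd (p : (E ≃ₗ[K] E) × E) (j : ℕ) (h : ¬ Even j) :
    pth A l p (j+1) = (A ^ (l j)) (pth A l p j) := by
  rw [pth, stp, if_neg h]

/-- free coordinates -/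
noncomputable def zz (p : (E ≃ₗ[K] E) × E) (j : ℕ) : E :=
  if Even j then p.1 (pth A l p j) else pth A l p j

lemma zz_even (p : (E ≃ₗ[K] E) × E) (j : ℕ) (h : Even j) : zz A l p j = p.1 (pth A l p j) := by
  rw [zz, if_pos h]

lemma zz_odd (p : (E ≃ₗ[K] E) × E) (j : ℕ) (h : ¬ Even j) : zz A l p j = pth A l p j := by
  rw [zz, if_neg h]

/-- two pairs agree at time `i` -/
def Agr (p p' : (E ≃ₗ[K] E) × E) (i : ℕ) : Prop :=
  pth A l p i = pth A l p' i ∧ p.1 (pth A l p i) = p'.1 (pth A l p' i)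

lemma agr_zero (p p' : (E ≃ₗ[K] E) × E) (h0 : p.2 = p'.2) (hz : zz A l p 0 = zz A l p' 0) :
    Agr A l p p' 0 := by
  rw [zz_even A l p 0 (by simp), zz_even A l p' 0 (by simp)] at hz
  exact ⟨h0, hz⟩

lemma agr_sp (p p' : (E ≃ₗ[K] E) × E) (j : ℕ) (h : ∀ i < j, Agr A l p p' i) (x : E)
    (hx : x ∈ sp K (pth A l p) j) : p.1 x = p'.1 x := by
  obtain ⟨c, hc⟩ := (mem_sp _ _ _).mp hx
  rw [← hc, map_sum, map_sum]
  refine Finset.sum_congr rfl fun i hi => ?_
  rw [Finset.mem_range] at hi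
  rw [map_smul, map_smul, (h i hi).2, (h i hi).1]

lemma agr_step (p p' : (E ≃ₗ[K] E) × E) (j : ℕ) (h0 : p.2 = p'.2) (h : ∀ i < j, Agr A l p p' i)
    (hj : zz A l p j = zz A l p' j ∨
      (pth A l p j ∈ sp K (pth A l p) j ∧ pth A l p' j ∈ sp K (pth A l p') j)) :
    Agr A l p p' j := by
  have hsp : sp K (pth A l p) j = sp K (pth A l p') j := sp_congr _ _ _ (fun i hi => (h i hi).1)
  have hB := agr_sp A l p p' j h
  by_cases hev : Even j
  · have hu : pth A l p j = pth A l p' j := by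
      cases j with
      | zero => exact h0
      | succ i =>
        have hi : ¬ Even i := by
          rw [Nat.even_add_one] at hev; exact hev
        rw [pth_odd A l p i hi, pth_odd A l p' i hi, (h i (by omega)).1]
    refine ⟨hu, ?_⟩
    rcases hj with hj | ⟨hj, hj'⟩
    · rwa [zz_even A l p j hev, zz_even A l p' j hev] at hj
    · rw [hB _ hj, hu]
  · cases j with
    | zero => simp at hev
    | succ i =>
      have hi : Even i := by
        rw [Nat.even_add_one, not_not] at hev; exact hev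
      have hw : p.1 (pth A l p (i+1)) = p'.1 (pth A l p' (i+1)) := by
        rw [pth_even A l p i hi, pth_even A l p' i hi, (h i (by omega)).2]
      rcases hj with hj | ⟨hj, hj'⟩
      · rw [zz_odd A l p _ hev, zz_odd A l p' _ hev] at hj
        exact ⟨hj, hw⟩
      · refine ⟨?_, hw⟩
        rw [← hsp] at hj'
        have h2 := hB _ hj'
        rw [← h2] at hw
        exact p.1.injective hw

lemma agr_det (p p' : (E ≃ₗ[K] E) × E) (m n : ℕ) (h0 : p.2 = p'.2)
    (hm : ∀ i < m, Agr A l p p' i)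
    (h : ∀ j, m ≤ j → j < n → (zz A l p j = zz A l p' j ∨
      (pth A l p j ∈ sp K (pth A l p) j ∧ pth A l p' j ∈ sp K (pth A l p') j))) :
    ∀ j < n, Agr A l p p' j := by
  intro j
  induction j using Nat.strong_induction_on with
  | _ j ih =>
    intro hj
    rcases Nat.lt_or_ge j m with h1 | h1
    · exact hm j h1
    · exact agr_step A l p p' j h0 (fun i hi => ih i hi (by omega)) (h j h1 hj)

/-- the operator `A ^ t - g`. -/
noncomputable def opM (t : ℤ) (g : K) : E →ₗ[K] E :=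
  ((A ^ t : E ≃ₗ[K] E) : E →ₗ[K] E) - g • LinearMap.id

lemma opM_apply (t : ℤ) (g : K) (v : E) : opM A t g v = (A ^ t) v - g • v := rfl

/-- the relation at a coincidence, in terms of the free coordinate. -/
lemma zz_rel (p : (E ≃ₗ[K] E) × E) (j : ℕ) (g : ℕ → K)
    (hg : ∑ i ∈ Finset.range (j+1), g i • pth A l p i = pth A l p (j+1)) :
    opM A (l j) (g j) (zz A l p j) =
      ∑ i ∈ Finset.range j, g i • (if Even j then p.1 (pth A l p i) else pth A l p i) := by
  rw [opM_apply]
  by_cases hev : Even j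
  · simp only [if_pos hev]
    rw [zz_even A l p j hev, ← pth_even A l p j hev, ← hg, Finset.sum_range_succ, map_add,
      map_smul, map_sum, add_sub_cancel_right]
    refine Finset.sum_congr rfl fun i _ => ?_
    rw [map_smul]
  · simp only [if_neg hev]
    rw [zz_odd A l p j hev, ← pth_odd A l p j hev, ← hg, Finset.sum_range_succ,
      add_sub_cancel_right]

lemma zz_rel_agr (p p' : (E ≃ₗ[K] E) × E) (j : ℕ) (g : ℕ → K)
    (h : ∀ i < j, Agr A l p p' i)
    (hg : ∑ i ∈ Finset.range (j+1), g i • pth A l p i = pth A l p (j+1))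
    (hg' : ∑ i ∈ Finset.range (j+1), g i • pth A l p' i = pth A l p' (j+1)) :
    opM A (l j) (g j) (zz A l p j) = opM A (l j) (g j) (zz A l p' j) := by
  rw [zz_rel A l p j g hg, zz_rel A l p' j g hg']
  refine Finset.sum_congr rfl fun i hi => ?_
  rw [Finset.mem_range] at hi
  rw [(h i hi).2, (h i hi).1]

end Path

section Code

variable {K E : Type*} [Field K] [AddCommGroup E] [Module K E]

open Classical in
/-- a section of a map -/
noncomputable def sec (M : E →ₗ[K] E) (y : E) : E := if h : ∃ x, M x = y then h.choose else 0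

lemma sec_spec (M : E →ₗ[K] E) (x : E) : M (sec M (M x)) = M x := by
  unfold sec
  have h : ∃ z, M z = M x := ⟨x, rfl⟩
  rw [dif_pos h]
  exact h.choose_spec

/-- kernel component -/
noncomputable def kc (M : E →ₗ[K] E) (z : E) : E := z - sec M (M z)

lemma kc_mem (M : E →ₗ[K] E) (z : E) : M (kc M z) = 0 := by
  unfold kc
  rw [map_sub, sec_spec, sub_self]

lemma kc_inj (M : E →ₗ[K] E) (z z' : E) (h : M z = M z') (hk : kc M z = kc M z') : z = z' := by
  unfold kc at hk
  rw [h] at hk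
  exact sub_left_injective hk

end Code

section Rel

variable {K E : Type*} [Field K] [Fintype K] [AddCommGroup E] [Module K E] [Fintype E]

lemma relSet_of (A : E ≃ₗ[K] E) (L : ℕ) (v : E) (c : ℤ →₀ K)
    (hs : ∀ k ∈ c.support, |k| ≤ L) (k₀ : ℤ) (hk₀ : c k₀ ≠ 0)
    (h : Finsupp.linearCombination K (fun k : ℤ => (A ^ k) v) c = 0) : v ∈ relSet A L := by
  rw [mem_relSet]
  have hk : ∀ k ∈ c.support, k ∈ Finset.Icc (-(L : ℤ)) L := by
    intro k hk
    rw [Finset.mem_Icc]
    exact abs_le.mp (hs k hk)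
  refine ⟨c, ⟨k₀, hk k₀ (Finsupp.mem_support_iff.mpr hk₀), hk₀⟩, ?_⟩
  rw [← h, Finsupp.linearCombination_apply, Finsupp.sum]
  symm
  apply Finset.sum_subset hk
  intro k _ hk'
  rw [Finsupp.notMem_support_iff] at hk'
  rw [hk', zero_smul]

lemma zero_mem_relSet (A : E ≃ₗ[K] E) (L : ℕ) : (0 : E) ∈ relSet A L := by
  apply relSet_of A L 0 (Finsupp.single 0 1) _ 0 (by simp) (by simp)
  intro k hk
  rw [Finsupp.mem_support_iff, Finsupp.single_apply] at hk
  by_cases h : (0 : ℤ) = k
  · rw [← h]; simp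
  · rw [if_neg h] at hk; exact absurd rfl hk

lemma relSet_of_opM (A : E ≃ₗ[K] E) (L : ℕ) (t : ℤ) (g : K) (ht : t ≠ 0) (htL : |t| ≤ L) (v : E)
    (h : opM A t g v = 0) : v ∈ relSet A L := by
  apply relSet_of A L v (Finsupp.single t 1 - Finsupp.single 0 g) _ t
  · simp [ht.symm]
  · rw [map_sub, Finsupp.linearCombination_single, Finsupp.linearCombination_single, one_smul]
    rw [opM_apply] at h
    simpa using h
  · intro k hk
    rw [Finsupp.mem_support_iff, Finsupp.sub_apply, Finsupp.single_apply, Finsupp.single_apply] at hk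
    by_cases h1 : t = k
    · rw [← h1]; exact htL
    · by_cases h2 : (0 : ℤ) = k
      · rw [← h2]; simp
      · rw [if_neg h1, if_neg h2] at hk; simp at hk

/-- the operator `c₀ A ^ t - 1`. -/
noncomputable def opP (A : E ≃ₗ[K] E) (t : ℤ) (c₀ : K) : E →ₗ[K] E :=
  c₀ • ((A ^ t : E ≃ₗ[K] E) : E →ₗ[K] E) - LinearMap.id

lemma opP_apply (A : E ≃ₗ[K] E) (t : ℤ) (c₀ : K) (v : E) :
    opP A t c₀ v = c₀ • (A ^ t) v - v := rfl

lemma relSet_of_opP (A : E ≃ₗ[K] E) (L : ℕ) (t : ℤ) (g : K) (ht : t ≠ 0) (htL : |t| ≤ L) (v : E)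
    (h : opP A t g v = 0) : v ∈ relSet A L := by
  apply relSet_of A L v (Finsupp.single t g - Finsupp.single 0 1) _ 0
  · simp [ht]
  · rw [map_sub, Finsupp.linearCombination_single, Finsupp.linearCombination_single, one_smul]
    rw [opP_apply] at h
    simpa using h
  · intro k hk
    rw [Finsupp.mem_support_iff, Finsupp.sub_apply, Finsupp.single_apply, Finsupp.single_apply] at hk
    by_cases h1 : t = k
    · rw [← h1]; exact htL
    · by_cases h2 : (0 : ℤ) = k
      · rw [← h2]; simp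
      · rw [if_neg h1, if_neg h2] at hk; simp at hk

/-- the operator of the third relation. -/
noncomputable def opQ (A : E ≃ₗ[K] E) (s t : ℤ) (g₀ g₁ c₀ c₁ : K) : E →ₗ[K] E :=
  ((A ^ s : E ≃ₗ[K] E) : E →ₗ[K] E) ∘ₗ
    (g₀ • LinearMap.id + g₁ • ((A ^ t : E ≃ₗ[K] E) : E →ₗ[K] E))
    - (c₀ • LinearMap.id + c₁ • ((A ^ t : E ≃ₗ[K] E) : E →ₗ[K] E))

lemma opQ_apply (A : E ≃ₗ[K] E) (s t : ℤ) (g₀ g₁ c₀ c₁ : K) (v : E) :
    opQ A s t g₀ g₁ c₀ c₁ v =
      (A ^ s) (g₀ • v + g₁ • (A ^ t) v) - (c₀ • v + c₁ • (A ^ t) v) := rfl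

lemma relSet_of_opQ (A : E ≃ₗ[K] E) (L : ℕ) (s t : ℤ) (g₀ g₁ c₀ c₁ : K) (hs : s ≠ 0) (ht : t ≠ 0)
    (hst : s ≠ t) (hg : g₀ ≠ 0) (hsL : |s| ≤ L) (htL : |t| ≤ L) (hstL : |s + t| ≤ L) (v : E)
    (h : opQ A s t g₀ g₁ c₀ c₁ v = 0) : v ∈ relSet A L := by
  apply relSet_of A L v (Finsupp.single s g₀ + Finsupp.single (s + t) g₁ -
    (Finsupp.single 0 c₀ + Finsupp.single t c₁)) _ s
  · have h1 : ¬ s + t = s := by omega
    have h2 : ¬ (0 : ℤ) = s := fun h => hs h.symm
    have h3 : ¬ t = s := fun h => hst h.symm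
    simp only [Finsupp.sub_apply, Finsupp.add_apply, Finsupp.single_apply, if_neg h1, if_neg h2,
      if_neg h3, if_true, add_zero, sub_zero]
    exact hg
  · rw [map_sub, map_add, map_add, Finsupp.linearCombination_single,
      Finsupp.linearCombination_single, Finsupp.linearCombination_single,
      Finsupp.linearCombination_single]
    rw [opQ_apply, map_add, map_smul, map_smul] at h
    rw [zpow_add, LinearEquiv.mul_apply]
    simpa using h
  · intro k hk
    by_contra hcon
    apply hcon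
    by_cases h1 : s = k
    · rw [← h1]; exact hsL
    · by_cases h2 : s + t = k
      · rw [← h2]; exact hstL
      · by_cases h3 : (0 : ℤ) = k
        · rw [← h3]; simp
        · by_cases h4 : t = k
          · rw [← h4]; exact htL
          · exfalso
            rw [Finsupp.mem_support_iff] at hk
            simp only [Finsupp.sub_apply, Finsupp.add_apply, Finsupp.single_apply, if_neg h1,
              if_neg h2, if_neg h3, if_neg h4, add_zero, sub_zero] at hk
            exact hk rfl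

open Classical in
/-- truncation to the relation set -/
noncomputable def toW (A : E ≃ₗ[K] E) (L : ℕ) (x : E) : relSet A L :=
  if h : x ∈ relSet A L then ⟨x, h⟩ else ⟨0, zero_mem_relSet A L⟩

lemma toW_inj (A : E ≃ₗ[K] E) (L : ℕ) (x y : E) (hx : x ∈ relSet A L) (hy : y ∈ relSet A L)
    (h : toW A L x = toW A L y) : x = y := by
  unfold toW at h
  rw [dif_pos hx, dif_pos hy] at h
  exact congrArg Subtype.val h

lemma eq_of_code (A : E ≃ₗ[K] E) (L : ℕ) (M : E →ₗ[K] E) (hM : ∀ v, M v = 0 → v ∈ relSet A L)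
    (z z' : E) (h : M z = M z') (hk : toW A L (kc M z) = toW A L (kc M z')) : z = z' :=
  kc_inj M z z' h (toW_inj A L _ _ (hM _ (kc_mem M z)) (hM _ (kc_mem M z')) hk)

end Rel

end H45.Gap
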