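import Pool.Agent.H45.GapCheb

/-!
# Hilbert-Schmidt bound and growth along an almost invariant function
-/

namespace H45.Gap

open Matrix Finset

set_option linter.unusedSectionVars false
set_option linter.unusedVariables false

section HS

variable {V : Type*} [Fintype V] [DecidableEq V]

lemma chT_mulVec_one (r t : ℝ) (M : Matrix V V ℝ) (hM : M *ᵥ (fun _ => 1) = fun _ => t) (n : ℕ) :
    chT r M n *ᵥ (fun _ => 1) = fun _ => chT r t n := by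
  induction n using Nat.twoStepInduction with
  | zero =>
    rw [chT_zero, chT_zero]
    have : (2 : Matrix V V ℝ) = (2 : ℝ) • 1 := by
      rw [two_smul]; norm_num
    rw [this, Matrix.smul_mulVec, Matrix.one_mulVec]
    funext v
    simp
  | one => rw [chT_one, chT_one]; exact hM
  | more n ih1 ih2 =>
    rw [chT_add_two, chT_add_two, Matrix.sub_mulVec, ← Matrix.mulVec_mulVec, ih2,
      Matrix.smul_mulVec, ih1]
    have h : (fun _ : V => chT r t (n + 1)) = (chT r t (n + 1)) • (fun _ : V => (1 : ℝ)) := by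
      funext v; simp
    rw [h, Matrix.mulVec_smul, hM]
    funext v
    simp [mul_comm]

lemma hs_aux (M : Matrix V V ℝ) (t : ℝ) (hM : M *ᵥ (fun _ => 1) = fun _ => t) [Nonempty V] :
    ∑ v, ∑ w, (M v w - t / Fintype.card V) ^ 2 = Matrix.trace (Mᵀ * M) - t ^ 2 := by
  have hn : (Fintype.card V : ℝ) ≠ 0 := by
    exact_mod_cast Fintype.card_ne_zero
  have h1 : ∀ v, ∑ w, M v w = t := by
    intro v
    have := congrFun hM v
    simpa [Matrix.mulVec, dotProduct] using this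
  have h2 : Matrix.trace (Mᵀ * M) = ∑ v, ∑ w, M v w ^ 2 := by
    rw [Matrix.trace, Finset.sum_comm]
    refine Finset.sum_congr rfl fun w _ => ?_
    rw [Matrix.diag_apply, Matrix.mul_apply]
    refine Finset.sum_congr rfl fun v _ => ?_
    rw [Matrix.transpose_apply, pow_two]
  rw [h2]
  have h3 : ∀ v, ∑ w, (M v w - t / Fintype.card V) ^ 2 =
      ∑ w, M v w ^ 2 - t ^ 2 / Fintype.card V := by
    intro v
    have : ∀ w, (M v w - t / Fintype.card V) ^ 2 =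
        M v w ^ 2 - (2 * t / Fintype.card V) * M v w + (t / Fintype.card V) ^ 2 := by
      intro w; ring
    simp only [this]
    rw [Finset.sum_add_distrib, Finset.sum_sub_distrib, ← Finset.mul_sum, h1, Finset.sum_const,
      Finset.card_univ, nsmul_eq_mul]
    field_simp
    ring
  simp only [h3]
  rw [Finset.sum_sub_distrib, Finset.sum_const, Finset.card_univ, nsmul_eq_mul]
  field_simp

lemma hs_nonneg (M : Matrix V V ℝ) (t : ℝ) (hM : M *ᵥ (fun _ => 1) = fun _ => t) [Nonempty V] :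
    0 ≤ Matrix.trace (Mᵀ * M) - t ^ 2 := by
  rw [← hs_aux M t hM]
  positivity

lemma hs_bound (M : Matrix V V ℝ) (t : ℝ) (hM : M *ᵥ (fun _ => 1) = fun _ => t) [Nonempty V]
    (f : V → ℝ) (hf : ∑ v, f v = 0) :
    ∑ v, ((M *ᵥ f) v) ^ 2 ≤ (Matrix.trace (Mᵀ * M) - t ^ 2) * ∑ v, f v ^ 2 := by
  rw [← hs_aux M t hM, Finset.sum_mul]
  refine Finset.sum_le_sum fun v _ => ?_
  have h1 : (M *ᵥ f) v = ∑ w, (M v w - t / Fintype.card V) * f w := by
    simp only [sub_mul]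
    rw [Finset.sum_sub_distrib, ← Finset.mul_sum, hf, mul_zero, sub_zero]
    rfl
  rw [h1]
  exact Finset.sum_mul_sq_le_sq_mul_sq _ _ _

end HS

section Main

variable {X V : Type*} [Fintype X] [DecidableEq X] [Fintype V] [DecidableEq V]

variable (J L : Matrix X V ℝ) (c I : ℝ)

lemma mT_symm : (mT J L c)ᵀ = mT J L c := by
  unfold mT mS
  rw [Matrix.transpose_sub, Matrix.transpose_smul, Matrix.transpose_smul, Matrix.transpose_one]
  congr 2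
  simp only [Matrix.transpose_mul, Matrix.transpose_transpose, Matrix.mul_assoc]

lemma chT_transpose (r : ℝ) (M : Matrix V V ℝ) (hM : Mᵀ = M) (n : ℕ) :
    (chT r M n)ᵀ = chT r M n := by
  induction n using Nat.twoStepInduction with
  | zero =>
    rw [chT_zero]
    have : (2 : Matrix V V ℝ) = (2 : ℝ) • 1 := by
      rw [two_smul]; norm_num
    rw [this, Matrix.transpose_smul, Matrix.transpose_one]
  | one => rw [chT_one]; exact hM
  | more n ih1 ih2 =>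
    rw [chT_add_two, Matrix.transpose_sub, Matrix.transpose_mul, Matrix.transpose_smul, ih1, ih2,
      hM]
    congr 1
    exact (chT_commute r M (n+1)).symm.eq

lemma dot_transpose {Y : Type*} [Fintype Y] (C : Matrix Y V ℝ) (f : V → ℝ) :
    f ⬝ᵥ (Cᵀ *ᵥ (C *ᵥ f)) = ∑ v, (C *ᵥ f) v ^ 2 := by
  rw [dotProduct_mulVec, Matrix.vecMul_transpose]
  simp only [dotProduct, pow_two]

/-- quadratic form of `T_1`. -/
lemma mT_quad (f : V → ℝ) :
    f ⬝ᵥ (mT J L c *ᵥ f) =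
      ∑ v, ((c • (Lᵀ * J)) *ᵥ f) v ^ 2 - (2 * (c * (1 - c))) * ∑ v, f v ^ 2 := by
  have h1 : mS J L c = (c • (Lᵀ * J))ᵀ * (c • (Lᵀ * J)) := by
    unfold mS
    simp only [Matrix.transpose_smul, Matrix.transpose_mul, Matrix.transpose_transpose,
      Matrix.smul_mul, Matrix.mul_smul, smul_smul, Matrix.mul_assoc]
    rw [pow_two]
  have h2 : ((2 * (c * (1 - c))) • (1 : Matrix V V ℝ)) *ᵥ f = (2 * (c * (1 - c))) • f := by
    rw [Matrix.smul_mulVec, Matrix.one_mulVec]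
  unfold mT
  rw [Matrix.sub_mulVec, dotProduct_sub, h1, ← Matrix.mulVec_mulVec, h2, dotProduct_smul,
    dot_transpose]
  congr 1
  simp only [dotProduct, pow_two, smul_eq_mul]

lemma mT_dot (r : ℝ) (n : ℕ) (M : Matrix V V ℝ) (hM : Mᵀ = M) (f : V → ℝ)  :
    f ⬝ᵥ (chT r M (2 * n) *ᵥ f) =
      ∑ v, (chT r M n *ᵥ f) v ^ 2 - (2 * r ^ n) * ∑ v, f v ^ 2 := by
  have h2 : ((2 * r ^ n) • (1 : Matrix V V ℝ)) *ᵥ f = (2 * r ^ n) • f := by
    rw [Matrix.smul_mulVec, Matrix.one_mulVec]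
  have h := chT_transpose r M hM n
  have h3 : f ⬝ᵥ (chT r M n *ᵥ (chT r M n *ᵥ f)) = ∑ v, (chT r M n *ᵥ f) v ^ 2 := by
    have := dot_transpose (chT r M n) f
    rwa [h] at this
  rw [chT_double, Matrix.sub_mulVec, dotProduct_sub, h2, dotProduct_smul, ← Matrix.mulVec_mulVec,
    h3]
  congr 1
  simp only [dotProduct, pow_two, smul_eq_mul]

/-- growth of the quadratic form -/
lemma quad_growth (b : ℝ) (M : Matrix V V ℝ) (hM : Mᵀ = M) (f : V → ℝ)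
    (hf : ∑ v, f v ^ 2 = 1) (h0 : 1 / 2 + 2 * b ^ 2 ≤ f ⬝ᵥ (M *ᵥ f)) (k : ℕ) :
    (1 / 2 : ℝ) ^ (2 ^ k) + (2 * b ^ 2) ^ (2 ^ k) ≤ f ⬝ᵥ (chT (b ^ 2) M (2 ^ k) *ᵥ f) := by
  induction k with
  | zero => simpa [chT_one] using h0
  | succ k ih =>
    rw [pow_succ' 2 k, mT_dot (b ^ 2) (2 ^ k) M hM f, hf, mul_one]
    have cs : (f ⬝ᵥ (chT (b ^ 2) M (2 ^ k) *ᵥ f)) ^ 2 ≤
        ∑ v, (chT (b ^ 2) M (2 ^ k) *ᵥ f) v ^ 2 := by
      have := Finset.sum_mul_sq_le_sq_mul_sq Finset.univ f (chT (b ^ 2) M (2 ^ k) *ᵥ f)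
      rw [hf, one_mul] at this
      exact this
    have hpos : 0 ≤ (1 / 2 : ℝ) ^ (2 ^ k) + (2 * b ^ 2) ^ (2 ^ k) := by positivity
    have sq := pow_le_pow_left₀ hpos ih 2
    have e : ((1 / 2 : ℝ) ^ (2 ^ k) + (2 * b ^ 2) ^ (2 ^ k)) ^ 2 =
        (1 / 2 : ℝ) ^ (2 * 2 ^ k) + (2 * b ^ 2) ^ (2 * 2 ^ k) + 2 * (b ^ 2) ^ (2 ^ k) := by
      rw [mul_comm 2 (2 ^ k), pow_mul, pow_mul]
      have : (b ^ 2) ^ (2 ^ k) = (1 / 2 : ℝ) ^ (2 ^ k) * (2 * b ^ 2) ^ (2 ^ k) := by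
        rw [← mul_pow]; congr 1; ring
      rw [this]; ring
    linarith

lemma quad_growth' (b : ℝ) (M : Matrix V V ℝ) (hM : Mᵀ = M) (f : V → ℝ)
    (hf : ∑ v, f v ^ 2 = 1) (h0 : 1 / 2 + 2 * b ^ 2 ≤ f ⬝ᵥ (M *ᵥ f)) (k : ℕ) :
    (1 / 2 : ℝ) ^ (2 ^ (k + 1)) ≤ ∑ v, (chT (b ^ 2) M (2 ^ k) *ᵥ f) v ^ 2 := by
  have cs : (f ⬝ᵥ (chT (b ^ 2) M (2 ^ k) *ᵥ f)) ^ 2 ≤
      ∑ v, (chT (b ^ 2) M (2 ^ k) *ᵥ f) v ^ 2 := by
    have := Finset.sum_mul_sq_le_sq_mul_sq Finset.univ f (chT (b ^ 2) M (2 ^ k) *ᵥ f)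
    rw [hf, one_mul] at this
    exact this
  have h1 := quad_growth b M hM f hf h0 k
  have h2 : (0 : ℝ) ≤ (2 * b ^ 2) ^ (2 ^ k) := by positivity
  have h3 : (1 / 2 : ℝ) ^ (2 ^ k) ≤ f ⬝ᵥ (chT (b ^ 2) M (2 ^ k) *ᵥ f) := by linarith
  have h4 := pow_le_pow_left₀ (by positivity) h3 2
  rw [← pow_mul, ← pow_succ] at h4
  linarith

variable [Nonempty V]

/-- The key quantity. -/
noncomputable def mQ (J L : Matrix X V ℝ) (c I : ℝ) (m : ℕ) : ℝ :=
  mD J L c m - (chT ((c * (1 - c)) ^ 2) (1 - 2 * (c * (1 - c))) m + (I - 2) * c ^ (2 * m))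
    + 2 * (c * (1 - c)) ^ m * Fintype.card V

lemma mQ_ge (hJ : Jᵀ * J = I • (1 : Matrix V V ℝ))
    (hL : Lᵀ * L = I • (1 : Matrix V V ℝ)) (hc : c * I = 1) (hI : 2 ≤ I)
    (hcard : (Fintype.card X : ℝ) = I * Fintype.card V)
    (hone : mT J L c *ᵥ (fun _ => 1) = fun _ => 1 - 2 * (c * (1 - c))) (n : ℕ) :
    Matrix.trace ((chT ((c * (1 - c)) ^ 2) (mT J L c) (n + 1))ᵀ *
      chT ((c * (1 - c)) ^ 2) (mT J L c) (n + 1)) -
      (chT ((c * (1 - c)) ^ 2) (1 - 2 * (c * (1 - c))) (n + 1)) ^ 2 ≤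
      mQ J L c I (2 * (n + 1)) := by
  have hc0 : 0 < c := by
    have : 0 < I := by linarith
    by_contra h
    push_neg at h
    nlinarith
  have hc1 : c ≤ 1 / 2 := by
    nlinarith
  set r := (c * (1 - c)) ^ 2 with hr
  set M := mT J L c with hM
  have hsym : Mᵀ = M := mT_symm J L c
  rw [chT_transpose r M hsym]
  have h1 := chT_double r M (n + 1)
  have h2 : chT r M (n + 1) * chT r M (n + 1) = chT r M (2 * (n + 1)) + (2 * r ^ (n + 1)) • 1 := by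
    rw [h1]; abel
  have h3 := chT_double r (1 - 2 * (c * (1 - c))) (n + 1)
  have h4 : (chT r (1 - 2 * (c * (1 - c))) (n + 1)) ^ 2 =
      chT r (1 - 2 * (c * (1 - c))) (2 * (n + 1)) + 2 * r ^ (n + 1) := by
    rw [h3, smul_eq_mul]; ring
  rw [h2, h4, Matrix.trace_add, Matrix.trace_smul, Matrix.trace_one, smul_eq_mul]
  unfold mQ
  have h5 := mD_eq J L c I hJ hL hc hcard (2 * (n + 1) - 1)
  rw [show 2 * (n + 1) - 1 + 1 = 2 * (n + 1) by omega] at h5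
  rw [h5, ← hr, ← hM]
  have h6 : (c * (1 - c)) ^ (2 * (n + 1)) = r ^ (n + 1) := by rw [hr, ← pow_mul]
  rw [h6]
  have hr0 : 0 ≤ r ^ (n + 1) := by positivity
  have hV : (1 : ℝ) ≤ Fintype.card V := by
    exact_mod_cast Fintype.card_pos
  have h7 : 0 ≤ (I - 2) * ((Fintype.card V : ℝ) - 1) * c ^ (2 * (2 * (n + 1))) := by
    have : 0 ≤ I - 2 := by linarith
    have : 0 ≤ (Fintype.card V : ℝ) - 1 := by linarith
    positivity
  nlinarith

lemma mQ_nonneg (hJ : Jᵀ * J = I • (1 : Matrix V V ℝ))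
    (hL : Lᵀ * L = I • (1 : Matrix V V ℝ)) (hc : c * I = 1) (hI : 2 ≤ I)
    (hcard : (Fintype.card X : ℝ) = I * Fintype.card V)
    (hone : mT J L c *ᵥ (fun _ => 1) = fun _ => 1 - 2 * (c * (1 - c))) (n : ℕ) :
    0 ≤ mQ J L c I (2 * (n + 1)) := by
  refine le_trans ?_ (mQ_ge J L c I hJ hL hc hI hcard hone n)
  exact hs_nonneg _ _ (chT_mulVec_one _ _ _ hone (n+1))

theorem mQ_large (hJ : Jᵀ * J = I • (1 : Matrix V V ℝ))
    (hL : Lᵀ * L = I • (1 : Matrix V V ℝ)) (hc : c * I = 1) (hI : 2 ≤ I)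
    (hcard : (Fintype.card X : ℝ) = I * Fintype.card V)
    (hone : mT J L c *ᵥ (fun _ => 1) = fun _ => 1 - 2 * (c * (1 - c))) (k : ℕ)
    (f : V → ℝ) (hf0 : ∑ v, f v = 0) (hf : ∑ v, f v ^ 2 = 1)
    (hC : 1 / 2 + 2 * (c * (1 - c)) ^ 2 + 2 * (c * (1 - c)) ≤
      ∑ v, ((c • (Lᵀ * J)) *ᵥ f) v ^ 2) :
    (1 / 2 : ℝ) ^ (2 ^ (k + 1)) ≤ mQ J L c I (2 ^ (k + 1)) := by
  have h0 : 1 / 2 + 2 * (c * (1 - c)) ^ 2 ≤ f ⬝ᵥ (mT J L c *ᵥ f) := by
    rw [mT_quad, hf]; linarith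
  have h1 := quad_growth' (c * (1 - c)) (mT J L c) (mT_symm J L c) f hf h0 k
  obtain ⟨n, hn⟩ : ∃ n, 2 ^ k = n + 1 := ⟨2 ^ k - 1, by
    have : 0 < 2 ^ k := by positivity
    omega⟩
  have h2 := hs_bound _ _ (chT_mulVec_one ((c * (1 - c)) ^ 2) _ _ hone (2 ^ k)) f hf0
  rw [hf, mul_one] at h2
  have h3 := mQ_ge J L c I hJ hL hc hI hcard hone n
  rw [← hn] at h3
  rw [pow_succ' 2 k]
  rw [pow_succ' 2 k] at h1
  linarith

end Main

end H45.Gap
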