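import Pool.Agent.H45.GapSpec

/-!
# Expansion of the alternating trace as a count of closed sequences
-/

namespace H45.Gap

open Matrix Finset

set_option linter.unusedSectionVars false
set_option linter.unusedVariables false

section Prod

variable {X : Type*} [Fintype X] [DecidableEq X]

/-- ordered product -/
noncomputable def mprod (M : ℕ → Matrix X X ℝ) : ℕ → Matrix X X ℝ
  | 0 => 1
  | (k+1) => mprod M k * M k

lemma mprod_apply (M : ℕ → Matrix X X ℝ) (k : ℕ) : ∀ x y,
    mprod M k x y = ∑ u : Fin (k+1) → X, if u 0 = x ∧ u (Fin.last k) = y then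
      ∏ j : Fin k, M j (u j.castSucc) (u j.succ) else 0 := by
  induction k with
  | zero =>
    intro x y
    rw [mprod]
    simp only [Finset.univ_eq_empty, Finset.prod_empty, Matrix.one_apply]
    rw [← (Equiv.funUnique (Fin 1) X).symm.sum_comp]
    have : ∀ z : X, (if ((Equiv.funUnique (Fin 1) X).symm z) 0 = x ∧
        ((Equiv.funUnique (Fin 1) X).symm z) (Fin.last 0) = y then (1 : ℝ) else 0) =
        if z = x then (if x = y then 1 else 0) else 0 := by
      intro z
      simp only [Equiv.funUnique_symm_apply, uniqueElim_const]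
      by_cases h : z = x
      · subst h; simp
      · simp [h]
    simp only [this, Finset.sum_ite_eq', Finset.mem_univ, if_true]
  | succ k ih =>
    intro x y
    rw [mprod, Matrix.mul_apply]
    rw [← (Fin.snocEquiv (fun _ : Fin (k + 2) => X)).sum_comp, Fintype.sum_prod_type,
      Finset.sum_comm]
    simp only [ih, Finset.sum_mul]
    rw [Finset.sum_comm]
    refine Finset.sum_congr rfl fun u _ => ?_
    have h1 : ∀ z : X, (if u 0 = x ∧ u (Fin.last k) = z then
        ∏ j : Fin k, M j (u j.castSucc) (u j.succ) else 0) * M k z y =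
        if u (Fin.last k) = z then (if u 0 = x then
        (∏ j : Fin k, M j (u j.castSucc) (u j.succ)) * M k (u (Fin.last k)) y else 0) else 0 := by
      intro z
      by_cases h : u (Fin.last k) = z
      · subst h
        by_cases h' : u 0 = x
        · simp [h']
        · simp [h']
      · simp [h]
    simp only [h1, Finset.sum_ite_eq, Finset.mem_univ, if_true]
    have h2 : ∀ z : X, (if ((Fin.snocEquiv (fun _ : Fin (k + 2) => X)) (z, u)) 0 = x ∧
        ((Fin.snocEquiv (fun _ : Fin (k + 2) => X)) (z, u)) (Fin.last (k + 1)) = y then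
        ∏ j : Fin (k + 1), M j (((Fin.snocEquiv (fun _ : Fin (k + 2) => X)) (z, u)) j.castSucc)
          (((Fin.snocEquiv (fun _ : Fin (k + 2) => X)) (z, u)) j.succ) else 0) =
        if y = z then (if u 0 = x then
        (∏ j : Fin k, M j (u j.castSucc) (u j.succ)) * M k (u (Fin.last k)) y else 0) else 0 := by
      intro z
      have e0 : ((Fin.snocEquiv (fun _ : Fin (k + 2) => X)) (z, u)) 0 = u 0 := by
        show Fin.snoc (α := fun _ => X) u z 0 = u 0
        have := Fin.snoc_castSucc (α := fun _ : Fin (k + 2) => X) z u 0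
        simp
      have e1 : ((Fin.snocEquiv (fun _ : Fin (k + 2) => X)) (z, u)) (Fin.last (k + 1)) = z := by
        show Fin.snoc (α := fun _ => X) u z (Fin.last (k+1)) = z
        simp
      have e2 : ∀ i : Fin (k + 1),
          ((Fin.snocEquiv (fun _ : Fin (k + 2) => X)) (z, u)) i.castSucc = u i := by
        intro i
        show Fin.snoc (α := fun _ => X) u z i.castSucc = u i
        simp
      rw [e0, e1, Fin.prod_univ_castSucc]
      have e3 : ∀ j : Fin k, ((Fin.snocEquiv (fun _ : Fin (k + 2) => X)) (z, u)) j.castSucc.succ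
          = u j.succ := by
        intro j
        rw [← e2 j.succ]; rfl
      have e4 : ((Fin.snocEquiv (fun _ : Fin (k + 2) => X)) (z, u)) (Fin.last k).succ = z := by
        rw [Fin.succ_last]; exact e1
      simp only [e2, e3, e4]
      by_cases h : y = z
      · subst h
        by_cases h' : u 0 = x
        · simp [h']
        · simp [h']
      · have h'' : ¬ z = y := fun hh => h hh.symm
        simp [h, h'']
    simp only [h2, Finset.sum_ite_eq, Finset.mem_univ, if_true]

lemma trace_mprod (M : ℕ → Matrix X X ℝ) (k : ℕ) :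
    Matrix.trace (mprod M (k + 1)) = ∑ u : Fin (k+1) → X, ∏ j : Fin (k+1), M j (u j) (u (j+1)) := by
  rw [Matrix.trace]
  simp only [Matrix.diag_apply]
  have h0 : ∀ x, mprod M (k + 1) x x = ∑ u : Fin (k+1) → X, if u 0 = x then
      ∏ j : Fin (k+1), M j (u j) (u (j+1)) else 0 := by
    intro x
    rw [mprod, Matrix.mul_apply]
    simp only [mprod_apply, Finset.sum_mul]
    rw [Finset.sum_comm]
    refine Finset.sum_congr rfl fun u _ => ?_
    have h1 : ∀ z : X, (if u 0 = x ∧ u (Fin.last k) = z then
        ∏ j : Fin k, M j (u j.castSucc) (u j.succ) else 0) * M k z x =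
        if u (Fin.last k) = z then (if u 0 = x then
        (∏ j : Fin k, M j (u j.castSucc) (u j.succ)) * M k (u (Fin.last k)) x else 0) else 0 := by
      intro z
      by_cases h : u (Fin.last k) = z
      · subst h
        by_cases h' : u 0 = x
        · simp [h']
        · simp [h']
      · simp [h]
    simp only [h1, Finset.sum_ite_eq, Finset.mem_univ, if_true]
    by_cases h : u 0 = x
    · rw [if_pos h, if_pos h, Fin.prod_univ_castSucc]
      subst h
      congr 1
      · refine Finset.prod_congr rfl fun j _ => ?_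
        rw [Fin.val_castSucc, Fin.coeSucc_eq_succ]
      · rw [Fin.val_last, Fin.last_add_one]
    · rw [if_neg h, if_neg h]
  simp only [h0]
  rw [Finset.sum_comm]
  refine Finset.sum_congr rfl fun u _ => ?_
  simp

lemma mprod_alt (a b : Matrix X X ℝ) (k : ℕ) :
    mprod (fun j => if Even j then a else b) (2 * k) = (a * b) ^ k := by
  induction k with
  | zero => simp [mprod]
  | succ k ih =>
    rw [show 2 * (k + 1) = 2 * k + 1 + 1 by ring, mprod, mprod, ih, pow_succ, Matrix.mul_assoc]
    have h1 : Even (2 * k) := even_two_mul k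
    have h2 : ¬ Even (2 * k + 1) := by
      rw [Nat.not_even_iff_odd]; exact odd_two_mul_add_one k
    rw [if_pos h1, if_neg h2]

end Prod

section Perm

variable {V ι : Type*} [Fintype V] [DecidableEq V] [Fintype ι] [DecidableEq ι]

/-- block matrix of a family of permutations -/
noncomputable def mJ (x : ι → Equiv.Perm V) : Matrix (V × ι) V ℝ :=
  fun p v => if p.1 = x p.2 v then 1 else 0

lemma mJT_mul (x y : ι → Equiv.Perm V) (v w : V) :
    ((mJ x)ᵀ * mJ y) v w = ∑ i, if x i v = y i w then 1 else 0 := by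
  rw [Matrix.mul_apply, Fintype.sum_prod_type, Finset.sum_comm]
  refine Finset.sum_congr rfl fun i _ => ?_
  simp only [Matrix.transpose_apply, mJ]
  have : ∀ z : V, (if z = x i v then (1:ℝ) else 0) * (if z = y i w then 1 else 0) =
      if z = x i v then (if x i v = y i w then 1 else 0) else 0 := by
    intro z
    by_cases h : z = x i v
    · subst h; simp
    · simp [h]
  simp only [this, Finset.sum_ite_eq', Finset.mem_univ, if_true]

lemma mJ_orth (x : ι → Equiv.Perm V) :
    (mJ x)ᵀ * mJ x = (Fintype.card ι : ℝ) • (1 : Matrix V V ℝ) := by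
  ext v w
  rw [mJT_mul]
  simp only [EmbeddingLike.apply_eq_iff_eq]
  rw [Finset.sum_const, Finset.card_univ, Matrix.smul_apply, Matrix.one_apply, nsmul_eq_mul,
    smul_eq_mul]

lemma mA_mJ_apply (x : ι → Equiv.Perm V) (c : ℝ) (p q : V × ι) :
    mA (mJ x) c p q = if p.2 ≠ q.2 ∧ (x p.2).symm p.1 = (x q.2).symm q.1 then c else 0 := by
  unfold mA
  rw [Matrix.sub_apply, Matrix.smul_apply, Matrix.smul_apply, Matrix.mul_apply, Matrix.one_apply]
  have h1 : ∑ j, mJ x p j * (mJ x)ᵀ j q =
      if (x p.2).symm p.1 = (x q.2).symm q.1 then 1 else 0 := by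
    have : ∀ z : V, mJ x p z * (mJ x)ᵀ z q = if (x p.2).symm p.1 = z then
        (if (x p.2).symm p.1 = (x q.2).symm q.1 then 1 else 0) else 0 := by
      intro z
      simp only [mJ, Matrix.transpose_apply]
      by_cases h : (x p.2).symm p.1 = z
      · rw [if_pos h]
        have h' : p.1 = x p.2 z := by rw [← h]; simp
        rw [if_pos h', one_mul, h]
        by_cases h2 : q.1 = x q.2 z
        · rw [if_pos h2, if_pos]; rw [h2]; simp
        · rw [if_neg h2, if_neg]
          intro h3; apply h2; rw [h3]; simp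
      · rw [if_neg h]
        have h' : ¬ p.1 = x p.2 z := by
          intro h3; apply h; rw [h3]; simp
        rw [if_neg h', zero_mul]
    simp only [this, Finset.sum_ite_eq, Finset.mem_univ, if_true]
  rw [h1]
  by_cases h2 : p.2 = q.2
  · rw [if_neg (c := p.2 ≠ q.2 ∧ _) (by tauto)]
    by_cases h3 : p = q
    · subst h3; simp
    · have h4 : ¬ (x p.2).symm p.1 = (x q.2).symm q.1 := by
        intro h5
        apply h3
        rw [← h2] at h5
        exact Prod.ext ((x p.2).symm.injective h5) h2
      rw [if_neg h3, if_neg h4]; simp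
  · have h3 : ¬ p = q := fun h => h2 (by rw [h])
    rw [if_neg h3]
    by_cases h4 : (x p.2).symm p.1 = (x q.2).symm q.1
    · rw [if_pos h4, if_pos ⟨h2, h4⟩]; simp
    · rw [if_neg h4, if_neg (by tauto)]; simp

/-- closedness relation at step `j` -/
def Rel (x y : ι → Equiv.Perm V) (j : ℕ) (p q : V × ι) : Prop :=
  p.2 ≠ q.2 ∧ if Even j then (x p.2).symm p.1 = (x q.2).symm q.1
    else (y p.2).symm p.1 = (y q.2).symm q.1

open Classical in
/-- closed sequences of vertices and labels -/
noncomputable def closedSeq (x y : ι → Equiv.Perm V) (k : ℕ) : Finset (Fin (k+1) → V × ι) :=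
  Finset.univ.filter fun u => ∀ j : Fin (k+1), Rel x y j (u j) (u (j+1))

lemma mD_eq_card (x y : ι → Equiv.Perm V) (c : ℝ) (m : ℕ) :
    mD (mJ x) (mJ y) c (m + 1) = c ^ (2 * (m + 1)) * (closedSeq x y (2 * m + 1)).card := by
  classical
  unfold mD
  rw [← mprod_alt, show 2 * (m + 1) = 2 * m + 1 + 1 by ring, trace_mprod]
  have : ∀ u : Fin (2 * m + 1 + 1) → V × ι,
      ∏ j : Fin (2 * m + 1 + 1), (if Even (j : ℕ) then mA (mJ x) c else mA (mJ y) c) (u j)
        (u (j + 1)) = if (∀ j : Fin (2 * m + 1 + 1), Rel x y j (u j) (u (j+1))) then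
          c ^ (2 * m + 1 + 1) else 0 := by
    intro u
    have h1 : ∀ j : Fin (2 * m + 1 + 1),
        (if Even (j : ℕ) then mA (mJ x) c else mA (mJ y) c) (u j) (u (j + 1)) =
          if Rel x y j (u j) (u (j+1)) then c else 0 := by
      intro j
      unfold Rel
      by_cases h : Even (j : ℕ)
      · simp only [if_pos h, mA_mJ_apply]
      · simp only [if_neg h, mA_mJ_apply]
    simp only [h1]
    by_cases h : ∀ j : Fin (2 * m + 1 + 1), Rel x y j (u j) (u (j+1))
    · rw [if_pos h]
      simp only [h, if_true, Finset.prod_const, Finset.card_univ, Fintype.card_fin]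
    · rw [if_neg h]
      push Not at h
      obtain ⟨j, hj⟩ := h
      exact Finset.prod_eq_zero (Finset.mem_univ j) (if_neg hj)
  simp only [this]
  rw [← Finset.sum_filter, Finset.sum_const, nsmul_eq_mul, mul_comm]
  rfl

open Classical in
/-- admissible label sequences -/
noncomputable def goodSeq (ι : Type*) [Fintype ι] (k : ℕ) : Finset (Fin (k+1) → ι) :=
  Finset.univ.filter fun s => ∀ j : Fin (k+1), s j ≠ s (j+1)

open Classical in
/-- vertices sequences closed for given labels -/
noncomputable def vSeq (x y : ι → Equiv.Perm V) (k : ℕ) (s : Fin (k+1) → ι) :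
    Finset (Fin (k+1) → V) :=
  Finset.univ.filter fun v => ∀ j : Fin (k+1),
    if Even (j : ℕ) then (x (s j)).symm (v j) = (x (s (j+1))).symm (v (j+1))
    else (y (s j)).symm (v j) = (y (s (j+1))).symm (v (j+1))

lemma mem_closedSeq (x y : ι → Equiv.Perm V) (k : ℕ) (u : Fin (k+1) → V × ι) :
    u ∈ closedSeq x y k ↔ ∀ j : Fin (k+1), Rel x y j (u j) (u (j+1)) := by
  simp only [closedSeq, Finset.mem_filter, Finset.mem_univ, true_and]

lemma mem_goodSeq (k : ℕ) (s : Fin (k+1) → ι) :
    s ∈ goodSeq ι k ↔ ∀ j : Fin (k+1), s j ≠ s (j+1) := by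
  simp only [goodSeq, Finset.mem_filter, Finset.mem_univ, true_and]

lemma mem_vSeq (x y : ι → Equiv.Perm V) (k : ℕ) (s : Fin (k+1) → ι) (v : Fin (k+1) → V) :
    v ∈ vSeq x y k s ↔ ∀ j : Fin (k+1),
    if Even (j : ℕ) then (x (s j)).symm (v j) = (x (s (j+1))).symm (v (j+1))
    else (y (s j)).symm (v j) = (y (s (j+1))).symm (v (j+1)) := by
  simp only [vSeq, Finset.mem_filter, Finset.mem_univ, true_and]

lemma card_closedSeq (x y : ι → Equiv.Perm V) (k : ℕ) :
    (closedSeq x y k).card = ∑ s ∈ goodSeq ι k, (vSeq x y k s).card := by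
  classical
  rw [← Finset.card_sigma]
  refine Finset.card_bij' (fun u _ => ⟨fun j => (u j).2, fun j => (u j).1⟩)
    (fun p _ => fun j => (p.2 j, p.1 j)) ?_ ?_ ?_ ?_
  · intro u hu
    rw [mem_closedSeq] at hu
    rw [Finset.mem_sigma, mem_goodSeq, mem_vSeq]
    exact ⟨fun j => (hu j).1, fun j => (hu j).2⟩
  · intro p hp
    rw [Finset.mem_sigma, mem_goodSeq, mem_vSeq] at hp
    rw [mem_closedSeq]
    exact fun j => ⟨hp.1 j, hp.2 j⟩
  · intro u hu; rfl
  · intro p hp; rfl

end Perm

end H45.Gap
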